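import Pool.Agent.CYN.Defs

/-!
Definitions: leaves of the kernel of a semipositive (1,1)-form on a compact complex space with a flat
canonical bundle.
-/

open scoped ContDiff Topology ComplexConjugate
open Complex Set

namespace Pool.Agent.CYN

open Pool.Agent.CYF

variable {n : ℕ} {X : Type*} [TopologicalSpace X] {ι κ : Type*}

/-- The canonical sheaf of `A` is invertible, with local generators `Ω` of norm `1` for the volume
forms of the charts: near every point of the domain `V k` of a local embedding `ζ k` the quotients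
`dζ_(I 0) ∧ ... ∧ dζ_(I (n-1)) / Ω` are restrictions of holomorphic functions `F I` on an open subset
of the ambient space `ℂ^(dim k)`. -/
def Spc.Index1 (A : Spc (Fin n) X ι κ) : Prop :=
  ∀ k, ∀ x ∈ A.V k, ∃ (O : Set (E (A.dim k))) (F : (Fin n → Fin (A.dim k)) → E (A.dim k) → ℂ),
    IsOpen O ∧ A.ζ k x ∈ O ∧ (∀ I, ContDiffOn ℂ ∞ (F I) O) ∧
    ∀ i, ∀ z ∈ (A.c i).target ∩ (A.c i).symm ⁻¹' A.V k, A.ζ k ((A.c i).symm z) ∈ O →
      ∃ c : ℂ, ‖c‖ = 1 ∧ ∀ I, F I (A.ζ k ((A.c i).symm z))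
        = c * ((jm (A.ζ k ∘ (A.c i).symm) z).submatrix I id).det

variable {A : Spc (Fin n) X ι κ}

/-- `a` is a unit vector of the kernel of `η` at the point `z` of the chart `i`:
`a ≠ 0` and `η^(n-1) / (n-1)! = |i_a Ω|²`, `Ω` the volume form of the chart, i.e. the transposed
adjugate of the Levi matrix is `a aᴴ`. -/
def Form.Unit (η : Form A) (i : ι) (z a : E n) : Prop :=
  z ∈ (A.c i).target ∧ a ≠ 0 ∧ ∀ k l, (lm (η.w i) z).adjugate l k = a k * conj (a l)

/-- `Φ` is a unit speed leaf map on the open set `W` of `ℂ`: near every point of `W` it is a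
holomorphic map to a chart of the smooth part of `X` whose derivative is everywhere a unit vector of
the kernel of `η`. -/
def Form.IsLeaf (η : Form A) (W : Set ℂ) (Φ : ℂ → X) : Prop :=
  ∀ t ∈ W, ∃ (i : ι) (O : Set ℂ), IsOpen O ∧ t ∈ O ∧ MapsTo Φ O (A.c i).source ∧
    DifferentiableOn ℂ (fun s => A.c i (Φ s)) O ∧
    ∀ s ∈ O, η.Unit i (A.c i (Φ s)) (deriv (fun r => A.c i (Φ r)) s)

/-- `γ` is a `C^1` curve on a neighbourhood of `S`, tangent to the kernel of `η`, at points
with `η^(n-1) ≠ 0`. -/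
def Form.IsTan (η : Form A) (S : Set ℝ) (γ : ℝ → X) : Prop :=
  ∀ s ∈ S, ∃ (i : ι) (O : Set ℝ) (d : ℝ → E n), IsOpen O ∧ s ∈ O ∧ MapsTo γ O (A.c i).source ∧
    ContinuousOn d O ∧ ∀ r ∈ O, HasDerivAt (fun q => A.c i (γ q)) (d r) r ∧
      η.Reg i (A.c i (γ r)) ∧ η.Ker i (A.c i (γ r)) (d r)

/-- The leaf of the point `x`: the points that can be joined to `x` by a `C^1` curve tangent to the
kernel of `η`, at points with `η^(n-1) ≠ 0`. -/
def Form.leaf (η : Form A) (x : X) : Set X :=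
  {y | ∃ γ : ℝ → X, γ 0 = x ∧ γ 1 = y ∧ η.IsTan (Icc 0 1) γ}

/-- `s` is a holomorphic section, over the smooth part, of the `m`-th power of the hermitian line
bundle with the weights `w i` (and curvature `η`), twisted by a unitary flat line bundle, of bounded
norm. -/
structure Form.IsSection (η : Form A) (m : ℝ) (s : ι → E n → ℂ) : Prop where
  hol : ∀ i, ContDiffOn ℂ ∞ (s i) (A.c i).target
  norm : ∀ i j, ∀ x ∈ (A.c i).source ∩ (A.c j).source,
    ‖s j (A.c j x)‖ ^ 2 * Real.exp (-(m * η.w j (A.c j x)))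
      = ‖s i (A.c i x)‖ ^ 2 * Real.exp (-(m * η.w i (A.c i x)))
  bdd : ∃ R : ℝ, ∀ i, ∀ z ∈ (A.c i).target, ‖s i z‖ ^ 2 * Real.exp (-(m * η.w i z)) ≤ R

end Pool.Agent.CYN
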