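import Pool.Agent.CYE.Tps
import Pool.Agent.CYE.Defs
import Pool.Agent.CYN.Glo

/-!
CYE module AmA (size 3): the ambient extension of the weight `λ`.
PROOFS. `Lam_smooth`: `LM W · p q` is smooth on the open set `B` (`contDiffOn_LM`, CYF/Kfd.lean), `F I` is smooth (`restrict_scalars ℝ`), finite sums and products, `Complex.reCLM`.
`Lam_nonneg`: the matrix `lm W y` is positive semidefinite for `y ∈ B` (hermitian: `LM_conj`; `levi_eq_sum`, as in `lm_psd` of CYF/Geo.lean or `Emb.psd` of CYN/Kbd.lean); `tps` with `c I = F I y`.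
-/

open scoped ContDiff ComplexConjugate Topology ComplexOrder
open Complex Matrix Finset

namespace Pool.Agent.CYE

open Pool.Agent.CYF Pool.Agent.CYN

variable {n M : ℕ}

/-- the ambient extension of `λ` -/
noncomputable def Lam (n : ℕ) {M : ℕ} (W : E M → ℝ) (F : (Fin n → Fin M) → E M → ℂ) (y : E M) : ℝ :=
  (∑ I : Fin n → Fin M, ∑ K : Fin n → Fin M, (F I y * conj (F K y)) *
    ∑ j, (if I j = K j then (1 : ℂ) else 0) * ∏ l ∈ univ.erase j, LM W y (I l) (K l)).re
      / (n.factorial : ℝ)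

private theorem AmA_conj {S : Set (E M)} {f : E M → ℂ} (hf : ContDiffOn ℝ ∞ f S) :
    ContDiffOn ℝ ∞ (fun y => conj (f y)) S := by
  have h := Complex.conjCLE.contDiff (n := ∞) |>.comp_contDiffOn hf
  exact h

theorem Lam_smooth {W : E M → ℝ} {B : Set (E M)} (hB : IsOpen B) (hW : ContDiffOn ℝ ∞ W B)
    {O : Set (E M)} {F : (Fin n → Fin M) → E M → ℂ} (hF : ∀ I, ContDiffOn ℂ ∞ (F I) O) :
    ContDiffOn ℝ ∞ (Lam n W F) (O ∩ B) := by
  have hF' : ∀ I, ContDiffOn ℝ ∞ (F I) (O ∩ B) := fun I =>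
    ((hF I).restrict_scalars ℝ).mono Set.inter_subset_left
  have hL : ∀ p q, ContDiffOn ℝ ∞ (fun y => LM W y p q) (O ∩ B) := fun p q =>
    (contDiffOn_LM hB hW p q).mono Set.inter_subset_right
  have h1 : ContDiffOn ℝ ∞ (fun y => ∑ I : Fin n → Fin M, ∑ K : Fin n → Fin M,
      (F I y * conj (F K y)) * ∑ j, (if I j = K j then (1 : ℂ) else 0) *
        ∏ l ∈ univ.erase j, LM W y (I l) (K l)) (O ∩ B) := by
    refine ContDiffOn.sum fun I _ => ContDiffOn.sum fun K _ => ?_
    refine ((hF' I).mul (AmA_conj (hF' K))).mul (ContDiffOn.sum fun j _ => ?_)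
    refine contDiffOn_const.mul ?_
    exact contDiffOn_prod fun l _ => hL (I l) (K l)
  have h2 := (Complex.reCLM.contDiff (n := ∞)).comp_contDiffOn h1
  have h3 := h2.div_const (n.factorial : ℝ)
  exact h3

private theorem AmA_psd {W : E M → ℝ} {B : Set (E M)} (hB : IsOpen B) (hW : ContDiffOn ℝ ∞ W B)
    (hpsh : ∀ y ∈ B, ∀ a, 0 ≤ (levi W y a a).re) {y : E M} (hy : y ∈ B) :
    (lm W y).PosSemidef := by
  have hw := hW.contDiffAt (hB.mem_nhds hy)
  have hherm : (lm W y).IsHermitian := by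
    ext k l
    rw [conjTranspose_apply]
    exact LM_conj hB hW hy l k
  refine Matrix.PosSemidef.of_dotProduct_mulVec_nonneg hherm fun x => ?_
  have h1 : star x ⬝ᵥ (lm W y *ᵥ x)
      = levi W y (fun k => conj (x k)) (fun k => conj (x k)) := by
    rw [levi_eq_sum hw]
    simp only [dotProduct, mulVec, Finset.mul_sum]
    refine Finset.sum_congr rfl fun k _ => Finset.sum_congr rfl fun l _ => ?_
    have h2 : lm W y k l = LM W y k l := rfl
    rw [h2, Pi.star_apply, Complex.star_def, Complex.conj_conj]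
    ring
  rw [Complex.le_def]
  refine ⟨?_, ?_⟩
  · rw [h1]
    exact hpsh y hy _
  · have h3 := hherm.im_star_dotProduct_mulVec_self x
    rw [Complex.zero_im]
    exact h3.symm

theorem Lam_nonneg {W : E M → ℝ} {B : Set (E M)} (hB : IsOpen B) (hW : ContDiffOn ℝ ∞ W B)
    (hpsh : ∀ y ∈ B, ∀ a, 0 ≤ (levi W y a a).re) (F : (Fin n → Fin M) → E M → ℂ) {y : E M}
    (hy : y ∈ B) : 0 ≤ Lam n W F y := by
  have h1 := tps (AmA_psd hB hW hpsh hy) (fun I => F I y)
  unfold Lam
  refine div_nonneg ?_ (Nat.cast_nonneg _)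
  exact h1

end Pool.Agent.CYE
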