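import Pool.Agent.CYF.Loc

/-!
CYE module Cbi (size 5): a Cauchy-Binet formula for `∑ adj(B)_lk N_kl`, `B = Jᵀ L J̄`, `N = Jᵀ J̄`.
PROOF. For `j : Fin n` put `T j l = L` for `l ≠ j` and `T j j = 1`. The factor `(if I j = K j then 1 else 0) * ∏ l ∈ univ.erase j, L (I l) (K l)` is
`∏ l, T j l (I l) (K l)`. Expand both determinants over permutations (`Matrix.det_apply'`; in the form `det A = ∑ σ, sign σ * ∏ l, A l (σ l)`,
i.e. `Matrix.det_transpose` first): `det (J.submatrix I id) = ∑ σ, sgn σ ∏_l J (I l) (σ l)`. Then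
`∑_I ∑_K det J_I conj (det J_K) ∏_l T j l (I l) (K l) = ∑_σ ∑_ρ sgn σ sgn ρ ∑_I ∑_K ∏_l (J (I l) (σ l) * conj (J (K l) (ρ l)) * T j l (I l) (K l))
= ∑_σ ∑_ρ sgn σ sgn ρ ∏_l (∑_p ∑_q J p (σ l) * conj (J q (ρ l)) * T j l p q)` (`Finset.prod_univ_sum` / `Fintype.sum_prod_piFinset`, twice, or once for the pair `(I, K)`)
`= ∑_σ ∑_ρ sgn σ sgn ρ N (σ j) (ρ j) ∏_{l ≠ j} B (σ l) (ρ l)`. Put `ρ = π * σ` (`sgn ρ sgn σ = sgn π`) and reindex the product by `l ↦ σ l` and the sum over `j` by `j ↦ σ j`: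
the sum over `j` of it is `∑_σ (∑_j ∑_π sgn π N j (π j) ∏_{l ≠ j} B l (π l)) = n! ∑_j det (B.updateRow j (N j))`
(`Fintype.card_perm`), and `det (B.updateRow j v) = ∑_l v l * adjugate B l j` (`Matrix.adjugate_apply`, linearity of `det` in the row `j`: `Matrix.cramer_transpose_apply`, or
`Matrix.det_updateRow_sum`; `Matrix.mul_adjugate`-type Laplace expansion).
-/

open scoped ComplexConjugate
open Matrix Finset

namespace Pool.Agent.CYE

private theorem cbi_prod {n M : ℕ} (g : Fin n → Fin M → Fin M → ℂ) :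
    ∑ I : Fin n → Fin M, ∑ K : Fin n → Fin M, ∏ l, g l (I l) (K l)
      = ∏ l, ∑ p, ∑ q, g l p q := by
  rw [Finset.prod_univ_sum, Fintype.piFinset_univ]
  refine Finset.sum_congr rfl fun I _ => ?_
  rw [Finset.prod_univ_sum, Fintype.piFinset_univ]

private theorem cbi_det {n M : ℕ} (J : Matrix (Fin M) (Fin n) ℂ) (I : Fin n → Fin M) :
    (J.submatrix I id).det
      = ∑ σ : Equiv.Perm (Fin n), (((Equiv.Perm.sign σ : ℤ)) : ℂ) * ∏ l, J (I l) (σ l) := by
  rw [← Matrix.det_transpose, Matrix.det_apply']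
  rfl

private theorem cbi_row {n : ℕ} (B N : Matrix (Fin n) (Fin n) ℂ) (k : Fin n) :
    (B.updateRow k (N k)).det
      = ∑ π : Equiv.Perm (Fin n), (((Equiv.Perm.sign π : ℤ)) : ℂ)
        * (N k (π k) * ∏ m ∈ univ.erase k, B m (π m)) := by
  rw [← Matrix.det_transpose, Matrix.det_apply']
  refine Finset.sum_congr rfl fun π _ => ?_
  congr 1
  rw [← Finset.mul_prod_erase univ _ (Finset.mem_univ k), Matrix.transpose_apply,
    Matrix.updateRow_self]
  congr 1
  refine Finset.prod_congr rfl fun m hm => ?_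
  rw [Matrix.transpose_apply, Matrix.updateRow_ne (Finset.ne_of_mem_erase hm)]

private theorem cbi_adj {n : ℕ} (B N : Matrix (Fin n) (Fin n) ℂ) (k : Fin n) :
    (B.updateRow k (N k)).det = ∑ l, B.adjugate l k * N k l := by
  rw [← Matrix.cramer_transpose_apply, Matrix.cramer_eq_adjugate_mulVec,
    ← Matrix.adjugate_transpose]
  rfl

private theorem cbi_shift {n : ℕ} (B N : Matrix (Fin n) (Fin n) ℂ) (σ : Equiv.Perm (Fin n)) :
    ∑ ρ : Equiv.Perm (Fin n), ∑ j, (((Equiv.Perm.sign σ : ℤ)) : ℂ)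
      * (((Equiv.Perm.sign ρ : ℤ)) : ℂ)
        * (N (σ j) (ρ j) * ∏ l ∈ univ.erase j, B (σ l) (ρ l))
      = ∑ k, (B.updateRow k (N k)).det := by
  simp only [cbi_row]
  rw [Finset.sum_comm (s := (univ : Finset (Fin n))),
    ← Equiv.sum_comp (Equiv.mulRight σ) (fun ρ : Equiv.Perm (Fin n) =>
      ∑ j, (((Equiv.Perm.sign σ : ℤ)) : ℂ) * (((Equiv.Perm.sign ρ : ℤ)) : ℂ)
        * (N (σ j) (ρ j) * ∏ l ∈ univ.erase j, B (σ l) (ρ l)))]
  refine Finset.sum_congr rfl fun π _ => ?_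
  rw [← Equiv.sum_comp σ (fun k => (((Equiv.Perm.sign π : ℤ)) : ℂ)
        * (N k (π k) * ∏ m ∈ univ.erase k, B m (π m)))]
  refine Finset.sum_congr rfl fun j _ => ?_
  have h1 : (((Equiv.Perm.sign σ : ℤ)) : ℂ)
      * (((Equiv.Perm.sign ((Equiv.mulRight σ) π) : ℤ)) : ℂ)
      = (((Equiv.Perm.sign π : ℤ)) : ℂ) := by
    rw [Equiv.coe_mulRight, Equiv.Perm.sign_mul]
    push_cast
    rcases Int.units_eq_one_or (Equiv.Perm.sign σ) with h | h <;> rw [h] <;> simp
  have h2 : ∏ m ∈ univ.erase (σ j), B m (π m)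
      = ∏ l ∈ univ.erase j, B (σ l) (π (σ l)) := by
    have h3 : univ.erase (σ j) = (univ.erase j).map σ.toEmbedding := by
      ext m
      simp only [Finset.mem_erase, Finset.mem_univ, and_true, Finset.mem_map_equiv]
      constructor
      · intro h h'
        exact h (by rw [← h', Equiv.apply_symm_apply])
      · intro h h'
        exact h (by rw [h', Equiv.symm_apply_apply])
    rw [h3, Finset.prod_map]
    rfl
  rw [h1, h2]
  rfl

private theorem cbi_swap {α β γ δ ε : Type*} [Fintype α] [Fintype β] [Fintype γ] [Fintype δ]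
    [Fintype ε] (F : α → β → γ → δ → ε → ℂ) :
    ∑ I, ∑ K, ∑ σ, ∑ ρ, ∑ j, F I K σ ρ j = ∑ σ, ∑ ρ, ∑ j, ∑ I, ∑ K, F I K σ ρ j := by
  calc ∑ I, ∑ K, ∑ σ, ∑ ρ, ∑ j, F I K σ ρ j
      = ∑ x : α × β, ∑ y : γ × δ × ε, F x.1 x.2 y.1 y.2.1 y.2.2 := by
        simp only [Fintype.sum_prod_type]
    _ = ∑ y : γ × δ × ε, ∑ x : α × β, F x.1 x.2 y.1 y.2.1 y.2.2 := Finset.sum_comm
    _ = ∑ σ, ∑ ρ, ∑ j, ∑ I, ∑ K, F I K σ ρ j := by
        simp only [Fintype.sum_prod_type]

theorem cbi {n M : ℕ} (J : Matrix (Fin M) (Fin n) ℂ) (L : Matrix (Fin M) (Fin M) ℂ)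
    {B N : Matrix (Fin n) (Fin n) ℂ} (hB : ∀ k l, B k l = ∑ p, ∑ q, J p k * conj (J q l) * L p q)
    (hN : ∀ k l, N k l = ∑ a, J a k * conj (J a l)) :
    ∑ I : Fin n → Fin M, ∑ K : Fin n → Fin M,
      ((J.submatrix I id).det * conj (J.submatrix K id).det) *
        ∑ j, (if I j = K j then (1 : ℂ) else 0) * ∏ l ∈ univ.erase j, L (I l) (K l)
      = (n.factorial : ℂ) * ∑ k, ∑ l, B.adjugate l k * N k l := by
  have hT : ∀ (I K : Fin n → Fin M) (j : Fin n),
      (if I j = K j then (1 : ℂ) else 0) * ∏ l ∈ univ.erase j, L (I l) (K l)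
        = ∏ l, (if l = j then (if I l = K l then (1 : ℂ) else 0) else L (I l) (K l)) := by
    intro I K j
    rw [← Finset.mul_prod_erase univ _ (Finset.mem_univ j), if_pos rfl]
    congr 1
    refine Finset.prod_congr rfl fun m hm => ?_
    rw [if_neg (Finset.ne_of_mem_erase hm)]
  have hexp : ∀ I K : Fin n → Fin M,
      ((J.submatrix I id).det * conj (J.submatrix K id).det) *
        ∑ j, (if I j = K j then (1 : ℂ) else 0) * ∏ l ∈ univ.erase j, L (I l) (K l)
      = ∑ σ : Equiv.Perm (Fin n), ∑ ρ : Equiv.Perm (Fin n), ∑ j : Fin n,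
        (((Equiv.Perm.sign σ : ℤ)) : ℂ) * (((Equiv.Perm.sign ρ : ℤ)) : ℂ)
          * ∏ l, (J (I l) (σ l) * conj (J (K l) (ρ l))
            * (if l = j then (if I l = K l then (1 : ℂ) else 0) else L (I l) (K l))) := by
    intro I K
    rw [cbi_det, cbi_det, map_sum, Finset.sum_mul_sum, Finset.sum_mul]
    refine Finset.sum_congr rfl fun σ _ => ?_
    rw [Finset.sum_mul]
    refine Finset.sum_congr rfl fun ρ _ => ?_
    rw [Finset.mul_sum]
    refine Finset.sum_congr rfl fun j _ => ?_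
    rw [hT, Finset.prod_mul_distrib, Finset.prod_mul_distrib, map_mul, map_prod, map_intCast]
    ring
  have hin : ∀ (σ ρ : Equiv.Perm (Fin n)) (j : Fin n),
      ∏ l, ∑ p, ∑ q, (J p (σ l) * conj (J q (ρ l))
            * (if l = j then (if p = q then (1 : ℂ) else 0) else L p q))
        = N (σ j) (ρ j) * ∏ l ∈ univ.erase j, B (σ l) (ρ l) := by
    intro σ ρ j
    rw [← Finset.mul_prod_erase univ _ (Finset.mem_univ j)]
    congr 1
    · rw [hN]
      refine Finset.sum_congr rfl fun p _ => ?_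
      simp
    · refine Finset.prod_congr rfl fun l hl => ?_
      rw [hB]
      refine Finset.sum_congr rfl fun p _ => Finset.sum_congr rfl fun q _ => ?_
      rw [if_neg (Finset.ne_of_mem_erase hl)]
  simp only [hexp]
  rw [cbi_swap]
  have hfin : ∀ (σ ρ : Equiv.Perm (Fin n)) (j : Fin n),
      ∑ I : Fin n → Fin M, ∑ K : Fin n → Fin M,
        (((Equiv.Perm.sign σ : ℤ)) : ℂ) * (((Equiv.Perm.sign ρ : ℤ)) : ℂ)
          * ∏ l, (J (I l) (σ l) * conj (J (K l) (ρ l))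
            * (if l = j then (if I l = K l then (1 : ℂ) else 0) else L (I l) (K l)))
        = (((Equiv.Perm.sign σ : ℤ)) : ℂ) * (((Equiv.Perm.sign ρ : ℤ)) : ℂ)
          * (N (σ j) (ρ j) * ∏ l ∈ univ.erase j, B (σ l) (ρ l)) := by
    intro σ ρ j
    rw [← hin σ ρ j, ← cbi_prod (fun l p q => J p (σ l) * conj (J q (ρ l))
            * (if l = j then (if p = q then (1 : ℂ) else 0) else L p q)), Finset.mul_sum]
    refine Finset.sum_congr rfl fun I _ => ?_
    rw [Finset.mul_sum]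
  simp only [hfin, cbi_shift, cbi_adj]
  rw [Finset.sum_const, Finset.card_univ, Fintype.card_perm, Fintype.card_fin, nsmul_eq_mul]

end Pool.Agent.CYE
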