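import Pool.Agent.CYE.AmA
import Pool.Agent.CYE.Cbi

/-!
CYE module AmB (size 4): the weight `λ` is the restriction of `Lam`.
PROOFS. `Lam_eq`: `lm w z = Jᵀ L J̄` with `J = jm φ z`, `L = LM W (φ z)` (`h.compat` for `e k`, `e l`, `levi_eq_sum` for `W`, `jm_apply` of CYN/Hol.lean: the columns of `J` are the `fderiv ℂ φ z (e k)`), so by `cbi`
`n! * ∑ k l, ad w z l k * N k l = ∑_I ∑_K det J_I conj (det J_K) ...`; `F I (φ z) * conj (F K (φ z)) = ‖c‖² det J_I conj (det J_K)`. The definition of `lam` (CYN/Lam.lean) is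
`Re ∑ k l, ad w z l k * ∑ a, J a k conj (J a l)`.
`unit_lam`: `ad w z l k = a k * conj (a l)`, interchange the sums: `lam = ∑_p ‖∑_k J p k a k‖²`, `jm_apply`.
-/

open scoped ContDiff ComplexConjugate Topology ComplexOrder
open Complex Matrix Finset

namespace Pool.Agent.CYE

open Pool.Agent.CYF Pool.Agent.CYN

variable {n M : ℕ}

private theorem AmB_levi {w : E n → ℝ} {U : Set (E n)} {φ : E n → E M} {W : E M → ℝ} {B : Set (E M)}
    (h : Emb w U φ W B) {z : E n} (hz : z ∈ U) (k l : Fin n) :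
    lm w z k l = ∑ p, ∑ q, jm φ z p k * conj (jm φ z q l) * LM W (φ z) p q := by
  have h1 : lm w z k l = levi w z (e k) (e l) := rfl
  rw [h1, h.compat z hz (e k) (e l),
    levi_eq_sum (h.sW.contDiffAt (h.isOpen_B.mem_nhds (h.maps z hz)))]
  rfl

private theorem AmB_normsq {c : ℂ} (hc : ‖c‖ = 1) (a b : ℂ) :
    (c * a) * conj (c * b) = a * conj b := by
  have h1 : c * conj c = 1 := by
    rw [Complex.mul_conj, Complex.normSq_eq_norm_sq, hc]
    norm_num
  rw [map_mul]
  linear_combination (a * conj b) * h1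

theorem Lam_eq {w : E n → ℝ} {U : Set (E n)} {φ : E n → E M} {W : E M → ℝ} {B : Set (E M)}
    (h : Emb w U φ W B) {z : E n} (hz : z ∈ U) {F : (Fin n → Fin M) → E M → ℂ} {c : ℂ}
    (hc : ‖c‖ = 1) (hF : ∀ I, F I (φ z) = c * ((jm φ z).submatrix I id).det) :
    lam w φ z = Lam n W F (φ z) := by
  have h1 := cbi (jm φ z) (Matrix.of fun p q => LM W (φ z) p q) (B := lm w z)
    (N := Matrix.of fun k l => ∑ a, jm φ z a k * conj (jm φ z a l))
    (fun k l => AmB_levi h hz k l) (fun k l => rfl)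
  have h2 : ∑ I : Fin n → Fin M, ∑ K : Fin n → Fin M, (F I (φ z) * conj (F K (φ z))) *
      ∑ j, (if I j = K j then (1 : ℂ) else 0) * ∏ l ∈ univ.erase j, LM W (φ z) (I l) (K l)
      = (n.factorial : ℂ) * ∑ k, ∑ l, ad w z l k * ∑ a, jm φ z a k * conj (jm φ z a l) := by
    refine Eq.trans ?_ h1
    refine Finset.sum_congr rfl fun I _ => Finset.sum_congr rfl fun K _ => ?_
    rw [hF I, hF K, AmB_normsq hc]
    rfl
  unfold Lam lam
  rw [h2]
  have h3 : ((n.factorial : ℂ) * ∑ k, ∑ l, ad w z l k * ∑ a, jm φ z a k * conj (jm φ z a l)).re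
      = (n.factorial : ℝ) * (∑ k, ∑ l, ad w z l k * ∑ a, jm φ z a k * conj (jm φ z a l)).re := by
    have h4 : (n.factorial : ℂ) = ((n.factorial : ℝ) : ℂ) := by norm_cast
    rw [h4, Complex.re_ofReal_mul]
  rw [h3, mul_div_cancel_left₀]
  exact_mod_cast n.factorial_ne_zero

theorem unit_lam {w : E n → ℝ} {φ : E n → E M} {z a : E n}
    (ha : ∀ k l, (lm w z).adjugate l k = a k * conj (a l)) :
    lam w φ z = ∑ p, ‖fderiv ℂ φ z a p‖ ^ 2 := by
  have h1 : ∑ k, ∑ l, ad w z l k * ∑ p, jm φ z p k * conj (jm φ z p l)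
      = ((∑ p, ‖fderiv ℂ φ z a p‖ ^ 2 : ℝ) : ℂ) := by
    have h2 : ∀ k, ∑ l, ad w z l k * ∑ p, jm φ z p k * conj (jm φ z p l)
        = ∑ p, (jm φ z p k * a k) * ∑ l, conj (jm φ z p l * a l) := by
      intro k
      simp only [Finset.mul_sum]
      rw [Finset.sum_comm]
      refine Finset.sum_congr rfl fun p _ => Finset.sum_congr rfl fun l _ => ?_
      have h3 : ad w z l k = a k * conj (a l) := ha k l
      rw [h3, map_mul]
      ring
    rw [Finset.sum_congr rfl fun k _ => h2 k, Finset.sum_comm, Complex.ofReal_sum]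
    refine Finset.sum_congr rfl fun p _ => ?_
    rw [← Finset.sum_mul, jm_apply, ← map_sum, Complex.mul_conj, Complex.normSq_eq_norm_sq]
  unfold lam
  rw [h1, Complex.ofReal_re]

end Pool.Agent.CYE
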