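import Pool.Agent.CYE.AmB

/-!
CYE module Amc (size 4): `|dλ (v a)| ≤ C λ` for unit kernel vectors `a` and `|v| ≤ 1`, uniformly on compact subsets of `V k`.
PROOF. Local statement: for `x ∈ V k` there are a neighbourhood `N` of `x` and `C ≥ 0` such that the inequality holds for all `i, z` with `(A.c i).symm z ∈ N ∩ V k`. Take `O, F` from `hA k x`, and a compact
neighbourhood `K₀ ⊆ O ∩ η.B k` of `A.ζ k x` (`η.maps`); `grd_gen` (CYN/Trk.lean) for `g = Lam n (η.W k) F` on `O ∩ η.B k` (`Lam_smooth`, `Lam_nonneg`) and `K₀` gives `C₁`; `C = √C₁`.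
`N = V k ∩ ζ k ⁻¹' (interior K₀)` (`A.cont`, `A.isOpen_V`). Let `(A.c i).symm z ∈ N`, `φ = A.Z k i`, `a` a unit vector at `z`, `‖v‖ ≤ 1`. For `y` near `z` (in the open set `A.D k i ∩ φ ⁻¹' O`)
`lam (η.w i) φ y = Lam n (η.W k) F (φ y)` (`Lam_eq`, `emb_of`), so `fderiv ℝ (lam ..) z (v • a) = fderiv ℝ (Lam ..) (φ z) (fderiv ℂ φ z (v • a))` (chain rule; `φ` is holomorphic,
`fderiv_comp_hol'` of CYN/Hol.lean with the complex valued function `fun y => (Lam .. y : ℂ)`, or directly). Put `b = fderiv ℂ φ z (v • a) = v • fderiv ℂ φ z a`; `‖b p‖² ≤ ∑_p ‖..‖² = lam` (`unit_lam`),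
so the sup norm of `b` is `≤ √lam`. `grd_gen` for `b / ‖b‖`: `|fderiv ℝ Lam (φ z) b| ≤ √(C₁ Lam) ‖b‖ ≤ √C₁ √lam √lam`. If `b = 0` trivial.
Then `IsCompact.induction_on` (or `elim_nhds_subcover`) for `Q`.
-/

open scoped ContDiff ComplexConjugate Topology ComplexOrder
open Complex Matrix

namespace Pool.Agent.CYE

open Pool.Agent.CYF Pool.Agent.CYN

variable {n : ℕ} {X : Type*} [TopologicalSpace X] {ι κ : Type*} {A : Spc (Fin n) X ι κ}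

private theorem Amc_lin {F : Type*} [NormedAddCommGroup F] [NormedSpace ℝ F] (L : F →L[ℝ] ℝ)
    {D : ℝ} (h : ∀ u : F, ‖u‖ ≤ 1 → (L u) ^ 2 ≤ D) (b : F) : |L b| ≤ √D * ‖b‖ := by
  rcases eq_or_ne b 0 with hb | hb
  · rw [hb]
    simp
  have hn : 0 < ‖b‖ := norm_pos_iff.2 hb
  have hu : ‖(‖b‖⁻¹ : ℝ) • b‖ ≤ 1 := by
    rw [norm_smul, norm_inv, norm_norm, inv_mul_cancel₀ hn.ne']
  have h1 := h _ hu
  have h2 : |L ((‖b‖⁻¹ : ℝ) • b)| ≤ √D := by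
    rw [← Real.sqrt_sq_eq_abs]
    exact Real.sqrt_le_sqrt h1
  rw [map_smul, smul_eq_mul, abs_mul, abs_inv, abs_norm] at h2
  rw [inv_mul_le_iff₀ hn] at h2
  linarith [mul_comm (√D) ‖b‖]

private theorem Amc_loc (hA : A.Index1) (η : Form A) (k : κ) {x : X} (hx : x ∈ A.V k) :
    ∃ N ∈ 𝓝 x, ∃ C : ℝ, 0 ≤ C ∧ ∀ i, ∀ z ∈ A.D k i, (A.c i).symm z ∈ N → ∀ a : E n,
      η.Unit i z a → ∀ v : ℂ, ‖v‖ ≤ 1 →
        |fderiv ℝ (lam (η.w i) (A.Z k i)) z (v • a)| ≤ C * lam (η.w i) (A.Z k i) z := by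
  obtain ⟨O, F, hO, hxO, hF, hcc⟩ := hA k x hx
  have hxB : A.ζ k x ∈ η.B k := η.maps k hx
  have hS : IsOpen (O ∩ η.B k) := hO.inter (η.isOpen_B k)
  obtain ⟨K₀, hK₀, hxK, hKS⟩ := exists_compact_subset hS ⟨hxO, hxB⟩
  have hLs := Lam_smooth (n := n) (η.isOpen_B k) (η.smooth_W k) hF
  have hL0 : ∀ y ∈ O ∩ η.B k, 0 ≤ Lam n (η.W k) F y := fun y hy =>
    Lam_nonneg (η.isOpen_B k) (η.smooth_W k) (η.psh k) F hy.2
  obtain ⟨C₁, hC₁, hC⟩ := grd_gen hS hLs hL0 hK₀ hKS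
  refine ⟨{y | y ∈ A.V k ∧ A.ζ k y ∈ interior K₀}, ?_, √C₁, Real.sqrt_nonneg _, ?_⟩
  · refine Filter.inter_mem ((A.isOpen_V k).mem_nhds hx) ?_
    exact ((A.cont k).continuousAt ((A.isOpen_V k).mem_nhds hx))
      (isOpen_interior.mem_nhds hxK)
  intro i z hz hzN a ha v hv
  have hE := emb_of η k i
  have hzK : A.Z k i z ∈ K₀ := interior_subset hzN.2
  have hzS : A.Z k i z ∈ O ∩ η.B k := hKS hzK
  have hφ : DifferentiableAt ℂ (A.Z k i) z := diff_of_hol hE.isOpen hE.hol hz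
  have hev : lam (η.w i) (A.Z k i) =ᶠ[𝓝 z] fun y => Lam n (η.W k) F (A.Z k i y) := by
    have h1 : ∀ᶠ y in 𝓝 z, y ∈ A.D k i := hE.isOpen.mem_nhds hz
    have h2 : ∀ᶠ y in 𝓝 z, A.Z k i y ∈ O := hφ.continuousAt (hO.mem_nhds hzS.1)
    filter_upwards [h1, h2] with y hy1 hy2
    obtain ⟨c, hc, hcF⟩ := hcc i y hy1 hy2
    exact Lam_eq hE hy1 hc hcF
  have hG : DifferentiableAt ℝ (Lam n (η.W k) F) (A.Z k i z) :=
    (hLs.contDiffAt (hS.mem_nhds hzS)).differentiableAt (by simp)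
  have hd : fderiv ℝ (lam (η.w i) (A.Z k i)) z (v • a)
      = fderiv ℝ (Lam n (η.W k) F) (A.Z k i z) (fderiv ℂ (A.Z k i) z (v • a)) := by
    have h : HasFDerivAt (A.Z k i) ((fderiv ℂ (A.Z k i) z).restrictScalars ℝ) z :=
      hφ.hasFDerivAt.restrictScalars ℝ
    have h2 : HasFDerivAt (fun y => Lam n (η.W k) F (A.Z k i y))
        ((fderiv ℝ (Lam n (η.W k) F) (A.Z k i z)).comp
          ((fderiv ℂ (A.Z k i) z).restrictScalars ℝ)) z := hG.hasFDerivAt.comp z h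
    rw [hev.fderiv_eq, h2.fderiv]
    rfl
  have hval : lam (η.w i) (A.Z k i) z = Lam n (η.W k) F (A.Z k i z) := hev.self_of_nhds
  have hul := unit_lam (φ := A.Z k i) ha.2.2
  have hl0 : 0 ≤ lam (η.w i) (A.Z k i) z := by
    rw [hul]
    exact Finset.sum_nonneg fun p _ => sq_nonneg _
  have hb : ‖fderiv ℂ (A.Z k i) z (v • a)‖ ≤ √(lam (η.w i) (A.Z k i) z) := by
    refine (pi_norm_le_iff_of_nonneg (Real.sqrt_nonneg _)).2 fun p => ?_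
    refine Real.le_sqrt_of_sq_le ?_
    have h1 : ‖fderiv ℂ (A.Z k i) z (v • a) p‖ ≤ ‖fderiv ℂ (A.Z k i) z a p‖ := by
      rw [(fderiv ℂ (A.Z k i) z).map_smul, Pi.smul_apply, norm_smul]
      exact mul_le_of_le_one_left (norm_nonneg _) hv
    calc ‖fderiv ℂ (A.Z k i) z (v • a) p‖ ^ 2 ≤ ‖fderiv ℂ (A.Z k i) z a p‖ ^ 2 :=
          pow_le_pow_left₀ (norm_nonneg _) h1 2
      _ ≤ ∑ p, ‖fderiv ℂ (A.Z k i) z a p‖ ^ 2 :=
          Finset.single_le_sum (f := fun p => ‖fderiv ℂ (A.Z k i) z a p‖ ^ 2)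
            (fun p _ => sq_nonneg _) (Finset.mem_univ p)
      _ = lam (η.w i) (A.Z k i) z := hul.symm
  have hfin := Amc_lin (fderiv ℝ (Lam n (η.W k) F) (A.Z k i z))
    (D := C₁ * lam (η.w i) (A.Z k i) z) (fun u hu => by rw [hval]; exact hC _ hzK u hu)
    (fderiv ℂ (A.Z k i) z (v • a))
  rw [hd]
  refine hfin.trans ?_
  rw [Real.sqrt_mul hC₁]
  calc √C₁ * √(lam (η.w i) (A.Z k i) z) * ‖fderiv ℂ (A.Z k i) z (v • a)‖
      ≤ √C₁ * √(lam (η.w i) (A.Z k i) z) * √(lam (η.w i) (A.Z k i) z) :=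
        mul_le_mul_of_nonneg_left hb (by positivity)
    _ = √C₁ * lam (η.w i) (A.Z k i) z := by
        rw [mul_assoc, Real.mul_self_sqrt hl0]

theorem amc [T2Space X] (hA : A.Index1) (η : Form A) (k : κ) {Q : Set X} (hQ : IsCompact Q)
    (hQV : Q ⊆ A.V k) :
    ∃ C : ℝ, 0 ≤ C ∧ ∀ i, ∀ z ∈ A.D k i, (A.c i).symm z ∈ Q → ∀ a : E n, η.Unit i z a →
      ∀ v : ℂ, ‖v‖ ≤ 1 → |fderiv ℝ (lam (η.w i) (A.Z k i)) z (v • a)| ≤ C * lam (η.w i) (A.Z k i) z := by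
  refine hQ.induction_on (p := fun s => ∃ C : ℝ, 0 ≤ C ∧ ∀ i, ∀ z ∈ A.D k i,
    (A.c i).symm z ∈ s → ∀ a : E n, η.Unit i z a → ∀ v : ℂ, ‖v‖ ≤ 1 →
      |fderiv ℝ (lam (η.w i) (A.Z k i)) z (v • a)| ≤ C * lam (η.w i) (A.Z k i) z) ?_ ?_ ?_ ?_
  · exact ⟨0, le_rfl, fun i z _ h => absurd h (Set.notMem_empty _)⟩
  · rintro s t hst ⟨C, hC, h⟩
    exact ⟨C, hC, fun i z hz hs => h i z hz (hst hs)⟩
  · rintro s t ⟨C, hC, h⟩ ⟨C', hC', h'⟩
    refine ⟨C + C', add_nonneg hC hC', fun i z hz hs a ha v hv => ?_⟩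
    have hl0 : 0 ≤ lam (η.w i) (A.Z k i) z := by
      rw [unit_lam (φ := A.Z k i) ha.2.2]
      exact Finset.sum_nonneg fun p _ => sq_nonneg _
    rcases hs with hs | hs
    · exact (h i z hz hs a ha v hv).trans
        (mul_le_mul_of_nonneg_right (by linarith) hl0)
    · exact (h' i z hz hs a ha v hv).trans
        (mul_le_mul_of_nonneg_right (by linarith) hl0)
  · intro x hx
    obtain ⟨N, hN, C, hC, h⟩ := Amc_loc hA η k (hQV hx)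
    exact ⟨N, mem_nhdsWithin_of_mem_nhds hN, C, hC, h⟩

end Pool.Agent.CYE
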