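import Pool.Agent.CYE.Stp

/-!
CYE module Apr (size 4): the a priori estimate: `λ` is bounded below along a leaf map on a disc, by a constant that depends only on the radius and the starting point.
PROOF. For every `a : Fin N` take `τ_a, c_a` from `stp` for `b a`; `τ = min τ_a > 0`, `c = min c_a > 0` (if `N = 0` the hypothesis `hb` contradicts the existence of `x₀`). `D ≥ 1` with `LX η (b a).k x ≤ D LX η (b a').k x`
for `x ∈ (b a).Q ∩ (b a').Q`, all `a, a'` (`LX_cmp` for the compact set `(b a).Q ∩ (b a').Q`, `X` Hausdorff; finitely many pairs). By `hb` there is `a₀` with `x₀` in the half patch `a₀` (`x₀ ∈ Q`, `nn < (r/2)²`); `δ₀ = LX η (b a₀).k x₀ > 0`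
(`LX_pos`). Let `J` be a natural number with `R ≤ J τ`, `δ = (c / D)^J δ₀ * c` (or anything smaller). Let `Φ` be a leaf map on `ball 0 R`, `Φ 0 = x₀`, `t ∈ ball 0 R`, `p_j = (j / J) t` for `j = 0, ..., J` (`J ≥ 1`), `‖p_(j+1) - p_j‖ ≤ τ`.
Induction on `j ≤ J`: there is `a` with `Φ p_j` in the half patch `a` and `LX η (b a).k (Φ p_j) ≥ (c / D)^j δ₀`. Step: `stp` gives `Φ p_(j+1) ∈ (b a).Q`, `LX η (b a).k (Φ p_(j+1)) ≥ c LX η (b a).k (Φ p_j)`; choose `a'` with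
`Φ p_(j+1)` in the half patch `a'` (`hb`); `LX η (b a').k ≥ LX η (b a).k / D` at this point.
-/

open scoped ContDiff ComplexConjugate Topology ComplexOrder
open Complex Matrix Set

namespace Pool.Agent.CYE

open Pool.Agent.CYF Pool.Agent.CYN

variable {n : ℕ} {X : Type*} [TopologicalSpace X] {ι κ : Type*} {A : Spc (Fin n) X ι κ}

private theorem Apr_cmp [T2Space X] (η : Form A) {N : ℕ} (b : Fin N → Pt A) :
    ∃ D : ℝ, 1 ≤ D ∧ ∀ a a' : Fin N, ∀ x, x ∈ (b a).Q → x ∈ (b a').Q →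
      LX η (b a).k x ≤ D * LX η (b a').k x := by
  have h : ∀ q : Fin N × Fin N, ∃ C : ℝ, 0 ≤ C ∧ ∀ x ∈ (b q.1).Q ∩ (b q.2).Q,
      LX η (b q.1).k x ≤ C * LX η (b q.2).k x := fun q =>
    LX_cmp η ((b q.1).comp.inter (b q.2).comp) (inter_subset_left.trans (b q.1).sub)
      (inter_subset_right.trans (b q.2).sub)
  choose C hC0 hC using h
  refine ⟨1 + ∑ q, C q, le_add_of_nonneg_right (Finset.sum_nonneg fun q _ => hC0 q), ?_⟩
  intro a a' x hx hx'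
  refine (hC (a, a') x ⟨hx, hx'⟩).trans (mul_le_mul_of_nonneg_right ?_ (LX_nonneg η _ x))
  have := Finset.single_le_sum (f := C) (fun q _ => hC0 q) (Finset.mem_univ (a, a'))
  linarith

theorem apr [CompactSpace X] [T2Space X] (hA : A.Index1) (η : Form A) {N : ℕ} {b : Fin N → Pt A}
    (hb : ∀ x : X, ∃ a, x ∈ (b a).Q ∧ nn (b a).cen (A.ζ (b a).k x) < ((b a).r / 2) ^ 2)
    {x₀ : X} {i : ι} {m : Fin n} (hi : x₀ ∈ (A.c i).source) (hm : rho (η.w i) m (A.c i x₀) ≠ 0)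
    (R : ℝ) :
    ∃ δ > 0, ∀ Φ : ℂ → X, η.IsLeaf (Metric.ball 0 R) Φ → Φ 0 = x₀ → ∀ t ∈ Metric.ball (0 : ℂ) R,
      ∃ a, Φ t ∈ (b a).Q ∧ δ ≤ LX η (b a).k (Φ t) := by
  choose τf hτf cf hcf hstp using fun a : Fin N => stp hA η (b a)
  obtain ⟨a₀, ha₀Q, ha₀n⟩ := hb x₀
  have : Nonempty (Fin N) := ⟨a₀⟩
  obtain ⟨a₁, ha₁⟩ := Finite.exists_min τf
  obtain ⟨a₂, ha₂⟩ := Finite.exists_min cf
  obtain ⟨D, hD1, hD⟩ := Apr_cmp η b
  have hτ : 0 < τf a₁ := hτf a₁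
  have hc : 0 < cf a₂ := hcf a₂
  have hD0 : 0 < D := by linarith
  have hδ₀ : 0 < LX η (b a₀).k x₀ := LX_pos η hi hm ((b a₀).sub ha₀Q)
  obtain ⟨J', hJ'⟩ := exists_nat_gt (R / τf a₁)
  have hJR : R ≤ ((J' + 1 : ℕ) : ℝ) * τf a₁ := by
    rw [div_lt_iff₀ hτ] at hJ'
    push_cast
    nlinarith
  set J : ℕ := J' + 1 with hJ
  have hJ0 : (0 : ℝ) < (J : ℝ) := by
    rw [hJ]; push_cast; positivity
  have hq : 0 < cf a₂ / D := div_pos hc hD0
  refine ⟨(cf a₂ / D) ^ J * LX η (b a₀).k x₀, mul_pos (pow_pos hq _) hδ₀, ?_⟩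
  intro Φ hΦ hΦ0 t ht
  have htR : ‖t‖ < R := by simpa using ht
  have hball : ∀ j : ℕ, j ≤ J → (((j : ℝ) / J : ℝ) : ℂ) * t ∈ Metric.ball (0 : ℂ) R := by
    intro j hj
    rw [mem_ball_zero_iff, norm_mul, Complex.norm_real, Real.norm_eq_abs,
      abs_of_nonneg (by positivity)]
    have h1 : (j : ℝ) / J ≤ 1 := (div_le_one hJ0).2 (by exact_mod_cast hj)
    have h2 := norm_nonneg t
    nlinarith
  have key : ∀ j : ℕ, j ≤ J → ∃ a, Φ ((((j : ℝ) / J : ℝ) : ℂ) * t) ∈ (b a).Q ∧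
      nn (b a).cen (A.ζ (b a).k (Φ ((((j : ℝ) / J : ℝ) : ℂ) * t))) < ((b a).r / 2) ^ 2 ∧
      (cf a₂ / D) ^ j * LX η (b a₀).k x₀ ≤ LX η (b a).k (Φ ((((j : ℝ) / J : ℝ) : ℂ) * t)) := by
    intro j
    induction j with
    | zero =>
      intro _
      have h0 : ((((0 : ℕ) : ℝ) / J : ℝ) : ℂ) * t = 0 := by simp
      rw [h0, hΦ0]
      exact ⟨a₀, ha₀Q, ha₀n, by simp⟩
    | succ j ih =>
      intro hj
      obtain ⟨a, haQ, han, haL⟩ := ih (by omega)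
      have hstep : ‖((((j + 1 : ℕ) : ℝ) / J : ℝ) : ℂ) * t - (((j : ℝ) / J : ℝ) : ℂ) * t‖ ≤
          τf a := by
        have h1 : ((((j + 1 : ℕ) : ℝ) / J : ℝ) : ℂ) * t - (((j : ℝ) / J : ℝ) : ℂ) * t =
            ((1 / J : ℝ) : ℂ) * t := by
          push_cast; ring
        rw [h1, norm_mul, Complex.norm_real, Real.norm_eq_abs, abs_of_nonneg (by positivity)]
        refine le_trans ?_ (ha₁ a)
        rw [one_div, inv_mul_le_iff₀ hJ0]
        linarith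
      obtain ⟨hQ', hL'⟩ := hstp a (Metric.ball 0 R) Φ Metric.isOpen_ball
        (convex_ball _ _) hΦ _ (hball j (by omega)) _ (hball (j + 1) hj) hstep haQ han
      obtain ⟨a', ha'Q, ha'n⟩ := hb (Φ (((((j + 1 : ℕ) : ℝ) / J : ℝ) : ℂ) * t))
      refine ⟨a', ha'Q, ha'n, ?_⟩
      have h3 := hD a a' _ hQ' ha'Q
      have h4 : cf a₂ * LX η (b a).k (Φ ((((j : ℝ) / J : ℝ) : ℂ) * t)) ≤
          D * LX η (b a').k (Φ (((((j + 1 : ℕ) : ℝ) / J : ℝ) : ℂ) * t)) :=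
        (mul_le_mul_of_nonneg_right (ha₂ a) (LX_nonneg η _ _)).trans (hL'.trans h3)
      have h5 : cf a₂ * ((cf a₂ / D) ^ j * LX η (b a₀).k x₀) ≤
          D * LX η (b a').k (Φ (((((j + 1 : ℕ) : ℝ) / J : ℝ) : ℂ) * t)) :=
        (mul_le_mul_of_nonneg_left haL hc.le).trans h4
      have h6 : (cf a₂ / D) ^ (j + 1) * LX η (b a₀).k x₀ =
          (cf a₂ * ((cf a₂ / D) ^ j * LX η (b a₀).k x₀)) / D := by
        rw [pow_succ]; field_simp
      rw [h6, div_le_iff₀ hD0, mul_comm _ D]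
      exact h5
  obtain ⟨a, haQ, -, haL⟩ := key J le_rfl
  have h1 : (((J : ℝ) / J : ℝ) : ℂ) * t = t := by
    rw [div_self hJ0.ne']; simp
  rw [h1] at haQ haL
  exact ⟨a, haQ, haL⟩

end Pool.Agent.CYE
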