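import Pool.Agent.CYE.BsB

/-!
CYE module Lfb (size 4): elementary properties of leaf maps.
PROOFS. `leaf_mono`, `leaf_congr`, `leaf_loc`: the definition is local (in `leaf_congr` intersect `O` with the open set `W`; `deriv` only depends on the germ:
`Filter.EventuallyEq.deriv_eq`). `leaf_chart`: take `i, O` from the definition at `t`; `x = Φ t ∈ (A.c i).source ∩ (A.c j).source`; `Φ` is continuous on `O` (`Φ = (A.c i).symm ∘ (A.c i ∘ Φ)` there), so
there is an open `O' ⊆ O ∩ W` with `t ∈ O'`, `MapsTo Φ O' (A.c j).source`. On `O'`: `A.c j (Φ s) = A.γ i j (A.c i (Φ s))`, `A.γ i j` is holomorphic on the open set `A.O i j` (`A.hol`, `isOpen_O`), so the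
composition is holomorphic with derivative `fderiv ℂ (A.γ i j) (A.c i (Φ s)) (deriv (A.c i ∘ Φ) s)` (`HasFDerivAt.comp_hasDerivAt`), which is a unit vector by `unit_chg`.
`leaf_cont`: from `leaf_chart`/the definition. `leaf_affine`: the derivative of `s ↦ A.c i (Φ (a + v * s))` is `v •` the derivative at `a + v s`, `unit_rot`.
-/

open scoped ContDiff ComplexConjugate Topology ComplexOrder
open Complex Matrix Set

namespace Pool.Agent.CYE

open Pool.Agent.CYF Pool.Agent.CYN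

variable {n : ℕ} {X : Type*} [TopologicalSpace X] {ι κ : Type*} {A : Spc (Fin n) X ι κ}
  {η : Form A} {V W : Set ℂ} {Φ Ψ : ℂ → X}

theorem leaf_mono (h : η.IsLeaf W Φ) (hV : V ⊆ W) : η.IsLeaf V Φ :=
  fun t ht => h t (hV ht)

theorem leaf_congr (hW : IsOpen W) (h : η.IsLeaf W Φ) (he : ∀ t ∈ W, Φ t = Ψ t) :
    η.IsLeaf W Ψ := by
  intro t ht
  obtain ⟨i, O, hO, htO, hm, hd, hu⟩ := h t ht
  refine ⟨i, O ∩ W, hO.inter hW, ⟨htO, ht⟩, ?_, ?_, ?_⟩
  · intro s hs
    rw [← he s hs.2]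
    exact hm hs.1
  · exact (hd.mono inter_subset_left).congr fun s hs => by rw [he s hs.2]
  · intro s hs
    have h1 : (fun r => A.c i (Ψ r)) =ᶠ[𝓝 s] fun r => A.c i (Φ r) := by
      filter_upwards [hW.mem_nhds hs.2] with r hr
      rw [he r hr]
    rw [h1.deriv_eq, ← he s hs.2]
    exact hu s hs.1

theorem leaf_loc (h : ∀ t ∈ W, ∃ r > 0, η.IsLeaf (Metric.ball t r) Φ) : η.IsLeaf W Φ := by
  intro t ht
  obtain ⟨r, hr, hl⟩ := h t ht
  exact hl t (Metric.mem_ball_self hr)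

theorem leaf_chart (hW : IsOpen W) (h : η.IsLeaf W Φ) {t : ℂ} (ht : t ∈ W) {j : ι}
    (hj : Φ t ∈ (A.c j).source) :
    ∃ O : Set ℂ, IsOpen O ∧ t ∈ O ∧ O ⊆ W ∧ MapsTo Φ O (A.c j).source ∧
      DifferentiableOn ℂ (fun s => A.c j (Φ s)) O ∧
      ∀ s ∈ O, η.Unit j (A.c j (Φ s)) (deriv (fun r => A.c j (Φ r)) s) := by
  obtain ⟨i, O, hO, htO, hm, hd, hu⟩ := h t ht
  have hopen : IsOpen (O ∩ (fun s => A.c i (Φ s)) ⁻¹' A.O i j) :=
    hd.continuousOn.isOpen_inter_preimage hO (isOpen_O i j)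
  have hsymm : ∀ s ∈ O, (A.c i).symm (A.c i (Φ s)) = Φ s := fun s hs => (A.c i).left_inv (hm hs)
  have hγ : ∀ s ∈ O, A.c j (Φ s) = A.γ i j (A.c i (Φ s)) := by
    intro s hs
    show A.c j (Φ s) = A.c j ((A.c i).symm (A.c i (Φ s)))
    rw [hsymm s hs]
  have htm : A.c i (Φ t) ∈ A.O i j := by
    refine ⟨(A.c i).map_source (hm htO), ?_⟩
    show (A.c i).symm (A.c i (Φ t)) ∈ (A.c j).source
    rw [hsymm t htO]
    exact hj
  have hder : ∀ s ∈ (O ∩ (fun s => A.c i (Φ s)) ⁻¹' A.O i j) ∩ W,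
      HasDerivAt (fun r => A.c j (Φ r))
        (fderiv ℂ (A.γ i j) (A.c i (Φ s)) (deriv (fun r => A.c i (Φ r)) s)) s := by
    intro s hs
    have h1 : DifferentiableAt ℂ (A.γ i j) (A.c i (Φ s)) :=
      ((A.hol i j).contDiffAt ((isOpen_O i j).mem_nhds hs.1.2)).differentiableAt (by simp)
    have h2 : DifferentiableAt ℂ (fun r => A.c i (Φ r)) s :=
      hd.differentiableAt (hO.mem_nhds hs.1.1)
    have h3 := h1.hasFDerivAt.comp_hasDerivAt s h2.hasDerivAt
    refine h3.congr_of_eventuallyEq ?_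
    filter_upwards [hO.mem_nhds hs.1.1] with r hr
    exact hγ r hr
  refine ⟨(O ∩ (fun s => A.c i (Φ s)) ⁻¹' A.O i j) ∩ W, hopen.inter hW, ⟨⟨htO, htm⟩, ht⟩,
    inter_subset_right, ?_, ?_, ?_⟩
  · intro s hs
    have h1 : (A.c i).symm (A.c i (Φ s)) ∈ (A.c j).source := hs.1.2.2
    rw [hsymm s hs.1.1] at h1
    exact h1
  · intro s hs
    exact (hder s hs).differentiableAt.differentiableWithinAt
  · intro s hs
    rw [(hder s hs).deriv, hγ s hs.1.1]
    exact unit_chg hs.1.2 (hu s hs.1.1)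

theorem leaf_cont (hW : IsOpen W) (h : η.IsLeaf W Φ) {t : ℂ} (ht : t ∈ W) :
    ContinuousAt Φ t := by
  obtain ⟨i, O, hO, htO, hm, hd, -⟩ := h t ht
  have h1 : ContinuousAt (fun s => A.c i (Φ s)) t :=
    (hd.differentiableAt (hO.mem_nhds htO)).continuousAt
  have h2 : ContinuousAt (A.c i).symm (A.c i (Φ t)) :=
    (A.c i).continuousAt_symm ((A.c i).map_source (hm htO))
  have h3 : ContinuousAt (fun s => (A.c i).symm (A.c i (Φ s))) t :=
    ContinuousAt.comp (f := fun s => A.c i (Φ s)) h2 h1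
  refine h3.congr ?_
  filter_upwards [hO.mem_nhds htO] with s hs
  exact (A.c i).left_inv (hm hs)

theorem leaf_affine (h : η.IsLeaf W Φ) (a : ℂ) {v : ℂ} (hv : ‖v‖ = 1) :
    η.IsLeaf ((fun t => a + v * t) ⁻¹' W) (fun t => Φ (a + v * t)) := by
  intro t ht
  obtain ⟨i, O, hO, htO, hm, hd, hu⟩ := h (a + v * t) ht
  have hc : Continuous fun s : ℂ => a + v * s := by fun_prop
  have hder : ∀ s, a + v * s ∈ O → HasDerivAt (fun r => A.c i (Φ (a + v * r)))
      (v • deriv (fun r => A.c i (Φ r)) (a + v * s)) s := by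
    intro s hs
    have h1 : HasDerivAt (fun r => A.c i (Φ r)) (deriv (fun r => A.c i (Φ r)) (a + v * s))
        (a + v * s) := (hd.differentiableAt (hO.mem_nhds hs)).hasDerivAt
    have h2 : HasDerivAt (fun r : ℂ => a + v * r) v s := by
      simpa using ((hasDerivAt_id s).const_mul v).const_add a
    exact HasDerivAt.scomp s h1 h2
  refine ⟨i, (fun s => a + v * s) ⁻¹' O, hO.preimage hc, htO, fun s hs => hm hs, ?_, ?_⟩
  · intro s hs
    exact (hder s hs).differentiableAt.differentiableWithinAt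
  · intro s hs
    rw [(hder s hs).deriv]
    exact unit_rot (hu _ hs) hv

end Pool.Agent.CYE
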