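import Pool.Agent.CYE.AmB
import Pool.Agent.CYE.Lfb

/-!
CYE module Bro: leaf maps have bounded derivative.
-/

open scoped ContDiff ComplexConjugate Topology ComplexOrder
open Complex Matrix Set

namespace Pool.Agent.CYE

open Pool.Agent.CYF Pool.Agent.CYN

variable {n : ℕ} {X : Type*} [TopologicalSpace X] {ι κ : Type*} {A : Spc (Fin n) X ι κ}

theorem brody [CompactSpace X] [T2Space X] (η : Form A) (k : κ) {Q : Set X} (hQ : IsCompact Q)
    (hQV : Q ⊆ A.V k) :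
    ∃ M : ℝ, ∀ (W : Set ℂ) (Φ : ℂ → X), IsOpen W → η.IsLeaf W Φ → ∀ t ∈ W, Φ t ∈ Q →
      DifferentiableAt ℂ (fun s => A.ζ k (Φ s)) t ∧
        ‖deriv (fun s => A.ζ k (Φ s)) t‖ ≤ M := by
  obtain ⟨R, hR⟩ := hQ.bddAbove_image ((LX_cont η k).mono hQV)
  refine ⟨Real.sqrt R, fun W Φ hW h t ht hQt => ?_⟩
  obtain ⟨i, O, hO, htO, hmaps, hd, hu⟩ := h t ht
  have hc : ContinuousAt Φ t := leaf_cont hW h ht
  have hi : Φ t ∈ (A.c i).source := hmaps htO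
  have hk : Φ t ∈ A.V k := hQV hQt
  have hzt : (A.c i).symm (A.c i (Φ t)) = Φ t := (A.c i).left_inv hi
  have hD : A.c i (Φ t) ∈ A.D k i := by
    refine ⟨(A.c i).map_source hi, ?_⟩
    show (A.c i).symm (A.c i (Φ t)) ∈ A.V k
    rw [hzt]
    exact hk
  -- the map near `t`
  have hZ : DifferentiableAt ℂ (A.Z k i) (A.c i (Φ t)) :=
    diff_of_hol (isOpen_D k i) (A.hol_ζ k i) hD
  have hz : HasDerivAt (fun s => A.c i (Φ s)) (deriv (fun s => A.c i (Φ s)) t) t :=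
    (hd.differentiableAt (hO.mem_nhds htO)).hasDerivAt
  have hcomp : HasDerivAt (fun s => A.Z k i (A.c i (Φ s)))
      (fderiv ℂ (A.Z k i) (A.c i (Φ t)) (deriv (fun s => A.c i (Φ s)) t)) t :=
    HasFDerivAt.comp_hasDerivAt (f := fun s => A.c i (Φ s)) t hZ.hasFDerivAt hz
  have hev : (fun s => A.ζ k (Φ s)) =ᶠ[𝓝 t] fun s => A.Z k i (A.c i (Φ s)) := by
    filter_upwards [hO.mem_nhds htO] with s hs
    show A.ζ k (Φ s) = A.ζ k ((A.c i).symm (A.c i (Φ s)))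
    rw [(A.c i).left_inv (hmaps hs)]
  have hfin := hcomp.congr_of_eventuallyEq hev
  refine ⟨hfin.differentiableAt, ?_⟩
  rw [hfin.deriv]
  have h1 := unit_lam (φ := A.Z k i) (hu t htO).2.2
  have h2 : LX η k (Φ t) = lam (η.w i) (A.Z k i) (A.c i (Φ t)) := LX_eq η hi hk
  have h3 : LX η k (Φ t) ≤ R := hR ⟨Φ t, hQt, rfl⟩
  rw [h2, h1] at h3
  refine (pi_norm_le_iff_of_nonneg (Real.sqrt_nonneg R)).2 fun p => ?_
  refine Real.le_sqrt_of_sq_le (le_trans ?_ h3)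
  exact Finset.single_le_sum (f := fun p => ‖fderiv ℂ (A.Z k i) (A.c i (Φ t))
    (deriv (fun s => A.c i (Φ s)) t) p‖ ^ 2) (fun _ _ => sq_nonneg _) (Finset.mem_univ p)

end Pool.Agent.CYE
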