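import Pool.Agent.CYE.Defs
import Pool.Agent.CYN.Psi

/-!
CYE module BsA (size 3): unit vectors of the kernel, part 1.
PROOFS. `hol_uu`: as in CYN/Fin.lean: for `z ∈ Um (η.w i) m (A.c i).target` the point `x = (A.c i).symm z` has `KX η x = Kf (η.w i) m z` (`KX_eq`, `(A.c i).right_inv`) and `KX η x = 0` (`KX_zero`); `hol_of_Kf`
(CYF/Lgk.lean) with `psd`, `η.det_eq_zero`.
`unit_eq`: `hz` and `adj_rank` (CYF/Adj.lean) for `F = lm (η.w i) z`: `a k * conj (a l) = ρ u_k conj (u_l)`, `ρ = rho (η.w i) m z ≠ 0`, `u_m = 1`; with `k = l = m`: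
`‖a m‖² = ρ`, with `l = m`: `a k * conj (a m) = ρ u_k = a m * conj (a m) * u_k`, and `a m ≠ 0`.
`unit_of`: `(g u)_k conj ((g u)_l) = ‖g‖² u_k conj u_l = ρ u_k conj u_l = ad l k` (`ρ` is real: `adj_diag_real`).
`unit_reg`: `adjugate ≠ 0` since `a k ≠ 0` for some `k`; then `adj_diag` gives `m` with `rho ≠ 0`.
`unit_exists`: `adj_diag`, `unit_of` with `g = √ρ`.
-/

open scoped ContDiff ComplexConjugate Topology ComplexOrder
open Complex Matrix

namespace Pool.Agent.CYE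

open Pool.Agent.CYF Pool.Agent.CYN

variable {n : ℕ} {X : Type*} [TopologicalSpace X] {ι κ : Type*} {A : Spc (Fin n) X ι κ}

theorem hol_uu [CompactSpace X] [T2Space X] (η : Form A) (i : ι) (m k : Fin n) :
    DifferentiableOn ℂ (uu (η.w i) m k) (Um (η.w i) m (A.c i).target) := by
  refine hol_of_Kf (A.c i).open_target (η.smooth i) (fun _ hz => psd η hz)
    (fun z hz => η.det_eq_zero i z hz) ?_ k
  intro y hy
  have hs : (A.c i).symm y ∈ (A.c i).source := (A.c i).map_target hy.1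
  have hr : A.c i ((A.c i).symm y) = y := (A.c i).right_inv hy.1
  have h := KX_eq η hs (m := m) (by rw [hr]; exact hy.2)
  rw [hr] at h
  rw [← h]
  exact KX_zero η _

private theorem BsA_rank (η : Form A) {i : ι} {z : E n} (hz : z ∈ (A.c i).target) {m : Fin n}
    (hm : rho (η.w i) m z ≠ 0) (k l : Fin n) :
    (lm (η.w i) z).adjugate l k
      = rho (η.w i) m z * uu (η.w i) m k z * conj (uu (η.w i) m l z) :=
  adj_rank (psd η hz) (η.det_eq_zero i z hz) hm k l

private theorem BsA_one {w : E n → ℝ} {z : E n} {m : Fin n} (hm : rho w m z ≠ 0) :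
    uu w m m z = 1 := div_self hm

private theorem BsA_real (η : Form A) {i : ι} {z : E n} (hz : z ∈ (A.c i).target) (m : Fin n) :
    rho (η.w i) m z = ((rho (η.w i) m z).re : ℂ) ∧ 0 ≤ (rho (η.w i) m z).re := by
  have h := adj_diag_real (psd η hz) m
  refine ⟨?_, h.2⟩
  apply Complex.ext
  · simp
  · rw [Complex.ofReal_im]
    exact h.1

theorem unit_eq {η : Form A} {i : ι} {z a : E n} (ha : η.Unit i z a) {m : Fin n}
    (hm : rho (η.w i) m z ≠ 0) :
    a m ≠ 0 ∧ ‖a m‖ ^ 2 = (rho (η.w i) m z).re ∧ a = a m • fun k => uu (η.w i) m k z := by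
  obtain ⟨hz, ha0, hk⟩ := ha
  have h1 : rho (η.w i) m z = a m * conj (a m) := hk m m
  have h2 : a m ≠ 0 := by
    intro h
    rw [h, zero_mul] at h1
    exact hm h1
  have h3 : rho (η.w i) m z = ((‖a m‖ ^ 2 : ℝ) : ℂ) := by
    rw [h1, Complex.mul_conj, Complex.normSq_eq_norm_sq]
  refine ⟨h2, ?_, ?_⟩
  · rw [h3, Complex.ofReal_re]
  · funext k
    have h4 := hk k m
    rw [BsA_rank η hz hm k m, BsA_one hm, map_one, mul_one, h1] at h4
    have h5 : conj (a m) ≠ 0 := (map_ne_zero _).2 h2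
    have h6 : a m * uu (η.w i) m k z * conj (a m) = a k * conj (a m) := by
      rw [← h4]; ring
    exact (mul_right_cancel₀ h5 h6).symm

theorem unit_of {η : Form A} {i : ι} {z : E n} (hz : z ∈ (A.c i).target) {m : Fin n}
    (hm : rho (η.w i) m z ≠ 0) {g : ℂ} (hg : ‖g‖ ^ 2 = (rho (η.w i) m z).re) :
    η.Unit i z (g • fun k => uu (η.w i) m k z) := by
  obtain ⟨h1, h2⟩ := BsA_real η hz m
  have h3 : rho (η.w i) m z = g * conj g := by
    rw [Complex.mul_conj, Complex.normSq_eq_norm_sq, hg]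
    exact h1
  refine ⟨hz, ?_, ?_⟩
  · intro h
    have h4 := congrFun h m
    simp only [Pi.smul_apply, smul_eq_mul, Pi.zero_apply, BsA_one hm, mul_one] at h4
    rw [h4, zero_mul] at h3
    exact hm h3
  · intro k l
    rw [BsA_rank η hz hm k l, h3]
    simp only [Pi.smul_apply, smul_eq_mul, map_mul]
    ring

theorem unit_reg {η : Form A} {i : ι} {z a : E n} (ha : η.Unit i z a) :
    η.Reg i z ∧ ∃ m, rho (η.w i) m z ≠ 0 := by
  obtain ⟨hz, ha0, hk⟩ := ha
  obtain ⟨k, hk0⟩ : ∃ k, a k ≠ 0 := by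
    by_contra hc
    push Not at hc
    exact ha0 (funext hc)
  have h1 : (lm (η.w i) z).adjugate k k ≠ 0 := by
    rw [hk k k]
    exact mul_ne_zero hk0 ((map_ne_zero _).2 hk0)
  exact ⟨⟨hz, fun h => h1 (by rw [h]; rfl)⟩, k, h1⟩

theorem unit_exists {η : Form A} {i : ι} {z : E n} (hz : η.Reg i z) : ∃ a, η.Unit i z a := by
  obtain ⟨m, hm⟩ := adj_diag (psd η hz.1) hz.2
  obtain ⟨h1, h2⟩ := BsA_real η hz.1 m
  refine ⟨_, unit_of hz.1 (m := m) hm (g := (Real.sqrt (rho (η.w i) m z).re : ℂ)) ?_⟩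
  rw [Complex.norm_real, Real.norm_eq_abs, sq_abs, Real.sq_sqrt h2]

end Pool.Agent.CYE
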