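import Pool.Agent.CYE.BsA

/-!
CYE module BsB (size 3): unit vectors of the kernel, part 2.
PROOFS. `unit_ker`: `∑_k a k * LM (η.w i) z k l = 0`: multiply with `conj (a p)`, `a p ≠ 0`: `a k * conj (a p) = adjugate p k`, `adj_row`; then `levi_eq_sum` (as `ker_of` in CYF/Fin.lean).
`ker_unit`: if `b` is in the kernel then `b k = b m * u_k` (`adj_ker`, as `ker_eq` in CYF/Fin.lean), so `b = (b m / a m) • a` (`unit_eq`).
`unit_rot`: `‖v‖² = 1`. `unit_unit`: `ker_unit`, `unit_ker`, compare `‖b p‖² = adjugate p p = ‖a p‖²` for some `p` with `a p ≠ 0`.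
`unit_chg`: `Cc.ad_chg` (CYF/Inv.lean) for `cc_of η i j` (CYN/Lib.lean): `(ad v)_lk = ∑ conj (T l q) ad_qp T k p = (T a)_k conj ((T a)_l)`, `TT_apply`; `fderiv ℂ γ z a ≠ 0` because the matrix
of `fderiv` has determinant of norm `1` (or: if `T a = 0` then `ad v = 0`, contradiction with `Cc.reg_iff`).
-/

open scoped ContDiff ComplexConjugate Topology ComplexOrder
open Complex Matrix

namespace Pool.Agent.CYE

open Pool.Agent.CYF Pool.Agent.CYN

variable {n : ℕ} {X : Type*} [TopologicalSpace X] {ι κ : Type*} {A : Spc (Fin n) X ι κ}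

private theorem BsB_sum (η : Form A) {i : ι} {z : E n} (hz : z ∈ (A.c i).target) (a : E n)
    (ha : η.Ker i z a) (l : Fin n) : ∑ k, a k * LM (η.w i) z k l = 0 := by
  have hw : ContDiffAt ℝ ∞ (η.w i) z :=
    (η.smooth i).contDiffAt ((A.c i).open_target.mem_nhds hz)
  have h := ha (e l)
  rw [levi_eq_sum hw] at h
  rw [← h]
  refine Finset.sum_congr rfl fun k _ => ?_
  rw [Finset.sum_eq_single l]
  · simp [e]
  · intro b _ hb
    simp [e, hb]
  · intro hl
    exact absurd (Finset.mem_univ l) hl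

private theorem BsB_ne {a : E n} (ha : a ≠ 0) : ∃ p, a p ≠ 0 := by
  by_contra h
  push Not at h
  exact ha (funext h)

theorem unit_ker {η : Form A} {i : ι} {z a : E n} (ha : η.Unit i z a) : η.Ker i z a := by
  obtain ⟨hz, ha0, hadj⟩ := ha
  obtain ⟨p, hp⟩ := BsB_ne ha0
  have hd := η.det_eq_zero i z hz
  have hs : ∀ l, ∑ k, a k * LM (η.w i) z k l = 0 := by
    intro l
    have h1 := adj_row hd p l
    have h2 : ∑ k, (lm (η.w i) z).adjugate p k * lm (η.w i) z k l
        = conj (a p) * ∑ k, a k * LM (η.w i) z k l := by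
      rw [Finset.mul_sum]
      refine Finset.sum_congr rfl fun k _ => ?_
      rw [hadj k p]
      have h3 : lm (η.w i) z k l = LM (η.w i) z k l := rfl
      rw [h3]
      ring
    rw [h2] at h1
    exact (mul_eq_zero.1 h1).resolve_left ((map_ne_zero _).2 hp)
  intro b
  have hw : ContDiffAt ℝ ∞ (η.w i) z :=
    (η.smooth i).contDiffAt ((A.c i).open_target.mem_nhds hz)
  rw [levi_eq_sum hw, Finset.sum_comm]
  refine Finset.sum_eq_zero fun l _ => ?_
  have h2 : ∑ k, a k * conj (b l) * LM (η.w i) z k l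
      = conj (b l) * ∑ k, a k * LM (η.w i) z k l := by
    rw [Finset.mul_sum]
    refine Finset.sum_congr rfl fun k _ => ?_
    ring
  rw [h2, hs, mul_zero]

theorem ker_unit {η : Form A} {i : ι} {z a b : E n} (ha : η.Unit i z a) (hb : η.Ker i z b) :
    ∃ c : ℂ, b = c • a := by
  obtain ⟨-, m, hm⟩ := unit_reg ha
  obtain ⟨ham, -, haeq⟩ := unit_eq ha hm
  refine ⟨b m / a m, ?_⟩
  funext k
  have h1 : b k = b m * uu (η.w i) m k z :=
    adj_ker (F := lm (η.w i) z) (η.det_eq_zero i z ha.1) hm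
      (fun l => BsB_sum η ha.1 b hb l) k
  have h2 : a k = a m * uu (η.w i) m k z := congrFun haeq k
  rw [Pi.smul_apply, smul_eq_mul, h2, h1]
  field_simp

private theorem BsB_conj {v : ℂ} (hv : ‖v‖ = 1) : v * conj v = 1 := by
  rw [Complex.mul_conj, Complex.normSq_eq_norm_sq, hv]
  simp

theorem unit_rot {η : Form A} {i : ι} {z a : E n} (ha : η.Unit i z a) {v : ℂ} (hv : ‖v‖ = 1) :
    η.Unit i z (v • a) := by
  have hv0 : v ≠ 0 := by
    rintro rfl
    simp at hv
  refine ⟨ha.1, smul_ne_zero hv0 ha.2.1, fun k l => ?_⟩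
  rw [ha.2.2 k l]
  simp only [Pi.smul_apply, smul_eq_mul, map_mul]
  linear_combination (-(a k * conj (a l))) * BsB_conj hv

theorem unit_unit {η : Form A} {i : ι} {z a b : E n} (ha : η.Unit i z a) (hb : η.Unit i z b) :
    ∃ v : ℂ, ‖v‖ = 1 ∧ b = v • a := by
  obtain ⟨c, rfl⟩ := ker_unit ha (unit_ker hb)
  refine ⟨c, ?_, rfl⟩
  obtain ⟨p, hp⟩ := BsB_ne ha.2.1
  have h1 := ha.2.2 p p
  have h2 := hb.2.2 p p
  rw [h1] at h2
  simp only [Pi.smul_apply, smul_eq_mul, map_mul] at h2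
  have h3 : a p * conj (a p) ≠ 0 := mul_ne_zero hp ((map_ne_zero _).2 hp)
  have h4 : c * conj c = 1 := by
    have h5 : (a p * conj (a p)) * (c * conj c) = (a p * conj (a p)) * 1 := by
      rw [mul_one]
      conv_rhs => rw [h2]
      ring
    exact mul_left_cancel₀ h3 h5
  rw [Complex.mul_conj, Complex.normSq_eq_norm_sq] at h4
  have h6 : ‖c‖ ^ 2 = 1 := by exact_mod_cast h4
  exact (pow_eq_one_iff_of_nonneg (norm_nonneg _) two_ne_zero).1 h6

private theorem BsB_chg {η : Form A} {i j : ι} {z a : E n} (hz : z ∈ A.O i j)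
    (ha : η.Unit i z a) (k l : Fin n) :
    (lm (η.w j) (A.γ i j z)).adjugate l k
      = fderiv ℂ (A.γ i j) z a k * conj (fderiv ℂ (A.γ i j) z a l) := by
  have h1 := (cc_of η i j).ad_chg hz
  have h2 : (lm (η.w j) (A.γ i j z)).adjugate l k = ad (η.w j) (A.γ i j z) l k := rfl
  rw [h2, h1, Matrix.mul_apply, TT_apply, TT_apply, map_sum, Finset.sum_mul_sum]
  refine Finset.sum_congr rfl fun q _ => ?_
  rw [Matrix.mul_apply, Finset.sum_mul]
  refine Finset.sum_congr rfl fun p _ => ?_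
  have h3 : ad (η.w i) z p q = a q * conj (a p) := ha.2.2 q p
  rw [Matrix.transpose_apply, cj_apply, Matrix.of_apply, Matrix.of_apply, h3, map_mul]
  ring

theorem unit_chg {η : Form A} {i j : ι} {z a : E n} (hz : z ∈ A.O i j) (ha : η.Unit i z a) :
    η.Unit j (A.γ i j z) (fderiv ℂ (A.γ i j) z a) := by
  refine ⟨(A.c j).map_source hz.2, fun h0 => ?_, fun k l => BsB_chg hz ha k l⟩
  have h1 : ad (η.w j) (A.γ i j z) = 0 := by
    ext l k
    have h2 := BsB_chg hz ha k l
    rw [h0] at h2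
    have h3 : ad (η.w j) (A.γ i j z) l k = (lm (η.w j) (A.γ i j z)).adjugate l k := rfl
    rw [h3, h2]
    simp
  have h4 := ((cc_of η i j).reg_iff hz).1 h1
  obtain ⟨p, hp⟩ := BsB_ne ha.2.1
  have h5 : ad (η.w i) z p p = a p * conj (a p) := ha.2.2 p p
  rw [h4] at h5
  exact mul_ne_zero hp ((map_ne_zero _).2 hp) h5.symm

end Pool.Agent.CYE
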