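import Mathlib

/-!
CYE module Ext (size 5): analytic continuation from a disc to the plane, abstract form.
PROOF. Let `S = {R > 0 | ∃ f, good f (ball 0 R) ∧ f =ᶠ[𝓝 0] f0}`; `r₀ ∈ S`; `S` is closed under smaller radii (`mono`). Two functions `f, g` that are
good on `ball 0 R` and both `=ᶠ f0` at `0` agree on `ball 0 R` (`idn`, balls are convex).
(1) If `S` contains all `R' < R` (`R > 0`) then `R ∈ S`: choose `f_q` for every `q ∈ (0, R)` and put `f t = f_{(|t| + R) / 2} t` for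
`|t| < R`. Near `t₀` it is equal to `f_{q}` with `q = (|t₀| + R)/2 + small` on the ball `ball 0 q`, so `good f (ball t₀ r)` for small `r` (`mono`, `congr`); `loc`.
(2) If `R ∈ S` then `R + τ'/4 ∈ S` where `τ' = min τ R` and `τ` is from `ext R`: let `f` be good on `ball 0 R`; choose `g_p` for `p ∈ ball 0 R` from `ext`
(good on `ball p τ`, hence on `ball p τ'`, `=ᶠ f` at `p`). (2a) `g_p = f` on `ball p τ' ∩ ball 0 R` (convex, contains `p`: `idn`). (2b) if `q ∈ ball 0 R ∩ ball p τ'` then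
`g_p = g_q` on `ball p τ' ∩ ball q τ'` (convex, both are `f` near `q`: `idn` at `q`). For `t` with `R ≤ |t| < R + τ'/4` put `p(t) = (1 - τ'/(2 |t|)) t`: `|p(t)| = |t| - τ'/2 < R`
and `|t - p(t)| = τ'/2 < τ'`. Define `F t = f t` if `|t| < R`, `F t = g_{p(t)} t` otherwise. At `t₀` with `|t₀| < R`: `F = f` near `t₀`. At `t₀` with
`R ≤ |t₀| < R + τ'/4`: for `t` close to `t₀`, `F t = g_{p(t₀)} t`: if `|t| < R` by (2a) (`t ∈ ball (p t₀) τ'`), otherwise by (2b) with `q = p(t)`, `p = p(t₀)` (`p(·)` is continuous at `t₀`).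
So `F` is good near every point of `ball 0 (R + τ'/4)`: `loc`. `F = f` near `0`.
(3) `S` is not bounded above: otherwise let `R = sSup S > 0`; by (1) (and closure under smaller radii) `R ∈ S`, by (2) a contradiction. So `S = (0, ∞)`.
(4) Choose `f_q` for all `q > 0`, `F t = f_{|t| + 1} t`; near `t₀` it is `f_{|t₀| + 2}`, so `good F univ` by `loc`; `F =ᶠ f0` at `0`.
-/

open scoped Topology
open Set Metric

namespace Pool.Agent.CYE

theorem ext_plane {Y : Type*} (good : (ℂ → Y) → Set ℂ → Prop)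
    (mono : ∀ (f : ℂ → Y) (V W : Set ℂ), good f W → V ⊆ W → good f V)
    (congr : ∀ (f g : ℂ → Y) (W : Set ℂ), IsOpen W → good f W → (∀ t ∈ W, f t = g t) → good g W)
    (loc : ∀ (f : ℂ → Y) (W : Set ℂ), (∀ t ∈ W, ∃ r > 0, good f (ball t r)) → good f W)
    (idn : ∀ (f g : ℂ → Y) (W : Set ℂ), IsOpen W → Convex ℝ W → good f W → good g W →
      ∀ t₀ ∈ W, f =ᶠ[𝓝 t₀] g → ∀ t ∈ W, f t = g t)
    {f₀ : ℂ → Y} {r₀ : ℝ} (hr₀ : 0 < r₀) (h₀ : good f₀ (ball 0 r₀))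
    (ext : ∀ R : ℝ, 0 < R → ∃ τ > 0, ∀ f : ℂ → Y, good f (ball 0 R) → f =ᶠ[𝓝 0] f₀ →
      ∀ p ∈ ball (0 : ℂ) R, ∃ g : ℂ → Y, good g (ball p τ) ∧ g =ᶠ[𝓝 p] f) :
    ∃ F : ℂ → Y, good F univ ∧ F =ᶠ[𝓝 0] f₀ := by
  classical
  have uniq : ∀ R : ℝ, 0 < R → ∀ f g : ℂ → Y, good f (ball 0 R) → good g (ball 0 R) →
      f =ᶠ[𝓝 0] f₀ → g =ᶠ[𝓝 0] f₀ → ∀ t ∈ ball (0 : ℂ) R, f t = g t :=
    fun R hR f g hf hg h1 h2 =>
      idn f g _ isOpen_ball (convex_ball 0 R) hf hg 0 (mem_ball_self hR) (h1.trans h2.symm)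
  have Smono : ∀ R R' : ℝ, R' ≤ R → (∃ f, good f (ball 0 R) ∧ f =ᶠ[𝓝 0] f₀) →
      ∃ f, good f (ball 0 R') ∧ f =ᶠ[𝓝 0] f₀ := by
    rintro R R' h ⟨f, hf, hf'⟩
    exact ⟨f, mono f _ _ hf (ball_subset_ball h), hf'⟩
  have glue : ∀ (W : Set ℂ) (q : ℂ → ℝ), IsOpen W → (0 : ℂ) ∈ W →
      (∀ t ∈ W, ‖t‖ < q t ∧ ∃ f, good f (ball 0 (q t)) ∧ f =ᶠ[𝓝 0] f₀) →
      ∃ F, good F W ∧ F =ᶠ[𝓝 0] f₀ := by
    intro W q hW h0 hq
    have hch : ∀ R : ℝ, ∃ f, (∃ f, good f (ball 0 R) ∧ f =ᶠ[𝓝 0] f₀) →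
        good f (ball 0 R) ∧ f =ᶠ[𝓝 0] f₀ := by
      intro R
      by_cases h : ∃ f, good f (ball 0 R) ∧ f =ᶠ[𝓝 0] f₀
      · obtain ⟨f, hf⟩ := h
        exact ⟨f, fun _ => hf⟩
      · exact ⟨f₀, fun h' => absurd h' h⟩
    choose f hf using hch
    have key : ∀ t ∈ W, ∃ r > 0, ball t r ⊆ ball 0 (q t) ∧
        ∀ s ∈ ball t r, f (q t) s = f (q s) s := by
      intro t ht
      obtain ⟨r1, hr1, hr1W⟩ := Metric.isOpen_iff.1 hW t ht
      have hqt := (hq t ht).1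
      refine ⟨min r1 (q t - ‖t‖), lt_min hr1 (sub_pos.2 hqt), ?_, ?_⟩
      · intro s hs
        rw [mem_ball_zero_iff]
        have h1 : dist s t < q t - ‖t‖ := lt_of_lt_of_le (mem_ball.1 hs) (min_le_right _ _)
        have h2 : ‖s‖ ≤ ‖t‖ + dist s t := by
          rw [dist_eq_norm]
          calc ‖s‖ = ‖t + (s - t)‖ := by rw [add_sub_cancel]
            _ ≤ _ := norm_add_le _ _
        linarith
      · intro s hs
        have hsW : s ∈ W := hr1W (ball_subset_ball (min_le_left _ _) hs)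
        have h1 : dist s t < q t - ‖t‖ := lt_of_lt_of_le (mem_ball.1 hs) (min_le_right _ _)
        have h2 : ‖s‖ ≤ ‖t‖ + dist s t := by
          rw [dist_eq_norm]
          calc ‖s‖ = ‖t + (s - t)‖ := by rw [add_sub_cancel]
            _ ≤ _ := norm_add_le _ _
        have h3 : ‖s‖ < q t := by linarith
        have h4 := (hq s hsW).1
        have h5 : ‖s‖ < min (q t) (q s) := lt_min h3 h4
        have h6 := hf (q t) (hq t ht).2
        have h7 := hf (q s) (hq s hsW).2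
        exact uniq (min (q t) (q s)) (lt_of_le_of_lt (norm_nonneg s) h5) _ _
          (mono _ _ _ h6.1 (ball_subset_ball (min_le_left _ _)))
          (mono _ _ _ h7.1 (ball_subset_ball (min_le_right _ _))) h6.2 h7.2 s
          (mem_ball_zero_iff.2 h5)
    refine ⟨fun t => f (q t) t, loc _ _ ?_, ?_⟩
    · intro t ht
      obtain ⟨r, hr, h1, h2⟩ := key t ht
      exact ⟨r, hr, congr (f (q t)) _ _ isOpen_ball
        (mono _ _ _ (hf (q t) (hq t ht).2).1 h1) h2⟩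
    · obtain ⟨r, hr, h1, h2⟩ := key 0 h0
      have h3 : (fun t => f (q t) t) =ᶠ[𝓝 0] f (q 0) := by
        filter_upwards [ball_mem_nhds (0 : ℂ) hr] with s hs
        exact (h2 s hs).symm
      exact h3.trans (hf (q 0) (hq 0 h0).2).2
  have step1 : ∀ R : ℝ, 0 < R → (∀ R', 0 < R' → R' < R →
      ∃ f, good f (ball 0 R') ∧ f =ᶠ[𝓝 0] f₀) → ∃ f, good f (ball 0 R) ∧ f =ᶠ[𝓝 0] f₀ := by
    intro R hR h
    refine glue (ball 0 R) (fun t => (‖t‖ + R) / 2) isOpen_ball (mem_ball_self hR) ?_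
    intro t ht
    have ht' := mem_ball_zero_iff.1 ht
    have h0 := norm_nonneg t
    exact ⟨by linarith, h _ (by linarith) (by linarith)⟩
  have step2 : ∀ R : ℝ, 0 < R → (∃ f, good f (ball 0 R) ∧ f =ᶠ[𝓝 0] f₀) →
      ∃ R' > R, ∃ f, good f (ball 0 R') ∧ f =ᶠ[𝓝 0] f₀ := by
    rintro R hR ⟨f, hf, hf0⟩
    obtain ⟨τ, hτ, hext⟩ := ext R hR
    have hext' := hext f hf hf0
    obtain ⟨τ', hτ'0, hτ'τ, hτ'R⟩ : ∃ τ' : ℝ, 0 < τ' ∧ τ' ≤ τ ∧ τ' ≤ R :=
      ⟨min τ R, lt_min hτ hR, min_le_left _ _, min_le_right _ _⟩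
    have hch : ∀ p : ℂ, ∃ g : ℂ → Y, p ∈ ball (0 : ℂ) R →
        good g (ball p τ') ∧ g =ᶠ[𝓝 p] f := by
      intro p
      by_cases h : p ∈ ball (0 : ℂ) R
      · obtain ⟨g, hg, hg'⟩ := hext' p h
        exact ⟨g, fun _ => ⟨mono _ _ _ hg (ball_subset_ball hτ'τ), hg'⟩⟩
      · exact ⟨f, fun h' => absurd h' h⟩
    choose g hg using hch
    have ha : ∀ p ∈ ball (0 : ℂ) R, ∀ t ∈ ball p τ' ∩ ball (0 : ℂ) R, g p t = f t := by
      intro p hp t ht
      exact idn (g p) f (ball p τ' ∩ ball 0 R) (isOpen_ball.inter isOpen_ball)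
        ((convex_ball _ _).inter (convex_ball _ _))
        (mono _ _ _ (hg p hp).1 inter_subset_left) (mono _ _ _ hf inter_subset_right) p
        ⟨mem_ball_self hτ'0, hp⟩ (hg p hp).2 t ht
    have hb : ∀ p ∈ ball (0 : ℂ) R, ∀ q ∈ ball (0 : ℂ) R, q ∈ ball p τ' →
        ∀ t ∈ ball p τ' ∩ ball q τ', g p t = g q t := by
      intro p hp q hq hqp t ht
      refine idn (g p) (g q) (ball p τ' ∩ ball q τ') (isOpen_ball.inter isOpen_ball)
        ((convex_ball _ _).inter (convex_ball _ _))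
        (mono _ _ _ (hg p hp).1 inter_subset_left) (mono _ _ _ (hg q hq).1 inter_subset_right) q
        ⟨hqp, mem_ball_self hτ'0⟩ ?_ t ht
      have h1 : g p =ᶠ[𝓝 q] f := by
        filter_upwards [(isOpen_ball.inter isOpen_ball).mem_nhds
          (show q ∈ ball p τ' ∩ ball (0 : ℂ) R from ⟨hqp, hq⟩)] with s hs
        exact ha p hp s hs
      exact h1.trans (hg q hq).2.symm
    let pp : ℂ → ℂ := fun t => (1 - ((τ' / (2 * ‖t‖) : ℝ) : ℂ)) * t
    have hpp : ∀ t : ℂ, R ≤ ‖t‖ → ‖t‖ < R + τ' / 4 →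
        pp t ∈ ball (0 : ℂ) R ∧ dist t (pp t) = τ' / 2 := by
      intro t h1 h2
      have ht0 : 0 < ‖t‖ := lt_of_lt_of_le hR h1
      have h3 : (1 - ((τ' / (2 * ‖t‖) : ℝ) : ℂ)) = ((1 - τ' / (2 * ‖t‖) : ℝ) : ℂ) := by
        push_cast
        ring
      have h4 : 0 ≤ 1 - τ' / (2 * ‖t‖) := by
        rw [sub_nonneg, div_le_one (by positivity)]
        linarith
      constructor
      · rw [mem_ball_zero_iff]
        show ‖(1 - ((τ' / (2 * ‖t‖) : ℝ) : ℂ)) * t‖ < R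
        rw [h3, norm_mul, Complex.norm_real, Real.norm_of_nonneg h4]
        have h5 : (1 - τ' / (2 * ‖t‖)) * ‖t‖ = ‖t‖ - τ' / 2 := by
          field_simp
        rw [h5]
        linarith
      · rw [dist_eq_norm]
        show ‖t - (1 - ((τ' / (2 * ‖t‖) : ℝ) : ℂ)) * t‖ = τ' / 2
        have h5 : t - (1 - ((τ' / (2 * ‖t‖) : ℝ) : ℂ)) * t = ((τ' / (2 * ‖t‖) : ℝ) : ℂ) * t := by
          ring
        rw [h5, norm_mul, Complex.norm_real, Real.norm_of_nonneg (by positivity)]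
        field_simp
    let F : ℂ → Y := fun t => if ‖t‖ < R then f t else g (pp t) t
    refine ⟨R + τ' / 4, by linarith, F, loc _ _ ?_, ?_⟩
    · intro t₀ ht₀
      have ht₀' := mem_ball_zero_iff.1 ht₀
      by_cases hlt : ‖t₀‖ < R
      · refine ⟨R - ‖t₀‖, sub_pos.2 hlt, ?_⟩
        have hsub : ball t₀ (R - ‖t₀‖) ⊆ ball 0 R := by
          intro s hs
          rw [mem_ball_zero_iff]
          have h1 := mem_ball.1 hs
          have h2 : ‖s‖ ≤ ‖t₀‖ + dist s t₀ := by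
            rw [dist_eq_norm]
            calc ‖s‖ = ‖t₀ + (s - t₀)‖ := by rw [add_sub_cancel]
              _ ≤ _ := norm_add_le _ _
          linarith
        refine congr f F _ isOpen_ball (mono _ _ _ hf hsub) ?_
        intro s hs
        have h3 := mem_ball_zero_iff.1 (hsub hs)
        show f s = if ‖s‖ < R then f s else g (pp s) s
        rw [if_pos h3]
      · have hle : R ≤ ‖t₀‖ := not_lt.1 hlt
        obtain ⟨hp, hd⟩ := hpp t₀ hle ht₀'
        have ht₀0 : 0 < ‖t₀‖ := lt_of_lt_of_le hR hle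
        have hcont : ContinuousAt pp t₀ := by
          have h1 : ContinuousAt (fun t : ℂ => τ' / (2 * ‖t‖)) t₀ :=
            continuousAt_const.div (continuousAt_const.mul continuous_norm.continuousAt)
              (by positivity)
          have h2 : ContinuousAt (fun t : ℂ => ((τ' / (2 * ‖t‖) : ℝ) : ℂ)) t₀ :=
            Complex.continuous_ofReal.continuousAt.comp h1
          exact (continuousAt_const.sub h2).mul continuousAt_id
        have hmem : t₀ ∈ ball (pp t₀) τ' := by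
          rw [mem_ball, hd]
          linarith
        have e1 : ∀ᶠ t in 𝓝 t₀, t ∈ ball (pp t₀) τ' := isOpen_ball.mem_nhds hmem
        have e2 : ∀ᶠ t in 𝓝 t₀, t ∈ ball (0 : ℂ) (R + τ' / 4) := isOpen_ball.mem_nhds ht₀
        have e3 : ∀ᶠ t in 𝓝 t₀, pp t ∈ ball (pp t₀) τ' :=
          hcont (ball_mem_nhds _ hτ'0)
        obtain ⟨r, hr, hball⟩ := Metric.eventually_nhds_iff_ball.1 (e1.and (e2.and e3))
        refine ⟨r, hr, ?_⟩
        refine congr (g (pp t₀)) F _ isOpen_ball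
          (mono _ _ _ (hg (pp t₀) hp).1 fun s hs => (hball s hs).1) ?_
        intro s hs
        obtain ⟨a1, a2, a3⟩ := hball s hs
        show g (pp t₀) s = if ‖s‖ < R then f s else g (pp s) s
        by_cases hs' : ‖s‖ < R
        · rw [if_pos hs']
          exact ha (pp t₀) hp s ⟨a1, mem_ball_zero_iff.2 hs'⟩
        · rw [if_neg hs']
          obtain ⟨hps, hds⟩ := hpp s (not_lt.1 hs') (mem_ball_zero_iff.1 a2)
          refine hb (pp t₀) hp (pp s) hps a3 s ⟨a1, ?_⟩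
          rw [mem_ball, hds]
          linarith
    · have h1 : F =ᶠ[𝓝 0] f := by
        filter_upwards [ball_mem_nhds (0 : ℂ) hR] with s hs
        show (if ‖s‖ < R then f s else g (pp s) s) = f s
        rw [if_pos (mem_ball_zero_iff.1 hs)]
      exact h1.trans hf0
  have hall : ∀ R : ℝ, 0 < R → ∃ f, good f (ball 0 R) ∧ f =ᶠ[𝓝 0] f₀ := by
    by_contra hcon
    push Not at hcon
    obtain ⟨R, hR, hRS⟩ := hcon
    let T : Set ℝ := {r | 0 < r ∧ ∃ f, good f (ball 0 r) ∧ f =ᶠ[𝓝 0] f₀}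
    have hr₀T : r₀ ∈ T := ⟨hr₀, f₀, h₀, Filter.EventuallyEq.refl _ _⟩
    have hbdd : BddAbove T := by
      refine ⟨R, ?_⟩
      rintro r ⟨hr, hrS⟩
      by_contra hlt
      push Not at hlt
      obtain ⟨f, hf, hf'⟩ := Smono r R hlt.le hrS
      exact hRS f hf hf'
    have hR1 : r₀ ≤ sSup T := le_csSup hbdd hr₀T
    have hS1 : ∃ f, good f (ball 0 (sSup T)) ∧ f =ᶠ[𝓝 0] f₀ := by
      refine step1 _ (lt_of_lt_of_le hr₀ hR1) ?_
      intro R' hR' hlt
      obtain ⟨r, hrT, hr⟩ := exists_lt_of_lt_csSup ⟨r₀, hr₀T⟩ hlt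
      exact Smono r R' hr.le hrT.2
    obtain ⟨R2, hR2, hS2⟩ := step2 _ (lt_of_lt_of_le hr₀ hR1) hS1
    have h3 : R2 ∈ T := ⟨lt_trans (lt_of_lt_of_le hr₀ hR1) hR2, hS2⟩
    exact absurd (le_csSup hbdd h3) (not_le.2 hR2)
  refine glue univ (fun t => ‖t‖ + 1) isOpen_univ (mem_univ _) ?_
  intro t _
  exact ⟨by linarith, hall _ (by linarith [norm_nonneg t])⟩

end Pool.Agent.CYE
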