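import Pool.Agent.CYE.Lfb

/-!
CYE module Idn (size 3): the identity theorem for leaf maps.
PROOF. `S = {t ∈ W | Φ =ᶠ[𝓝 t] Ψ}` is open, contains `t₀`. It is closed in `W`: let `t ∈ W` be in the closure of `S`. `Φ t = Ψ t` (continuity, `X` is Hausdorff, `leaf_cont`; `Φ = Ψ` on `S`). Take a chart `j` at `Φ t`
and `leaf_chart` for `Φ` and for `Ψ`: on a ball around `t` both `A.c j ∘ Φ`, `A.c j ∘ Ψ` are holomorphic, and they agree frequently near `t`, even on the open set `S ∩ ball` whose closure contains `t`;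
so they agree near `t` (`AnalyticAt.frequently_eq_iff_eventually_eq` if `t` is a limit of points `≠ t`; or choose a point `t' ∈ S ∩ ball` and use
`AnalyticOnNhd.eqOn_of_preconnected_of_eventuallyEq` on the ball), and `(A.c j)` is injective on its source: `Φ = Ψ` near `t`. `W` is preconnected: `IsPreconnected.subset_of_closure_inter_subset` (or
`isPreconnected_iff_subset_of_disjoint`).
-/

open scoped ContDiff ComplexConjugate Topology ComplexOrder
open Complex Matrix Set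

namespace Pool.Agent.CYE

open Pool.Agent.CYF Pool.Agent.CYN

variable {n : ℕ} {X : Type*} [TopologicalSpace X] {ι κ : Type*} {A : Spc (Fin n) X ι κ}
  {η : Form A} {W : Set ℂ} {Φ Ψ : ℂ → X}

theorem leaf_idn [T2Space X] (hW : IsOpen W) (hc : IsPreconnected W) (h1 : η.IsLeaf W Φ)
    (h2 : η.IsLeaf W Ψ) {t₀ : ℂ} (h0 : t₀ ∈ W) (he : Φ =ᶠ[𝓝 t₀] Ψ) : ∀ t ∈ W, Φ t = Ψ t := by
  have hu : IsOpen {t : ℂ | Φ =ᶠ[𝓝 t] Ψ} := isOpen_setOf_eventually_nhds
  have key : W ⊆ {t : ℂ | Φ =ᶠ[𝓝 t] Ψ} := by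
    refine hc.subset_of_closure_inter_subset hu ⟨t₀, h0, he⟩ ?_
    rintro t ⟨htc, htW⟩
    have hne : (𝓝[{t : ℂ | Φ =ᶠ[𝓝 t] Ψ}] t).NeBot := mem_closure_iff_nhdsWithin_neBot.mp htc
    have hev : Φ =ᶠ[𝓝[{t : ℂ | Φ =ᶠ[𝓝 t] Ψ}] t] Ψ := by
      filter_upwards [self_mem_nhdsWithin] with s hs
      exact Filter.EventuallyEq.eq_of_nhds hs
    have heq : Φ t = Ψ t :=
      tendsto_nhds_unique_of_eventuallyEq
        ((leaf_cont hW h1 htW).continuousWithinAt (s := {t : ℂ | Φ =ᶠ[𝓝 t] Ψ}))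
        ((leaf_cont hW h2 htW).continuousWithinAt (s := {t : ℂ | Φ =ᶠ[𝓝 t] Ψ})) hev
    obtain ⟨i, O, hO, htO, hmO, _, _⟩ := h1 t htW
    have hi : Φ t ∈ (A.c i).source := hmO htO
    obtain ⟨O1, hO1, ht1, hO1W, hm1, hd1, _⟩ := leaf_chart hW h1 htW hi
    have hi2 : Ψ t ∈ (A.c i).source := heq ▸ hi
    obtain ⟨O2, hO2, ht2, hO2W, hm2, hd2, _⟩ := leaf_chart hW h2 htW hi2
    obtain ⟨r, hr, hball⟩ := Metric.isOpen_iff.mp (hO1.inter hO2) t ⟨ht1, ht2⟩
    have hb1 : Metric.ball t r ⊆ O1 := fun s hs => (hball hs).1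
    have hb2 : Metric.ball t r ⊆ O2 := fun s hs => (hball hs).2
    have ha1 : AnalyticOnNhd ℂ (fun s => A.c i (Φ s)) (Metric.ball t r) :=
      (hd1.mono hb1).analyticOnNhd Metric.isOpen_ball
    have ha2 : AnalyticOnNhd ℂ (fun s => A.c i (Ψ s)) (Metric.ball t r) :=
      (hd2.mono hb2).analyticOnNhd Metric.isOpen_ball
    obtain ⟨t', ht'b, ht'u⟩ := mem_closure_iff.mp htc (Metric.ball t r) Metric.isOpen_ball
      (Metric.mem_ball_self hr)
    have hfg : (fun s => A.c i (Φ s)) =ᶠ[𝓝 t'] (fun s => A.c i (Ψ s)) := by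
      have h3 : Φ =ᶠ[𝓝 t'] Ψ := ht'u
      filter_upwards [h3] with s hs
      rw [hs]
    have hE := ha1.eqOn_of_preconnected_of_eventuallyEq ha2
      (convex_ball t r).isPreconnected ht'b hfg
    show Φ =ᶠ[𝓝 t] Ψ
    filter_upwards [Metric.ball_mem_nhds t hr] with s hs
    exact (A.c i).injOn (hm1 (hb1 hs)) (hm2 (hb2 hs)) (hE hs)
  intro t ht
  have h3 : Φ =ᶠ[𝓝 t] Ψ := key ht
  exact h3.eq_of_nhds

end Pool.Agent.CYE
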