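import Mathlib

/-!
CYE module OdU (size 3): local uniqueness for a differential equation in complex time.
PROOF. `hC` gives `ρ > 0` and `L` such that `F` is `L`-Lipschitz on `ball (y t₁) ρ ⊆ Ω` (`ContDiffAt.exists_lipschitzOnWith`). `y, y'` are continuous at `t₁`: choose `r > 0` such that on `ball t₁ r`
both have values in `ball (y t₁) ρ` and both derivatives are as in the hypotheses. Let `t ∈ ball t₁ r`, `v = t - t₁`. The curves `s ↦ y (t₁ + s • v)`,
`s ↦ y' (t₁ + s • v)` on `[0, 1]` are solutions of `c' = v • F c` (`HasDerivAt.scomp` / `HasDerivAt.comp_ofReal` for the affine map), with the same value at `0`, values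
in `ball (y t₁) ρ` where `v • F` is `‖v‖ L`-Lipschitz: `ODE_solution_unique_of_mem_Icc_right` (Mathlib/Analysis/ODE/Gronwall.lean or ExistUnique.lean). At `s = 1`: `y t = y' t`.
-/

open scoped Topology ContDiff
open Set Metric

namespace Pool.Agent.CYE

theorem ode_unique {V : Type*} [NormedAddCommGroup V] [NormedSpace ℂ V]
    {Ω : Set V} (hΩ : IsOpen Ω) {F : V → V} (hC : ContDiffOn ℝ ∞ F Ω) {y y' : ℂ → V} {t₁ : ℂ}
    (h1 : ∀ᶠ t in 𝓝 t₁, y t ∈ Ω ∧ HasDerivAt y (F (y t)) t)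
    (h2 : ∀ᶠ t in 𝓝 t₁, y' t ∈ Ω ∧ HasDerivAt y' (F (y' t)) t)
    (h : y t₁ = y' t₁) : y =ᶠ[𝓝 t₁] y' := by
  have ht1 := h1.self_of_nhds
  have hFat : ContDiffAt ℝ 1 F (y t₁) :=
    ((hC.contDiffAt (hΩ.mem_nhds ht1.1)).of_le (by exact_mod_cast le_top))
  obtain ⟨K, T, hT, hLip⟩ := hFat.exists_lipschitzOnWith
  have hcy : ContinuousAt y t₁ := ht1.2.continuousAt
  have ht1' := h2.self_of_nhds
  have hcy' : ContinuousAt y' t₁ := ht1'.2.continuousAt
  have e1 : ∀ᶠ t in 𝓝 t₁, y t ∈ T := hcy.eventually hT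
  have e2 : ∀ᶠ t in 𝓝 t₁, y' t ∈ T := by
    refine hcy'.eventually ?_
    rw [← h]
    exact hT
  obtain ⟨r, hr, hball⟩ := Metric.eventually_nhds_iff_ball.mp (((h1.and h2).and e1).and e2)
  filter_upwards [Metric.ball_mem_nhds t₁ hr] with t ht
  set v : ℂ := t - t₁ with hv
  have hmem : ∀ s : ℝ, s ∈ Set.Icc (0 : ℝ) 1 → t₁ + (s : ℂ) * v ∈ Metric.ball t₁ r := by
    intro s hs
    rw [Metric.mem_ball, dist_eq_norm] at ht ⊢
    have h3 : t₁ + (s : ℂ) * v - t₁ = (s : ℂ) * v := by ring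
    rw [h3, norm_mul, Complex.norm_real, Real.norm_eq_abs, abs_of_nonneg hs.1]
    calc s * ‖v‖ ≤ 1 * ‖v‖ := mul_le_mul_of_nonneg_right hs.2 (norm_nonneg _)
      _ < r := by rw [one_mul]; exact ht
  have hline : ∀ s : ℝ, HasDerivAt (fun s : ℝ => t₁ + (s : ℂ) * v) v s := by
    intro s
    have h3 : HasDerivAt (fun s : ℝ => (s : ℂ)) 1 s := Complex.ofRealCLM.hasDerivAt
    have h4 := (h3.mul_const v).const_add t₁
    simpa using h4
  have hder : ∀ (c : ℂ → V), (∀ z ∈ Metric.ball t₁ r, HasDerivAt c (F (c z)) z) →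
      ∀ s ∈ Set.Icc (0 : ℝ) 1, HasDerivAt (fun s : ℝ => c (t₁ + (s : ℂ) * v)) (v • F (c (t₁ + (s : ℂ) * v))) s := by
    intro c hc s hs
    exact (hc _ (hmem s hs)).scomp s (hline s)
  have hlip : ∀ s ∈ Set.Ico (0 : ℝ) 1, LipschitzOnWith (‖v‖₊ * K) (fun x => v • F x) T := by
    intro s _
    rw [lipschitzOnWith_iff_norm_sub_le] at hLip ⊢
    intro a ha b hb
    rw [← smul_sub, norm_smul]
    push_cast
    rw [mul_assoc]
    exact mul_le_mul_of_nonneg_left (hLip ha hb) (norm_nonneg _)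
  have hu := ODE_solution_unique_of_mem_Icc_right (v := fun _ x => v • F x) (s := fun _ => T)
    (K := ‖v‖₊ * K) (f := fun s : ℝ => y (t₁ + (s : ℂ) * v)) (g := fun s : ℝ => y' (t₁ + (s : ℂ) * v))
    (a := 0) (b := 1) hlip
    (fun s hs => ((hder y (fun z hz => (hball z hz).1.1.1.2) s hs).continuousAt).continuousWithinAt)
    (fun s hs => (hder y (fun z hz => (hball z hz).1.1.1.2) s ⟨hs.1, hs.2.le⟩).hasDerivWithinAt)
    (fun s hs => (hball _ (hmem s ⟨hs.1, hs.2.le⟩)).1.2)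
    (fun s hs => ((hder y' (fun z hz => (hball z hz).1.1.2.2) s hs).continuousAt).continuousWithinAt)
    (fun s hs => (hder y' (fun z hz => (hball z hz).1.1.2.2) s ⟨hs.1, hs.2.le⟩).hasDerivWithinAt)
    (fun s hs => (hball _ (hmem s ⟨hs.1, hs.2.le⟩)).2)
    (by simpa using h)
  have h5 := hu (Set.right_mem_Icc.mpr zero_le_one)
  simp only [Complex.ofReal_one, one_mul] at h5
  have h6 : t₁ + v = t := by rw [hv]; ring
  rw [h6] at h5
  exact h5

end Pool.Agent.CYE
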