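import Mathlib

/-!
CYE module Ode (size 5): solutions of a holomorphic differential equation in complex time, with a uniform radius.
PROOF. Local form: for `y₀ ∈ Ω` there are `ρ > 0`, `M, L ≥ 0` with `closedBall y₀ (2 ρ) ⊆ Ω`, `‖F‖ ≤ M` there and `F` `L`-Lipschitz there
(`hC`: `ContDiffAt.exists_lipschitzOnWith` at `y₀`; continuity at `y₀` gives the bound). Put `τ = min (ρ / (M + 1)) (1 / (2 (L + 1)))`. Let `y₁ ∈ closedBall y₀ ρ`, `t₁ : ℂ`, `B = ball t₁ τ`. Picard iteration: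
`Y 0 = fun _ => y₁`; `Y (j + 1)` is a primitive of `F ∘ Y j` on `B` with `Y (j + 1) t₁ = y₁` (`DifferentiableOn.isExactOn_ball`, `IsExactOn.with_val_at`; `F ∘ Y j` is
holomorphic on `B` since `Y j` maps `B` to `closedBall y₀ (2 ρ) ⊆ Ω`). By the mean value inequality on the convex set `B`
(`Convex.norm_image_sub_le_of_norm_hasDerivWithin_le` or `Convex.norm_image_sub_le_of_norm_deriv_le`): `‖Y (j+1) t - y₁‖ ≤ M ‖t - t₁‖ ≤ ρ`, so `Y (j+1)` maps `B` to `closedBall y₀ (2 ρ)`; and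
`‖Y (j+1) t - Y j t‖ ≤ (1/2)^j ρ` on `B` by induction: the derivative of `Y (j+2) - Y (j+1)` is `F ∘ Y (j+1) - F ∘ Y j`, of norm
`≤ L (1/2)^j ρ`, and `L τ ≤ 1/2`. So `Y j` converges uniformly on `B` (`cauchySeq_of_le_geometric` pointwise, limit `y`, `‖Y j t - y t‖ ≤ 2 (1/2)^j ρ`; `V` is complete), `y` maps `B` to
`closedBall y₀ (2 ρ)`, `y t₁ = y₁`; `TendstoLocallyUniformlyOn.differentiableOn` and `TendstoLocallyUniformlyOn.deriv`: `y` is holomorphic on `B` and `deriv y = lim deriv (Y (j+1)) = lim F ∘ Y j =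
F ∘ y` on `B`. Uniform form: cover the compact set `K` by finitely many balls `ball y₀ ρ` and take the smallest `τ` (`IsCompact.induction_on`, or `elim_nhds_subcover`; a
solution on a larger ball restricts to a smaller one).
-/

open scoped Topology ContDiff
open Set Metric

namespace Pool.Agent.CYE

private theorem Ode_core {V : Type*} [NormedAddCommGroup V] [NormedSpace ℂ V] [CompleteSpace V]
    {Ω : Set V} (hΩ : IsOpen Ω) {F : V → V} (hF : DifferentiableOn ℂ F Ω)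
    {y₀ y₁ : V} {ρ M L τ : ℝ} (hρ : 0 < ρ) (hM : 0 ≤ M) (hL : 0 ≤ L) (hτ : 0 < τ)
    (hsub : closedBall y₀ (2 * ρ) ⊆ Ω) (hFM : ∀ v ∈ closedBall y₀ (2 * ρ), ‖F v‖ ≤ M)
    (hFL : ∀ u ∈ closedBall y₀ (2 * ρ), ∀ v ∈ closedBall y₀ (2 * ρ), ‖F u - F v‖ ≤ L * ‖u - v‖)
    (hMτ : M * τ ≤ ρ) (hLτ : L * τ ≤ 1 / 2) (hy₁ : y₁ ∈ closedBall y₀ ρ) (t₁ : ℂ) :
    ∃ y : ℂ → V, y t₁ = y₁ ∧ ∀ t ∈ ball t₁ τ, y t ∈ Ω ∧ HasDerivAt y (F (y t)) t := by
  classical
  have hB : IsOpen (ball t₁ τ) := isOpen_ball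
  have hcB : Convex ℝ (ball t₁ τ) := convex_ball t₁ τ
  have ht₁ : t₁ ∈ ball t₁ τ := mem_ball_self hτ
  let P : (ℂ → V) → Prop := fun y =>
    y t₁ = y₁ ∧ DifferentiableOn ℂ y (ball t₁ τ) ∧ ∀ t ∈ ball t₁ τ, y t ∈ closedBall y₀ (2 * ρ)
  have hinit : P (fun _ => y₁) := by
    refine ⟨rfl, differentiableOn_const y₁, fun t _ => ?_⟩
    exact closedBall_subset_closedBall (by linarith) hy₁
  have step : ∀ y : {y // P y}, ∃ z : {y // P y}, ∀ t ∈ ball t₁ τ,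
      HasDerivAt z.1 (F (y.1 t)) t := by
    rintro ⟨y, hy1, hy2, hy3⟩
    have hd : DifferentiableOn ℂ (fun t => F (y t)) (ball t₁ τ) :=
      hF.comp hy2 fun t ht => hsub (hy3 t ht)
    obtain ⟨z, hz1, hz2⟩ := hd.isExactOn_ball.with_val_at t₁ y₁
    refine ⟨⟨z, hz1, fun t ht => (hz2 t ht).differentiableAt.differentiableWithinAt, ?_⟩, hz2⟩
    intro t ht
    have h1 : ‖z t - z t₁‖ ≤ M * ‖t - t₁‖ :=
      hcB.norm_image_sub_le_of_norm_hasDerivWithin_le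
        (fun s hs => (hz2 s hs).hasDerivWithinAt) (fun s hs => hFM _ (hy3 s hs)) ht₁ ht
    have h2 : ‖t - t₁‖ ≤ τ := by
      have := mem_ball.1 ht
      rw [dist_eq_norm] at this
      exact this.le
    have h3 : ‖z t - z t₁‖ ≤ ρ := h1.trans ((mul_le_mul_of_nonneg_left h2 hM).trans hMτ)
    rw [hz1] at h3
    rw [mem_closedBall] at hy₁ ⊢
    calc dist (z t) y₀ ≤ dist (z t) y₁ + dist y₁ y₀ := dist_triangle _ _ _
      _ ≤ ρ + ρ := by
        rw [dist_eq_norm (z t) y₁]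
        linarith
      _ = 2 * ρ := by ring
  choose nx hnx using step
  let Yt : ℕ → {y // P y} := fun j => Nat.rec (⟨fun _ => y₁, hinit⟩ : {y // P y})
    (fun _ y => nx y) j
  let Y : ℕ → ℂ → V := fun j => (Yt j).1
  have hY0 : ∀ t, Y 0 t = y₁ := fun t => rfl
  have hYP : ∀ j, P (Y j) := fun j => (Yt j).2
  have hYd : ∀ j, ∀ t ∈ ball t₁ τ, HasDerivAt (Y (j + 1)) (F (Y j t)) t := fun j => hnx (Yt j)
  have hdiff : ∀ j, ∀ t ∈ ball t₁ τ, ‖Y (j + 1) t - Y j t‖ ≤ ρ * (1 / 2) ^ j := by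
    intro j
    induction j with
    | zero =>
      intro t ht
      have h1 : ‖Y 1 t - Y 1 t₁‖ ≤ M * ‖t - t₁‖ :=
        hcB.norm_image_sub_le_of_norm_hasDerivWithin_le
          (fun s hs => (hYd 0 s hs).hasDerivWithinAt)
          (fun s hs => hFM _ ((hYP 0).2.2 s hs)) ht₁ ht
      have h2 : ‖t - t₁‖ ≤ τ := by
        have := mem_ball.1 ht
        rw [dist_eq_norm] at this
        exact this.le
      have h3 : ‖Y 1 t - Y 1 t₁‖ ≤ ρ := h1.trans ((mul_le_mul_of_nonneg_left h2 hM).trans hMτ)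
      rw [(hYP 1).1] at h3
      rw [hY0 t, pow_zero, mul_one]
      exact h3
    | succ j ih =>
      intro t ht
      have h1 : ‖(Y (j + 1 + 1) t - Y (j + 1) t) - (Y (j + 1 + 1) t₁ - Y (j + 1) t₁)‖
          ≤ (L * (ρ * (1 / 2) ^ j)) * ‖t - t₁‖ := by
        refine hcB.norm_image_sub_le_of_norm_hasDerivWithin_le
          (f := fun t => Y (j + 1 + 1) t - Y (j + 1) t)
          (f' := fun t => F (Y (j + 1) t) - F (Y j t))
          (fun s hs => ((hYd (j + 1) s hs).sub (hYd j s hs)).hasDerivWithinAt) ?_ ht₁ ht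
        intro s hs
        exact (hFL _ ((hYP (j + 1)).2.2 s hs) _ ((hYP j).2.2 s hs)).trans
          (mul_le_mul_of_nonneg_left (ih s hs) hL)
      have h2 : ‖t - t₁‖ ≤ τ := by
        have := mem_ball.1 ht
        rw [dist_eq_norm] at this
        exact this.le
      rw [(hYP (j + 1 + 1)).1, (hYP (j + 1)).1, sub_self, sub_zero] at h1
      have h4 : 0 ≤ ρ * (1 / 2 : ℝ) ^ j := by positivity
      calc ‖Y (j + 1 + 1) t - Y (j + 1) t‖ ≤ (L * (ρ * (1 / 2) ^ j)) * ‖t - t₁‖ := h1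
        _ ≤ (L * (ρ * (1 / 2) ^ j)) * τ :=
          mul_le_mul_of_nonneg_left h2 (mul_nonneg hL h4)
        _ = (L * τ) * (ρ * (1 / 2) ^ j) := by ring
        _ ≤ 1 / 2 * (ρ * (1 / 2) ^ j) := mul_le_mul_of_nonneg_right hLτ h4
        _ = ρ * (1 / 2) ^ (j + 1) := by ring
  have hdist : ∀ t ∈ ball t₁ τ, ∀ j, dist (Y j t) (Y (j + 1) t) ≤ ρ * (1 / 2) ^ j := by
    intro t ht j
    rw [dist_comm, dist_eq_norm]
    exact hdiff j t ht
  have hlim : ∀ t : ℂ, ∃ v : V, t ∈ ball t₁ τ →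
      Filter.Tendsto (fun j => Y j t) Filter.atTop (𝓝 v) := by
    intro t
    by_cases ht : t ∈ ball t₁ τ
    · obtain ⟨v, hv⟩ := cauchySeq_tendsto_of_complete
        (cauchySeq_of_le_geometric (1 / 2 : ℝ) ρ (by norm_num) (hdist t ht))
      exact ⟨v, fun _ => hv⟩
    · exact ⟨0, fun h => absurd h ht⟩
  choose y hy using hlim
  have hunif : TendstoUniformlyOn Y y Filter.atTop (ball t₁ τ) := by
    rw [Metric.tendstoUniformlyOn_iff]
    intro ε hε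
    have h1 : Filter.Tendsto (fun n : ℕ => ρ * (1 / 2 : ℝ) ^ n / (1 - 1 / 2)) Filter.atTop
        (𝓝 (ρ * 0 / (1 - 1 / 2))) :=
      ((tendsto_pow_atTop_nhds_zero_of_lt_one (by norm_num) (by norm_num)).const_mul ρ).div_const _
    rw [mul_zero, zero_div] at h1
    filter_upwards [h1.eventually (gt_mem_nhds hε)] with n hn t ht
    have h2 := dist_le_of_le_geometric_of_tendsto (1 / 2 : ℝ) ρ (by norm_num) (hdist t ht)
      (hy t ht) n
    rw [dist_comm]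
    exact lt_of_le_of_lt h2 hn
  have hloc := hunif.tendstoLocallyUniformlyOn
  have hYdiff : ∀ᶠ n in Filter.atTop, DifferentiableOn ℂ (Y n) (ball t₁ τ) :=
    Filter.Eventually.of_forall fun n => (hYP n).2.1
  have hyd : DifferentiableOn ℂ y (ball t₁ τ) := hloc.differentiableOn hYdiff hB
  have hder := hloc.deriv hYdiff hB
  have hymem : ∀ t ∈ ball t₁ τ, y t ∈ closedBall y₀ (2 * ρ) := fun t ht =>
    isClosed_closedBall.mem_of_tendsto (hy t ht)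
      (Filter.Eventually.of_forall fun j => (hYP j).2.2 t ht)
  refine ⟨y, ?_, ?_⟩
  · refine tendsto_nhds_unique (hy t₁ ht₁) ?_
    have : (fun j => Y j t₁) = fun _ => y₁ := funext fun j => (hYP j).1
    rw [this]
    exact tendsto_const_nhds
  · intro t ht
    refine ⟨hsub (hymem t ht), ?_⟩
    have h1 : Filter.Tendsto (fun n => deriv (Y n) t) Filter.atTop (𝓝 (deriv y t)) :=
      hder.tendsto_at ht
    have h2 : Filter.Tendsto (fun n => deriv (Y (n + 1)) t) Filter.atTop (𝓝 (deriv y t)) :=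
      h1.comp (Filter.tendsto_add_atTop_nat 1)
    have h3 : (fun n => deriv (Y (n + 1)) t) = fun n => F (Y n t) :=
      funext fun n => (hYd n t ht).deriv
    rw [h3] at h2
    have hc : ContinuousAt F (y t) :=
      hF.continuousOn.continuousAt (hΩ.mem_nhds (hsub (hymem t ht)))
    have h4 : Filter.Tendsto (fun n => F (Y n t)) Filter.atTop (𝓝 (F (y t))) :=
      hc.tendsto.comp (hy t ht)
    rw [tendsto_nhds_unique h4 h2]
    exact (hyd.differentiableAt (hB.mem_nhds ht)).hasDerivAt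

private theorem Ode_local {V : Type*} [NormedAddCommGroup V] [NormedSpace ℂ V] [CompleteSpace V]
    {Ω : Set V} (hΩ : IsOpen Ω) {F : V → V} (hF : DifferentiableOn ℂ F Ω)
    (hC : ContDiffOn ℝ ∞ F Ω) {y₀ : V} (hy₀ : y₀ ∈ Ω) :
    ∃ ρ > 0, ∃ τ > 0, ∀ y₁ ∈ closedBall y₀ ρ, ∀ t₁ : ℂ, ∃ y : ℂ → V, y t₁ = y₁ ∧
      ∀ t ∈ ball t₁ τ, y t ∈ Ω ∧ HasDerivAt y (F (y t)) t := by
  have h1 : ContDiffAt ℝ 1 F y₀ := (hC.contDiffAt (hΩ.mem_nhds hy₀)).of_le (by simp)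
  obtain ⟨K, T, hT, hK⟩ := h1.exists_lipschitzOnWith
  have h2 : ∀ᶠ v in 𝓝 y₀, ‖F v‖ < ‖F y₀‖ + 1 :=
    h1.continuousAt.norm.eventually (gt_mem_nhds (by linarith))
  have h3 : ∀ᶠ v in 𝓝 y₀, v ∈ T := hT
  have h4 : ∀ᶠ v in 𝓝 y₀, v ∈ Ω := hΩ.mem_nhds hy₀
  obtain ⟨ε, hε, hball⟩ := Metric.eventually_nhds_iff_ball.1 (h2.and (h3.and h4))
  have hsub : closedBall y₀ (2 * (ε / 4)) ⊆ ball y₀ ε :=
    closedBall_subset_ball (by linarith)
  have hM : 0 ≤ ‖F y₀‖ + 1 := by positivity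
  have hL : (0 : ℝ) ≤ K := K.2
  refine ⟨ε / 4, by linarith, min ((ε / 4) / (‖F y₀‖ + 1)) (1 / (2 * (K + 1))), ?_, ?_⟩
  · exact lt_min (by positivity) (by positivity)
  · intro y₁ hy₁ t₁
    refine Ode_core hΩ hF (by linarith) hM hL (lt_min (by positivity) (by positivity))
      (fun v hv => (hball v (hsub hv)).2.2) (fun v hv => (hball v (hsub hv)).1.le) ?_ ?_ ?_ hy₁ t₁
    · intro u hu v hv
      have := hK.dist_le_mul u (hball u (hsub hu)).2.1 v (hball v (hsub hv)).2.1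
      rw [dist_eq_norm, dist_eq_norm] at this
      exact this
    · calc (‖F y₀‖ + 1) * min ((ε / 4) / (‖F y₀‖ + 1)) (1 / (2 * (K + 1)))
          ≤ (‖F y₀‖ + 1) * ((ε / 4) / (‖F y₀‖ + 1)) :=
            mul_le_mul_of_nonneg_left (min_le_left _ _) hM
        _ = ε / 4 := by
          have : ‖F y₀‖ + 1 ≠ 0 := by positivity
          field_simp
    · calc (K : ℝ) * min ((ε / 4) / (‖F y₀‖ + 1)) (1 / (2 * (K + 1)))
          ≤ K * (1 / (2 * (K + 1))) := mul_le_mul_of_nonneg_left (min_le_right _ _) hL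
        _ ≤ 1 / 2 := by
          rw [mul_one_div, div_le_div_iff₀ (by positivity) (by norm_num)]
          nlinarith

theorem ode_exists {V : Type*} [NormedAddCommGroup V] [NormedSpace ℂ V] [CompleteSpace V]
    {Ω : Set V} (hΩ : IsOpen Ω) {F : V → V} (hF : DifferentiableOn ℂ F Ω)
    (hC : ContDiffOn ℝ ∞ F Ω) {K : Set V} (hK : IsCompact K) (hKΩ : K ⊆ Ω) :
    ∃ τ > 0, ∀ y₁ ∈ K, ∀ t₁ : ℂ, ∃ y : ℂ → V, y t₁ = y₁ ∧
      ∀ t ∈ ball t₁ τ, y t ∈ Ω ∧ HasDerivAt y (F (y t)) t := by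
  refine hK.induction_on (p := fun s => ∃ τ > 0, ∀ y₁ ∈ s, ∀ t₁ : ℂ, ∃ y : ℂ → V, y t₁ = y₁ ∧
      ∀ t ∈ ball t₁ τ, y t ∈ Ω ∧ HasDerivAt y (F (y t)) t) ?_ ?_ ?_ ?_
  · exact ⟨1, one_pos, fun y₁ h => absurd h (notMem_empty y₁)⟩
  · rintro s t hst ⟨τ, hτ, h⟩
    exact ⟨τ, hτ, fun y₁ hy₁ => h y₁ (hst hy₁)⟩
  · rintro s t ⟨τ, hτ, h⟩ ⟨τ', hτ', h'⟩
    refine ⟨min τ τ', lt_min hτ hτ', ?_⟩
    rintro y₁ (hy₁ | hy₁) t₁
    · obtain ⟨y, hy, hy'⟩ := h y₁ hy₁ t₁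
      exact ⟨y, hy, fun t ht => hy' t (ball_subset_ball (min_le_left _ _) ht)⟩
    · obtain ⟨y, hy, hy'⟩ := h' y₁ hy₁ t₁
      exact ⟨y, hy, fun t ht => hy' t (ball_subset_ball (min_le_right _ _) ht)⟩
  · intro x hx
    obtain ⟨ρ, hρ, τ, hτ, h⟩ := Ode_local hΩ hF hC (hKΩ hx)
    exact ⟨closedBall x ρ, mem_nhdsWithin_of_mem_nhds (closedBall_mem_nhds x hρ), τ, hτ, h⟩

end Pool.Agent.CYE
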