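import Pool.Agent.CYE.Los
import Pool.Agent.CYE.Ode
import Pool.Agent.CYE.OdU

/-!
CYE module Loe (size 4): local existence with a locally uniform radius, local uniqueness.
Notation: chart `i`, `w = η.w i`, `U = (A.c i).target`, `m` with `rho w m (A.c i x₀) ≠ 0`, `Ω = Um w m U ×ˢ univ` (open: `kf_of`), `F = Fv w m`; `Fv_hol`, `Fv_smooth`, `hol_uu`, `psd`, `η.det_eq_zero`.
PROOFS. `loe`: `ε > 0` with `closedBall (A.c i x₀) ε ⊆ Um w m U`, `G` with `(rho w m z).re ≤ G²` on this ball (compact; `contDiffOn_rho_re`), `K = closedBall (A.c i x₀) ε ×ˢ closedBall 0 G` compact `⊆ Ω`; `τ` from `ode_exists`;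
`N = {x ∈ (A.c i).source | A.c i x ∈ ball (A.c i x₀) ε}`. Given `W, Φ, t₁`: `y₁ = (A.c i (Φ t₁), deriv (A.c i ∘ Φ) t₁ m) ∈ K` (`sol_of_leaf`), solution `y` on `ball t₁ τ`, `Ψ = (A.c i).symm ∘ fst ∘ y` by `leaf_of_sol`; near `t₁`
`y = (A.c i ∘ Φ, deriv ..)` by `ode_unique` and `sol_of_leaf`, so `Ψ = (A.c i).symm (A.c i (Φ ·)) = Φ` near `t₁`.
`luq`: `unit_reg` gives `m`; `sol_of_leaf` for both (same `m`), the initial values agree by `h1`, `h2`; `ode_unique`; apply `(A.c i).symm`. `ini`: `unit_eq`, `ode_exists` for `K = {(z, a m)}`, `leaf_of_sol`; derivative at `0`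
is `a m • u = a` (`unit_eq`).
-/

open scoped ContDiff ComplexConjugate Topology ComplexOrder
open Complex Matrix Set

namespace Pool.Agent.CYE

open Pool.Agent.CYF Pool.Agent.CYN

variable {n : ℕ} {X : Type*} [TopologicalSpace X] {ι κ : Type*} {A : Spc (Fin n) X ι κ}
  {η : Form A}

private theorem Loe_open (η : Form A) (i : ι) (m : Fin n) :
    IsOpen (Um (η.w i) m (A.c i).target) :=
  (kf_of (A.c i).open_target (η.smooth i) (fun _ hz => psd η hz)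
    (fun z hz => η.det_eq_zero i z hz) m).isOpen

private theorem Loe_openΩ (η : Form A) (i : ι) (m : Fin n) :
    IsOpen (Um (η.w i) m (A.c i).target ×ˢ (univ : Set ℂ)) :=
  (Loe_open η i m).prod isOpen_univ

private theorem Loe_hol [CompactSpace X] [T2Space X] (η : Form A) (i : ι) (m : Fin n) :
    DifferentiableOn ℂ (Fv (η.w i) m) (Um (η.w i) m (A.c i).target ×ˢ (univ : Set ℂ)) :=
  Fv_hol (A.c i).open_target (η.smooth i) (fun _ hz => psd η hz)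
    (fun z hz => η.det_eq_zero i z hz) (fun k => hol_uu η i m k)

private theorem Loe_smooth (η : Form A) (i : ι) (m : Fin n) :
    ContDiffOn ℝ ∞ (Fv (η.w i) m) (Um (η.w i) m (A.c i).target ×ˢ (univ : Set ℂ)) :=
  Fv_smooth (A.c i).open_target (η.smooth i) (fun _ hz => psd η hz)
    (fun z hz => η.det_eq_zero i z hz)

theorem loe [CompactSpace X] [T2Space X] {x₀ : X} {i : ι} (hi : x₀ ∈ (A.c i).source)
    {m : Fin n} (hm : rho (η.w i) m (A.c i x₀) ≠ 0) :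
    ∃ N ∈ 𝓝 x₀, ∃ τ > 0, ∀ (W : Set ℂ) (Φ : ℂ → X) (t₁ : ℂ), IsOpen W → η.IsLeaf W Φ → t₁ ∈ W →
      Φ t₁ ∈ N → ∃ Ψ : ℂ → X, η.IsLeaf (Metric.ball t₁ τ) Ψ ∧ Ψ =ᶠ[𝓝 t₁] Φ := by
  have hz0 : A.c i x₀ ∈ Um (η.w i) m (A.c i).target := ⟨(A.c i).map_source hi, hm⟩
  obtain ⟨ε, hε, hball⟩ := Metric.nhds_basis_closedBall.mem_iff.1
    ((Loe_open η i m).mem_nhds hz0)
  have hsubT : Metric.closedBall (A.c i x₀) ε ⊆ (A.c i).target := fun z hz => (hball hz).1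
  have hcont : ContinuousOn (fun z => (rho (η.w i) m z).re) (Metric.closedBall (A.c i x₀) ε) :=
    ((contDiffOn_rho_re (A.c i).open_target (η.smooth i) m).continuousOn).mono hsubT
  obtain ⟨C, hC⟩ := (isCompact_closedBall (A.c i x₀) ε).exists_bound_of_continuousOn hcont
  have hK : IsCompact (Metric.closedBall (A.c i x₀) ε ×ˢ Metric.closedBall (0 : ℂ) (|C| + 1)) :=
    (isCompact_closedBall _ _).prod (isCompact_closedBall _ _)
  have hKΩ : Metric.closedBall (A.c i x₀) ε ×ˢ Metric.closedBall (0 : ℂ) (|C| + 1)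
      ⊆ Um (η.w i) m (A.c i).target ×ˢ (univ : Set ℂ) :=
    fun p hp => ⟨hball hp.1, mem_univ _⟩
  obtain ⟨τ, hτ, hode⟩ := ode_exists (Loe_openΩ η i m) (Loe_hol η i m) (Loe_smooth η i m) hK hKΩ
  refine ⟨(A.c i).source ∩ (A.c i) ⁻¹' Metric.ball (A.c i x₀) ε, ?_, τ, hτ, ?_⟩
  · exact Filter.inter_mem ((A.c i).open_source.mem_nhds hi)
      (((A.c i).continuousAt hi).preimage_mem_nhds (Metric.ball_mem_nhds _ hε))
  · intro W Φ t₁ hW hΦ ht hN
    have hcb : A.c i (Φ t₁) ∈ Metric.closedBall (A.c i x₀) ε := Metric.ball_subset_closedBall hN.2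
    obtain ⟨hs1, hs2⟩ := sol_of_leaf hW hΦ ht hN.1 (hball hcb).2
    have hmem : (A.c i (Φ t₁), deriv (fun s => A.c i (Φ s)) t₁ m) ∈
        Metric.closedBall (A.c i x₀) ε ×ˢ Metric.closedBall (0 : ℂ) (|C| + 1) := by
      refine ⟨hcb, ?_⟩
      rw [mem_closedBall_zero_iff]
      show ‖deriv (fun s => A.c i (Φ s)) t₁ m‖ ≤ |C| + 1
      have h1 : ‖deriv (fun s => A.c i (Φ s)) t₁ m‖ ^ 2 ≤ |C| := by
        rw [hs1]
        have h2 := hC _ hcb
        rw [Real.norm_eq_abs] at h2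
        exact (le_abs_self _).trans (h2.trans (le_abs_self _))
      nlinarith [norm_nonneg (deriv (fun s => A.c i (Φ s)) t₁ m), abs_nonneg C]
    obtain ⟨y, hy0, hy⟩ := hode _ hmem t₁
    refine ⟨fun t => (A.c i).symm (y t).1, ?_, ?_⟩
    · refine leaf_of_sol hy ?_
      rw [hy0]
      exact hs1
    · have hu := ode_unique (Loe_openΩ η i m) (Loe_smooth η i m)
        (y := y) (y' := fun s => (A.c i (Φ s), deriv (fun s => A.c i (Φ s)) s m)) (t₁ := t₁)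
        (Filter.eventually_of_mem (Metric.ball_mem_nhds t₁ hτ) hy)
        (hs2.mono fun t ht => ht.2) hy0
      filter_upwards [hu, hs2] with t h1 h2
      rw [h1]
      exact (A.c i).left_inv h2.1

theorem luq [CompactSpace X] [T2Space X] {W : Set ℂ} {Φ Ψ : ℂ → X} {t₁ : ℂ} (hW : IsOpen W)
    (hΦ : η.IsLeaf W Φ) (hΨ : η.IsLeaf W Ψ) (ht : t₁ ∈ W) {i : ι} (hi : Φ t₁ ∈ (A.c i).source)
    (h1 : Φ t₁ = Ψ t₁)
    (h2 : deriv (fun s => A.c i (Φ s)) t₁ = deriv (fun s => A.c i (Ψ s)) t₁) :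
    Φ =ᶠ[𝓝 t₁] Ψ := by
  obtain ⟨O, -, htO, -, -, -, hunit⟩ := leaf_chart hW hΦ ht hi
  obtain ⟨-, m, hm⟩ := unit_reg (hunit t₁ htO)
  have hi' : Ψ t₁ ∈ (A.c i).source := h1 ▸ hi
  have hm' : rho (η.w i) m (A.c i (Ψ t₁)) ≠ 0 := by rw [← h1]; exact hm
  obtain ⟨-, hs⟩ := sol_of_leaf hW hΦ ht hi hm
  obtain ⟨-, hs'⟩ := sol_of_leaf hW hΨ ht hi' hm'
  have hu := ode_unique (Loe_openΩ η i m) (Loe_smooth η i m)
    (y := fun s => (A.c i (Φ s), deriv (fun s => A.c i (Φ s)) s m))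
    (y' := fun s => (A.c i (Ψ s), deriv (fun s => A.c i (Ψ s)) s m)) (t₁ := t₁)
    (hs.mono fun t ht => ht.2) (hs'.mono fun t ht => ht.2) (by
      show (A.c i (Φ t₁), deriv (fun s => A.c i (Φ s)) t₁ m)
        = (A.c i (Ψ t₁), deriv (fun s => A.c i (Ψ s)) t₁ m)
      rw [h2, h1])
  filter_upwards [hu, hs, hs'] with t h3 h4 h5
  have h6 : A.c i (Φ t) = A.c i (Ψ t) := congrArg Prod.fst h3
  exact (A.c i).injOn h4.1 h5.1 h6

theorem ini [CompactSpace X] [T2Space X] {i : ι} {z a : E n} (ha : η.Unit i z a) :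
    ∃ (r : ℝ) (Φ : ℂ → X), 0 < r ∧ η.IsLeaf (Metric.ball 0 r) Φ ∧ Φ 0 = (A.c i).symm z ∧
      deriv (fun s => A.c i (Φ s)) 0 = a := by
  obtain ⟨-, m, hm⟩ := unit_reg ha
  obtain ⟨-, h2, h3⟩ := unit_eq ha hm
  have hzU : z ∈ Um (η.w i) m (A.c i).target := ⟨ha.1, hm⟩
  obtain ⟨τ, hτ, hode⟩ := ode_exists (Loe_openΩ η i m) (Loe_hol η i m) (Loe_smooth η i m)
    (isCompact_singleton (x := ((z, a m) : E n × ℂ)))
    (fun p hp => by rw [mem_singleton_iff.1 hp]; exact ⟨hzU, mem_univ _⟩)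
  obtain ⟨y, hy0, hy⟩ := hode _ (mem_singleton _) 0
  refine ⟨τ, fun t => (A.c i).symm (y t).1, hτ, leaf_of_sol hy ?_, ?_, ?_⟩
  · rw [hy0]
    exact h2
  · show (A.c i).symm (y 0).1 = (A.c i).symm z
    rw [hy0]
  · have hev : (fun s => A.c i ((A.c i).symm (y s).1)) =ᶠ[𝓝 (0 : ℂ)] fun s => (y s).1 := by
      filter_upwards [Metric.ball_mem_nhds (0 : ℂ) hτ] with s hs
      exact (A.c i).right_inv (hy s hs).1.1.1
    rw [hev.deriv_eq]
    have hd := (hy 0 (Metric.mem_ball_self hτ)).2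
    have hd1 : HasDerivAt (fun s => (y s).1) (Fv (η.w i) m (y 0)).1 0 :=
      (ContinuousLinearMap.fst ℂ (E n) ℂ).hasFDerivAt.comp_hasDerivAt (0 : ℂ) hd
    rw [hd1.deriv, hy0]
    exact h3.symm

end Pool.Agent.CYE
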