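import Pool.Agent.CYE.Apr
import Pool.Agent.CYE.Loe
import Pool.Agent.CYE.Idn
import Pool.Agent.CYE.Ext

open scoped ContDiff ComplexConjugate Topology ComplexOrder
open Complex Matrix Set

namespace Pool.Agent.CYE

open Pool.Agent.CYF Pool.Agent.CYN

variable {n : ℕ} {X : Type*} [TopologicalSpace X] {ι κ : Type*} {A : Spc (Fin n) X ι κ}

theorem unif [CompactSpace X] [T2Space X] (η : Form A) {N : ℕ} (b : Fin N → Pt A) {δ : ℝ}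
    (hδ : 0 < δ) :
    ∃ τ > 0, ∀ (W : Set ℂ) (Φ : ℂ → X) (t₁ : ℂ), IsOpen W → η.IsLeaf W Φ → t₁ ∈ W →
      (∃ a, Φ t₁ ∈ (b a).Q ∧ δ ≤ LX η (b a).k (Φ t₁)) →
      ∃ Ψ : ℂ → X, η.IsLeaf (Metric.ball t₁ τ) Ψ ∧ Ψ =ᶠ[𝓝 t₁] Φ := by
  classical
  set K : Set X := ⋃ a, ((b a).Q ∩ LX η (b a).k ⁻¹' Ici δ) with hK
  have hKc : IsCompact K := by
    refine isCompact_iUnion fun a => ?_
    have h1 : ContinuousOn (LX η (b a).k) (b a).Q := (LX_cont η (b a).k).mono (b a).sub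
    have h2 := h1.preimage_isClosed_of_isClosed (b a).comp.isClosed (isClosed_Ici (a := δ))
    exact (b a).comp.of_isClosed_subset h2 inter_subset_left
  have key : ∃ τ > 0, ∀ (W : Set ℂ) (Φ : ℂ → X) (t₁ : ℂ), IsOpen W → η.IsLeaf W Φ → t₁ ∈ W →
      Φ t₁ ∈ K → ∃ Ψ : ℂ → X, η.IsLeaf (Metric.ball t₁ τ) Ψ ∧ Ψ =ᶠ[𝓝 t₁] Φ := by
    refine hKc.induction_on (p := fun S => ∃ τ > 0, ∀ (W : Set ℂ) (Φ : ℂ → X) (t₁ : ℂ),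
      IsOpen W → η.IsLeaf W Φ → t₁ ∈ W → Φ t₁ ∈ S →
        ∃ Ψ : ℂ → X, η.IsLeaf (Metric.ball t₁ τ) Ψ ∧ Ψ =ᶠ[𝓝 t₁] Φ) ?_ ?_ ?_ ?_
    · exact ⟨1, one_pos, fun W Φ t₁ _ _ _ h => absurd h (notMem_empty _)⟩
    · rintro S T hST ⟨τ, hτ, h⟩
      exact ⟨τ, hτ, fun W Φ t₁ h1 h2 h3 h4 => h W Φ t₁ h1 h2 h3 (hST h4)⟩
    · rintro S T ⟨τ, hτ, h⟩ ⟨τ', hτ', h'⟩
      refine ⟨min τ τ', lt_min hτ hτ', fun W Φ t₁ h1 h2 h3 h4 => ?_⟩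
      rcases h4 with h4 | h4
      · obtain ⟨Ψ, g1, g2⟩ := h W Φ t₁ h1 h2 h3 h4
        exact ⟨Ψ, leaf_mono g1 (Metric.ball_subset_ball (min_le_left _ _)), g2⟩
      · obtain ⟨Ψ, g1, g2⟩ := h' W Φ t₁ h1 h2 h3 h4
        exact ⟨Ψ, leaf_mono g1 (Metric.ball_subset_ball (min_le_right _ _)), g2⟩
    · intro x hx
      obtain ⟨a, hxQ, hxδ⟩ := mem_iUnion.1 hx
      have h0 : LX η (b a).k x ≠ 0 := (lt_of_lt_of_le hδ hxδ).ne'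
      obtain ⟨i, m, hi, hm⟩ := reg_of_LX η ((b a).sub hxQ) h0
      obtain ⟨S, hS, τ, hτ, h⟩ := loe (η := η) hi hm
      exact ⟨S, mem_nhdsWithin_of_mem_nhds hS, τ, hτ, h⟩
  obtain ⟨τ, hτ, h⟩ := key
  refine ⟨τ, hτ, fun W Φ t₁ h1 h2 h3 h4 => h W Φ t₁ h1 h2 h3 ?_⟩
  obtain ⟨a, h5, h6⟩ := h4
  exact mem_iUnion.2 ⟨a, h5, h6⟩

theorem entire [CompactSpace X] [T2Space X] (hA : A.Index1) (η : Form A) {i : ι} {z a : E n}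
    (ha : η.Unit i z a) :
    ∃ Φ : ℂ → X, η.IsLeaf univ Φ ∧ Φ 0 = (A.c i).symm z ∧
      deriv (fun s => A.c i (Φ s)) 0 = a := by
  obtain ⟨r₀, Φ₀, hr₀, h1, h2, h3⟩ := ini ha
  obtain ⟨N, b, hb⟩ := exists_pt A
  obtain ⟨hreg, m, hm⟩ := unit_reg ha
  have hi : (A.c i).symm z ∈ (A.c i).source := (A.c i).map_target ha.1
  have hm' : rho (η.w i) m (A.c i ((A.c i).symm z)) ≠ 0 := by
    rw [(A.c i).right_inv ha.1]
    exact hm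
  obtain ⟨F, hF1, hF2⟩ := ext_plane (fun f W => η.IsLeaf W f)
    (fun f V W h hVW => leaf_mono h hVW)
    (fun f g W hW h he => leaf_congr hW h he)
    (fun f W h => leaf_loc h)
    (fun f g W hW hc h h' t₀ ht he => leaf_idn hW hc.isPreconnected h h' ht he)
    (f₀ := Φ₀) hr₀ h1 (by
      intro R hR
      obtain ⟨δ, hδ, hδ'⟩ := apr hA η hb hi hm' R
      obtain ⟨τ, hτ, h⟩ := unif η b hδ
      refine ⟨τ, hτ, fun f hf hf0 p hp => ?_⟩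
      have hf00 : f 0 = (A.c i).symm z := by rw [hf0.eq_of_nhds, h2]
      exact h (Metric.ball 0 R) f p Metric.isOpen_ball hf hp (hδ' f hf hf00 p hp))
  refine ⟨F, hF1, by rw [hF2.eq_of_nhds, h2], ?_⟩
  have h4 : (fun s => A.c i (F s)) =ᶠ[𝓝 0] fun s => A.c i (Φ₀ s) := by
    filter_upwards [hF2] with s hs
    rw [hs]
  rw [h4.deriv_eq, h3]

end Pool.Agent.CYE
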