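import Pool.Agent.CYE.Defs

/-!
Definitions: other semipositive forms in the class of `η`.
-/

open scoped ContDiff Topology ComplexConjugate
open Complex Set

namespace Pool.Agent.CYN

open Pool.Agent.CYF

variable {n : ℕ} {X : Type*} [TopologicalSpace X] {ι κ : Type*} {A : Spc (Fin n) X ι κ}

/-- `f` is a function on `X`, bounded above and smooth on the smooth part, such that `η + i ∂∂̄ f` is
semipositive on the smooth part. For example `e^(-f) h` is another hermitian metric of semipositive
curvature, if `η` is the curvature form of the metric `h`. -/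
structure Form.IsPot (η : Form A) (f : X → ℝ) : Prop where
  smooth : ∀ i, ContDiffOn ℝ ∞ (fun y => f ((A.c i).symm y)) (A.c i).target
  nonneg : ∀ i, ∀ z ∈ (A.c i).target, ∀ a : E n,
    0 ≤ (levi (fun y => η.w i y + f ((A.c i).symm y)) z a a).re
  bdd : ∃ R : ℝ, ∀ i, ∀ x ∈ (A.c i).source, f x ≤ R

end Pool.Agent.CYN
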