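import Pool.Agent.CYE.Ext

/-!
CYE module Mod (size 4): a bounded function on `ℂ` that is locally the square of the absolute value of a holomorphic function is constant.
PROOF. (a) If `G₁, G₂` are holomorphic on a ball `B` (radius `> 0`) and `‖G₁‖ = ‖G₂‖` on `B` then there is `c` with `‖c‖ = 1` and `G₁ = c G₂` on `B`: if `G₂ = 0` on `B` take `c = 1`; otherwise `G₂ q₀ ≠ 0` for some `q₀`; near `q₀`
`G₁ / G₂` is holomorphic with norm `1` near `q₀`, hence constant near `q₀` (`Complex.eventually_eq_of_isLocalMax_norm`), and the identity theorem on `B` (`AnalyticOnNhd.eqOn_of_preconnected_of_eventuallyEq`).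
(b) `ext_plane` with `Y = ℂ`, `good G W := DifferentiableOn ℂ G W ∧ ∀ t ∈ W, ‖G t‖ ^ 2 = f t` restricted to open `W`: to have `loc` take `good G W := ∀ t ∈ W, ∃ O, IsOpen O ∧ t ∈ O ∧ DifferentiableOn ℂ G O ∧ ∀ q ∈ O, ‖G q‖ ^ 2 = f q`.
`idn`: identity theorem on the convex open set `W` (`good` gives `DifferentiableOn` there). `ext R`: the closed ball `closedBall 0 R` is compact; for `t` in it `hf t` gives a radius `r_t`; the balls `ball t (r_t / 2)` cover it,
take a finite subcover and `τ` = the smallest `r_t / 2`: for `p ∈ ball 0 R` there is a holomorphic `G'` on `ball p τ` with `‖G'‖² = f`. Given `G` good on `ball 0 R` choose a ball `B ⊆ ball 0 R ∩ ball p τ` around `p`; (a) gives `c` with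
`G = c G'` on `B`; `g = c G'`.
(c) The entire function `F` has `‖F‖² = f ≤ R₀`, so it is bounded and constant (`Differentiable.apply_eq_apply_of_bounded`, `Metric.isBounded_iff`..), so `f` is constant.
-/

open scoped Topology
open Set Metric

namespace Pool.Agent.CYE

private theorem mod_a {p : ℂ} {ρ : ℝ} (hρ : 0 < ρ) {G₁ G₂ : ℂ → ℂ}
    (h₁ : DifferentiableOn ℂ G₁ (ball p ρ)) (h₂ : DifferentiableOn ℂ G₂ (ball p ρ))
    (he : ∀ q ∈ ball p ρ, ‖G₁ q‖ = ‖G₂ q‖) :
    ∃ c : ℂ, ‖c‖ = 1 ∧ ∀ q ∈ ball p ρ, G₁ q = c * G₂ q := by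
  by_cases hz : ∀ q ∈ ball p ρ, G₂ q = 0
  · refine ⟨1, norm_one, fun q hq => ?_⟩
    have h3 := he q hq
    rw [hz q hq, norm_zero, norm_eq_zero] at h3
    rw [h3, hz q hq, mul_zero]
  · push Not at hz
    obtain ⟨q₀, hq₀, hne⟩ := hz
    have hnb : ball p ρ ∈ 𝓝 q₀ := isOpen_ball.mem_nhds hq₀
    have hd2 : DifferentiableAt ℂ G₂ q₀ := h₂.differentiableAt hnb
    have hne' : ∀ᶠ z in 𝓝 q₀, G₂ z ≠ 0 := hd2.continuousAt.eventually_ne hne
    have hin : ∀ᶠ z in 𝓝 q₀, z ∈ ball p ρ := hnb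
    have hd : ∀ᶠ z in 𝓝 q₀, DifferentiableAt ℂ (fun z => G₁ z / G₂ z) z := by
      filter_upwards [hne', hin] with z h3 h4
      exact (h₁.differentiableAt (isOpen_ball.mem_nhds h4)).div
        (h₂.differentiableAt (isOpen_ball.mem_nhds h4)) h3
    have hn : ∀ z, G₂ z ≠ 0 → z ∈ ball p ρ → ‖G₁ z / G₂ z‖ = 1 := by
      intro z h3 h4
      rw [norm_div, he z h4, div_self (norm_ne_zero_iff.2 h3)]
    have hmax : IsLocalMax (norm ∘ fun z => G₁ z / G₂ z) q₀ := by
      filter_upwards [hne', hin] with z h3 h4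
      simp only [Function.comp]
      rw [hn z h3 h4, hn q₀ hne hq₀]
    have hc := Complex.eventually_eq_of_isLocalMax_norm hd hmax
    refine ⟨G₁ q₀ / G₂ q₀, hn q₀ hne hq₀, ?_⟩
    have heq : G₁ =ᶠ[𝓝 q₀] fun z => G₁ q₀ / G₂ q₀ * G₂ z := by
      filter_upwards [hc, hne'] with z h3 h4
      rw [← h3, div_mul_cancel₀ _ h4]
    have ha1 : AnalyticOnNhd ℂ G₁ (ball p ρ) := h₁.analyticOnNhd isOpen_ball
    have ha2 : AnalyticOnNhd ℂ (fun z => G₁ q₀ / G₂ q₀ * G₂ z) (ball p ρ) :=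
      (h₂.const_mul _).analyticOnNhd isOpen_ball
    exact ha1.eqOn_of_preconnected_of_eventuallyEq ha2 (convex_ball p ρ).isPreconnected hq₀ heq

theorem mod_const {f : ℂ → ℝ} {R₀ : ℝ} (hR : ∀ t, f t ≤ R₀)
    (hf : ∀ t : ℂ, ∃ r > 0, ∃ G : ℂ → ℂ, DifferentiableOn ℂ G (ball t r) ∧
      ∀ q ∈ ball t r, ‖G q‖ ^ 2 = f q) (t t' : ℂ) : f t = f t' := by
  classical
  obtain ⟨r₀, hr₀, G₀, hG₀, hn₀⟩ := hf 0
  obtain ⟨F, hF, -⟩ := ext_plane
    (fun G W => ∀ t ∈ W, ∃ r > 0, DifferentiableOn ℂ G (ball t r) ∧ ∀ q ∈ ball t r, ‖G q‖ ^ 2 = f q)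
    (fun G V W hG hVW t ht => hG t (hVW ht))
    (by
      intro G H W hW hG hGH t ht
      obtain ⟨r, hr, hd, hn⟩ := hG t ht
      obtain ⟨r', hr', hsub⟩ := Metric.isOpen_iff.1 hW t ht
      refine ⟨min r r', lt_min hr hr', ?_, ?_⟩
      · refine (hd.mono (ball_subset_ball (min_le_left _ _))).congr fun q hq => ?_
        exact (hGH q (hsub (ball_subset_ball (min_le_right _ _) hq))).symm
      · intro q hq
        rw [← hGH q (hsub (ball_subset_ball (min_le_right _ _) hq))]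
        exact hn q (ball_subset_ball (min_le_left _ _) hq))
    (by
      intro G W h t ht
      obtain ⟨r, hr, hg⟩ := h t ht
      exact hg t (mem_ball_self hr))
    (by
      intro G H W hW hcv hG hH t₀ ht₀ heq t ht
      have key : ∀ K : ℂ → ℂ, (∀ t ∈ W, ∃ r > 0, DifferentiableOn ℂ K (ball t r) ∧
          ∀ q ∈ ball t r, ‖K q‖ ^ 2 = f q) → AnalyticOnNhd ℂ K W := by
        intro K hK
        apply DifferentiableOn.analyticOnNhd _ hW
        intro t ht
        obtain ⟨r, hr, hd, -⟩ := hK t ht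
        exact (hd.differentiableAt (ball_mem_nhds t hr)).differentiableWithinAt
      exact (key G hG).eqOn_of_preconnected_of_eventuallyEq (key H hH) hcv.isPreconnected ht₀ heq ht)
    (f₀ := G₀) hr₀
    (by
      intro t ht
      obtain ⟨r', hr', hsub⟩ := Metric.isOpen_iff.1 isOpen_ball t ht
      exact ⟨r', hr', hG₀.mono hsub, fun q hq => hn₀ q (hsub hq)⟩)
    (by
      intro R hR
      choose r hr G hG hn using hf
      obtain ⟨δ, hδ, hL⟩ := lebesgue_number_lemma_of_metric (isCompact_closedBall (0 : ℂ) R)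
        (c := fun t : ℂ => ball t (r t)) (fun t => isOpen_ball)
        (fun t _ => mem_iUnion.2 ⟨t, mem_ball_self (hr t)⟩)
      refine ⟨δ, hδ, ?_⟩
      intro K hK _ p hp
      obtain ⟨i, hi⟩ := hL p (ball_subset_closedBall hp)
      obtain ⟨ρ, hρ, hd, hnK⟩ := hK p hp
      have hm : 0 < min ρ δ := lt_min hρ hδ
      have s1 : ball p (min ρ δ) ⊆ ball p ρ := ball_subset_ball (min_le_left _ _)
      have s2 : ball p (min ρ δ) ⊆ ball p δ := ball_subset_ball (min_le_right _ _)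
      obtain ⟨c, hc, hcK⟩ := mod_a hm (hd.mono s1) ((hG i).mono (s2.trans hi)) (by
        intro q hq
        have h1 := hnK q (s1 hq)
        have h2 := hn i q (hi (s2 hq))
        rw [← h2] at h1
        exact (sq_eq_sq₀ (norm_nonneg _) (norm_nonneg _)).1 h1)
      refine ⟨fun q => c * G i q, ?_, ?_⟩
      · intro t ht
        obtain ⟨r', hr', hsub⟩ := Metric.isOpen_iff.1 isOpen_ball t ht
        refine ⟨r', hr', ((hG i).mono (hsub.trans hi)).const_mul c, fun q hq => ?_⟩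
        rw [norm_mul, hc, one_mul]
        exact hn i q (hi (hsub hq))
      · filter_upwards [ball_mem_nhds p hm] with q hq
        exact (hcK q hq).symm)
  have hdF : Differentiable ℂ F := by
    intro q
    obtain ⟨r, hr, hd, -⟩ := hF q (mem_univ q)
    exact hd.differentiableAt (ball_mem_nhds q hr)
  have hnF : ∀ q, ‖F q‖ ^ 2 = f q := by
    intro q
    obtain ⟨r, hr, -, hn⟩ := hF q (mem_univ q)
    exact hn q (mem_ball_self hr)
  have hbd : Bornology.IsBounded (range F) := by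
    rw [isBounded_iff_forall_norm_le]
    refine ⟨1 + |R₀|, ?_⟩
    rintro _ ⟨q, rfl⟩
    have h1 := hnF q
    have h2 := hR q
    have h3 := le_abs_self R₀
    have h4 := norm_nonneg (F q)
    nlinarith [sq_nonneg (‖F q‖ - 1)]
  rw [← hnF t, ← hnF t', hdF.apply_eq_apply_of_bounded hbd t t']

end Pool.Agent.CYE
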