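import Pool.Agent.CYE.Lfb

/-!
CYE module SeL (size 5): along a leaf map the norm of a section is locally the absolute value of a holomorphic function.
PROOF. `leaf_chart` at `t` with the chart `j`: `r > 0` with `B = ball t r ⊆ O`, `z = A.c j ∘ Φ` holomorphic on `B`, `z' = deriv z` in the kernel (`unit_ker`), `w = η.w j` smooth on the open set `(A.c j).target`.
`p q = ∑_k pk k (cx w) (z q) * z' q k`. Claim: `p` is holomorphic on `B`. It is real differentiable; for `u : ℂ`: `fderiv ℝ p q u = ∑_k fderiv ℝ (pk k (cx w)) (z q) (u • z') * z'_k + ∑_k pk k (cx w) (z q) * (u * z''_k)`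
(chain rule; `z` and `z'` are holomorphic: `DifferentiableOn.deriv`), and `fderiv ℝ g x b = d10 g x b + d01 g x b` (unfold `d10`, `d01`), `d10 g x (u • b) = u d10 g x b`, `d01 g x (u • b) = conj u d01 g x b`
(`d10_smul_vec`, `d01_smul_vec`), and `∑_k z'_k d01 (pk k (cx w)) (z q) z' = ∑_k ∑_l z'_k conj z'_l pb l (pk k (cx w)) = levi w (z q) z' z' = 0` (`pk_pb_comm`, `levi_eq_sum`, `unit_ker`). So
`fderiv ℝ p q` is complex linear: `differentiableAt_complex_iff_differentiableAt_real` (Mathlib/Analysis/Complex/Conformal.lean).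
Let `H` be a primitive of `p` on `B` (`DifferentiableOn.isExactOn_ball`). The real function `q ↦ w (z q) - 2 (H q).re` has derivative zero on the convex set `B`: the derivative of `w ∘ z` in the direction `u` is
`fderiv ℝ w (z q) (u • z') = 2 Re (u p q)` (`w` is real: `d01 (cx w) = conj (d10 (cx w))`, `pk_cx`, `d10_eq_sum`). So it is a constant `c₀` on `B` (`Convex.is_const_of_fderivWithin_eq_zero` or
`IsOpen.is_const_of_fderiv_eq_zero`). `G q = s j (z q) * exp (- m (H q + c₀ / 2))`: `‖exp x‖ = Real.exp x.re` (`Complex.norm_exp`).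
-/

open scoped ContDiff ComplexConjugate Topology ComplexOrder
open Complex Matrix Set

namespace Pool.Agent.CYE

open Pool.Agent.CYF Pool.Agent.CYN

variable {n : ℕ} {X : Type*} [TopologicalSpace X] {ι κ : Type*} {A : Spc (Fin n) X ι κ}
  {η : Form A} {W : Set ℂ} {Φ : ℂ → X}

private theorem sel_fd (g : E n → ℂ) (x b : E n) : fderiv ℝ g x b = d10 g x b + d01 g x b := by
  unfold d10 d01
  ring

private theorem sel_chain {F : Type*} [NormedAddCommGroup F] [NormedSpace ℝ F] {z : ℂ → E n}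
    {z' : E n} {q : ℂ} (hz : HasDerivAt z z' q) {g : E n → F}
    (hg : DifferentiableAt ℝ g (z q)) :
    ∃ L : ℂ →L[ℝ] F, HasFDerivAt (fun s => g (z s)) L q ∧
      ∀ u : ℂ, L u = fderiv ℝ g (z q) (u • z') := by
  have h1 := (hz.hasFDerivAt).restrictScalars ℝ
  have h2 := hg.hasFDerivAt.comp q h1
  exact ⟨_, h2, fun u => rfl⟩

private theorem sel_p {w : E n → ℝ} {U : Set (E n)} (hU : IsOpen U) (hw : ContDiffOn ℝ ∞ w U)
    {z : ℂ → E n} {q : ℂ} {O : Set ℂ} (hO : IsOpen O) (hq : q ∈ O)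
    (hz : DifferentiableOn ℂ z O) (hzU : z q ∈ U)
    (hker : levi w (z q) (deriv z q) (deriv z q) = 0) :
    DifferentiableAt ℂ (fun s => ∑ k, pk k (cx w) (z s) * deriv z s k) q := by
  have hcw : ContDiffOn ℝ ∞ (cx w) U := contDiffOn_cx hw
  have hcwa : ContDiffAt ℝ ∞ (cx w) (z q) := hcw.contDiffAt (hU.mem_nhds hzU)
  have hwa : ContDiffAt ℝ ∞ w (z q) := hw.contDiffAt (hU.mem_nhds hzU)
  have hzd : HasDerivAt z (deriv z q) q :=
    (hz.differentiableAt (hO.mem_nhds hq)).hasDerivAt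
  have hz2 : HasDerivAt (deriv z) (deriv (deriv z) q) q :=
    ((hz.deriv hO).differentiableAt (hO.mem_nhds hq)).hasDerivAt
  obtain ⟨a, ha⟩ : ∃ a : E n, a = deriv z q := ⟨_, rfl⟩
  obtain ⟨b, hb⟩ : ∃ b : E n, b = deriv (deriv z) q := ⟨_, rfl⟩
  have hk : ∀ k : Fin n, ∃ L : ℂ →L[ℝ] ℂ,
      HasFDerivAt (fun s => pk k (cx w) (z s) * deriv z s k) L q ∧
      ∀ u : ℂ, L u = u * (pk k (cx w) (z q) * b k + a k * d10 (pk k (cx w)) (z q) a)
        + conj u * (a k * d01 (pk k (cx w)) (z q) a) := by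
    intro k
    have hP : DifferentiableAt ℝ (pk k (cx w)) (z q) :=
      diffAt_of hU (contDiffOn_pk hU hcw k) hzU
    obtain ⟨L₁, hL₁, hL₁u⟩ := sel_chain hzd hP
    have h3 : HasDerivAt (fun s => deriv z s k) (deriv (deriv z) q k) q :=
      (hasDerivAt_pi.1 hz2) k
    have h4 := (h3.hasFDerivAt).restrictScalars ℝ
    refine ⟨_, hL₁.mul h4, fun u => ?_⟩
    have e1 : L₁ u = u * d10 (pk k (cx w)) (z q) a + conj u * d01 (pk k (cx w)) (z q) a := by
      rw [hL₁u, sel_fd, ← ha, d10_smul_vec, d01_smul_vec]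
    have e2 : ((ContinuousLinearMap.toSpanSingleton ℂ (deriv (deriv z) q k)).restrictScalars ℝ) u
        = u * b k := by
      rw [hb]
      rfl
    have e3 : (pk k (cx w) (z q) •
          ((ContinuousLinearMap.toSpanSingleton ℂ (deriv (deriv z) q k)).restrictScalars ℝ)
        + deriv z q k • L₁) u = pk k (cx w) (z q) * (u * b k) + a k * L₁ u := by
      rw [_root_.add_apply, _root_.smul_apply,
        _root_.smul_apply, e2, ha]
      rfl
    refine e3.trans ?_
    rw [e1]
    ring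
  choose L hL hLu using hk
  have hsum : HasFDerivAt (fun s => ∑ k, pk k (cx w) (z s) * deriv z s k) (∑ k, L k) q :=
    HasFDerivAt.fun_sum fun k _ => hL k
  have hzero : ∑ k, a k * d01 (pk k (cx w)) (z q) a = 0 := by
    rw [← hker, ← ha, levi_eq_sum hwa]
    refine Finset.sum_congr rfl fun k _ => ?_
    rw [d01_eq_sum, Finset.mul_sum]
    refine Finset.sum_congr rfl fun l _ => ?_
    rw [LM_eq, pk_pb_comm hcwa]
    ring
  have hval : ∀ u : ℂ, (∑ k, L k) u
      = u * ∑ k, (pk k (cx w) (z q) * b k + a k * d10 (pk k (cx w)) (z q) a) := by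
    intro u
    rw [_root_.sum_apply]
    have h5 : ∀ k, L k u = u * (pk k (cx w) (z q) * b k + a k * d10 (pk k (cx w)) (z q) a)
        + conj u * (a k * d01 (pk k (cx w)) (z q) a) := fun k => hLu k u
    rw [Finset.sum_congr rfl fun k _ => h5 k, Finset.sum_add_distrib, ← Finset.mul_sum,
      ← Finset.mul_sum, hzero, mul_zero, add_zero]
  rw [differentiableAt_complex_iff_differentiableAt_real]
  refine ⟨hsum.differentiableAt, ?_⟩
  rw [hsum.fderiv, hval, hval, smul_eq_mul, one_mul]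

private theorem sel_w {w : E n → ℝ} {U : Set (E n)} (hU : IsOpen U) (hw : ContDiffOn ℝ ∞ w U)
    {x : E n} (hx : x ∈ U) (a : E n) (u : ℂ) :
    fderiv ℝ w x (u • a) = 2 * (u * d10 (cx w) x a).re := by
  have hwd : DifferentiableAt ℝ w x :=
    (hw.contDiffAt (hU.mem_nhds hx)).differentiableAt (by simp)
  have hcd : DifferentiableAt ℝ (cx w) x := diffAt_of hU (contDiffOn_cx hw) hx
  have h1 : ∀ v : E n, fderiv ℝ (cx w) x v = ((fderiv ℝ w x v : ℝ) : ℂ) := by
    intro v
    have h2 := (Complex.ofRealCLM.hasFDerivAt (x := w x)).comp x hwd.hasFDerivAt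
    have h3 : HasFDerivAt (cx w) (Complex.ofRealCLM.comp (fderiv ℝ w x)) x := h2
    rw [h3.fderiv]
    rfl
  have h4 : d01 (cx w) x (u • a) = conj (d10 (cx w) x (u • a)) := by
    have h5 := d10_conj (a := u • a) hcd
    have h6 : (fun y => conj (cx w y)) = cx w := funext fun y => conj_cx w y
    rw [h6] at h5
    rw [h5, Complex.conj_conj]
  have h7 := sel_fd (cx w) x (u • a)
  rw [h1, h4, d10_smul_vec] at h7
  have h8 := congrArg Complex.re h7
  rw [Complex.ofReal_re, Complex.add_re, Complex.conj_re] at h8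
  rw [h8]
  ring

theorem sel {m : ℝ} {s : ι → E n → ℂ} (hs : η.IsSection m s) (hW : IsOpen W)
    (h : η.IsLeaf W Φ) {t : ℂ} (ht : t ∈ W) {j : ι} (hj : Φ t ∈ (A.c j).source) :
    ∃ r > 0, ∃ G : ℂ → ℂ, Metric.ball t r ⊆ W ∧ MapsTo Φ (Metric.ball t r) (A.c j).source ∧
      DifferentiableOn ℂ G (Metric.ball t r) ∧
      ∀ q ∈ Metric.ball t r, ‖G q‖ ^ 2
        = ‖s j (A.c j (Φ q))‖ ^ 2 * Real.exp (-(m * η.w j (A.c j (Φ q)))) := by
  obtain ⟨O, hO, htO, hOW, hmaps, hdiff, hunit⟩ := leaf_chart hW h ht hj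
  obtain ⟨r, hr, hball⟩ := Metric.isOpen_iff.1 hO t htO
  obtain ⟨z, hz⟩ : ∃ z : ℂ → E n, z = fun q => A.c j (Φ q) := ⟨_, rfl⟩
  have hzd : DifferentiableOn ℂ z O := by rw [hz]; exact hdiff
  have hU : IsOpen (A.c j).target := (A.c j).open_target
  have hw := η.smooth j
  have hzU : ∀ q ∈ O, z q ∈ (A.c j).target := by
    intro q hq
    rw [hz]
    exact (A.c j).map_source (hmaps hq)
  have hun : ∀ q ∈ O, η.Unit j (z q) (deriv z q) := by
    intro q hq
    rw [hz]
    exact hunit q hq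
  obtain ⟨p, hp⟩ : ∃ p : ℂ → ℂ, p = fun q => ∑ k, pk k (cx (η.w j)) (z q) * deriv z q k :=
    ⟨_, rfl⟩
  have hpd : DifferentiableOn ℂ p (Metric.ball t r) := by
    intro q hq
    have hqO := hball hq
    rw [hp]
    exact (sel_p hU hw hO hqO hzd (hzU q hqO)
      (unit_ker (hun q hqO) (deriv z q))).differentiableWithinAt
  obtain ⟨H, hH⟩ := hpd.isExactOn_ball
  obtain ⟨ψ, hψ⟩ : ∃ ψ : ℂ → ℝ, ψ = fun q => η.w j (z q) - 2 * (H q).re := ⟨_, rfl⟩
  have hψd : ∀ q ∈ Metric.ball t r, HasFDerivAt ψ (0 : ℂ →L[ℝ] ℝ) q := by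
    intro q hq
    have hqO := hball hq
    have hzq : HasDerivAt z (deriv z q) q :=
      (hzd.differentiableAt (hO.mem_nhds hqO)).hasDerivAt
    have hwd : DifferentiableAt ℝ (η.w j) (z q) :=
      (hw.contDiffAt (hU.mem_nhds (hzU q hqO))).differentiableAt (by simp)
    obtain ⟨L₁, hL₁, hL₁u⟩ := sel_chain hzq hwd
    have h2 := ((hH q hq).hasFDerivAt).restrictScalars ℝ
    have h3 := (Complex.reCLM.hasFDerivAt (x := H q)).comp q h2
    have h4 := hL₁.sub (h3.const_mul (2 : ℝ))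
    have h5 : HasFDerivAt ψ (L₁ - (2 : ℝ) • Complex.reCLM.comp
        ((ContinuousLinearMap.toSpanSingleton ℂ (p q)).restrictScalars ℝ)) q := by
      rw [hψ]
      exact h4
    have h6 : (L₁ - (2 : ℝ) • Complex.reCLM.comp
        ((ContinuousLinearMap.toSpanSingleton ℂ (p q)).restrictScalars ℝ)) = 0 := by
      ext u
      have e1 : L₁ u = 2 * (u * d10 (cx (η.w j)) (z q) (deriv z q)).re := by
        rw [hL₁u, sel_w hU hw (hzU q hqO)]
      have e2 : d10 (cx (η.w j)) (z q) (deriv z q) = p q := by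
        rw [d10_eq_sum, hp]
        exact Finset.sum_congr rfl fun k _ => mul_comm _ _
      rw [e2] at e1
      have e3 : (L₁ - (2 : ℝ) • Complex.reCLM.comp
          ((ContinuousLinearMap.toSpanSingleton ℂ (p q)).restrictScalars ℝ)) u
          = L₁ u - 2 * (u * p q).re := rfl
      rw [e3, e1, sub_self]
      rfl
    rw [h6] at h5
    exact h5
  have hconst : ∀ q ∈ Metric.ball t r, ψ q = ψ t := by
    intro q hq
    refine IsOpen.is_const_of_fderiv_eq_zero (𝕜 := ℝ) Metric.isOpen_ball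
      (convex_ball t r).isPreconnected
      (fun x hx => (hψd x hx).differentiableAt.differentiableWithinAt)
      (fun x hx => (hψd x hx).fderiv) hq (Metric.mem_ball_self hr)
  refine ⟨r, hr, fun q => s j (z q) * Complex.exp (-((m : ℂ) * (H q + (ψ t : ℂ) / 2))),
    hball.trans hOW, hmaps.mono_left hball, ?_, ?_⟩
  · intro q hq
    have hqO := hball hq
    have h1 : DifferentiableAt ℂ (s j) (z q) :=
      ((hs.hol j).contDiffAt (hU.mem_nhds (hzU q hqO))).differentiableAt (by simp)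
    have h2 : DifferentiableAt ℂ (fun q => s j (z q)) q :=
      DifferentiableAt.comp q h1 (hzd.differentiableAt (hO.mem_nhds hqO))
    have h3 : DifferentiableAt ℂ H q := (hH q hq).differentiableAt
    exact (h2.mul (((h3.add_const _).const_mul _).neg.cexp)).differentiableWithinAt
  · intro q hq
    have h1 := hconst q hq
    have h2 : η.w j (z q) = 2 * (H q).re + ψ t := by
      rw [← h1, hψ]
      ring
    have h3 : A.c j (Φ q) = z q := by rw [hz]
    rw [h3]
    show ‖s j (z q) * Complex.exp (-((m : ℂ) * (H q + (ψ t : ℂ) / 2)))‖ ^ 2 = _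
    rw [norm_mul, Complex.norm_exp, mul_pow, ← Real.exp_nat_mul, h2]
    congr 2
    have h4 : (-((m : ℂ) * (H q + (ψ t : ℂ) / 2))).re = -(m * ((H q).re + ψ t / 2)) := by
      have e1 : (ψ t : ℂ) / 2 = ((ψ t / 2 : ℝ) : ℂ) := by push_cast; ring
      rw [e1, Complex.neg_re, Complex.re_ofReal_mul, Complex.add_re, Complex.ofReal_re]
    rw [h4]
    push_cast
    ring

end Pool.Agent.CYE
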