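import Pool.Agent.CYE.StG
import Pool.Agent.CYE.SeL
import Pool.Agent.CYE.Mod

/-!
CYE module Fin (size 3): the theorem.
PROOFS. `sec_const`: choose for every `t` a chart `j_t` with `Φ t ∈ (A.c j_t).source` (definition of `IsLeaf`), `f t = ‖s j_t (A.c j_t (Φ t))‖² exp (- m w ..)`; by `hs.norm` the value is the same in every chart containing `Φ t`; `f ≤ R₀` by
`hs.bdd`; `sel` gives the local holomorphic functions; `mod_const`.
`main`: `unit_exists`, `entire`, `leaf_range`, `per`, `sec_const`.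
-/

open scoped ContDiff ComplexConjugate Topology ComplexOrder
open Complex Matrix Set

namespace Pool.Agent.CYE

open Pool.Agent.CYF Pool.Agent.CYN

variable {n : ℕ} {X : Type*} [TopologicalSpace X] {ι κ : Type*} {A : Spc (Fin n) X ι κ}

theorem sec_const {η : Form A} {Φ : ℂ → X} (h : η.IsLeaf univ Φ) {m : ℝ} {s : ι → E n → ℂ}
    (hs : η.IsSection m s) {t t' : ℂ} {j j' : ι} (hj : Φ t ∈ (A.c j).source)
    (hj' : Φ t' ∈ (A.c j').source) :
    ‖s j (A.c j (Φ t))‖ ^ 2 * Real.exp (-(m * η.w j (A.c j (Φ t))))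
      = ‖s j' (A.c j' (Φ t'))‖ ^ 2 * Real.exp (-(m * η.w j' (A.c j' (Φ t')))) := by
  have hex : ∀ q : ℂ, ∃ k : ι, Φ q ∈ (A.c k).source := by
    intro q
    obtain ⟨k, O, -, hqO, hmap, -⟩ := h q (mem_univ q)
    exact ⟨k, hmap hqO⟩
  choose J hJ using hex
  set f : ℂ → ℝ := fun q => ‖s (J q) (A.c (J q) (Φ q))‖ ^ 2 *
    Real.exp (-(m * η.w (J q) (A.c (J q) (Φ q)))) with hf
  have hfe : ∀ (q : ℂ) (k : ι), Φ q ∈ (A.c k).source →
      f q = ‖s k (A.c k (Φ q))‖ ^ 2 * Real.exp (-(m * η.w k (A.c k (Φ q)))) := by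
    intro q k hk
    exact hs.norm k (J q) (Φ q) ⟨hk, hJ q⟩
  obtain ⟨R₀, hR₀⟩ := hs.bdd
  have hbd : ∀ q, f q ≤ R₀ := by
    intro q
    exact hR₀ (J q) _ ((A.c (J q)).map_source (hJ q))
  have hloc : ∀ q : ℂ, ∃ r > 0, ∃ G : ℂ → ℂ, DifferentiableOn ℂ G (Metric.ball q r) ∧
      ∀ p ∈ Metric.ball q r, ‖G p‖ ^ 2 = f p := by
    intro q
    obtain ⟨r, hr, G, -, hmap, hG, hGe⟩ := sel hs isOpen_univ h (mem_univ q) (hJ q)
    refine ⟨r, hr, G, hG, fun p hp => ?_⟩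
    rw [hfe p (J q) (hmap hp)]
    exact hGe p hp
  have hconst := mod_const hbd hloc t t'
  rw [hfe t j hj, hfe t' j' hj'] at hconst
  exact hconst

theorem main [CompactSpace X] [T2Space X] (hA : A.Index1) (η : Form A) (i : ι) (z : E n)
    (hz : η.Reg i z) :
    (∃ a, η.Unit i z a) ∧ ∀ a, η.Unit i z a →
      ∃ Φ : ℂ → X, η.IsLeaf univ Φ ∧ Φ 0 = (A.c i).symm z ∧
        deriv (fun t => A.c i (Φ t)) 0 = a ∧
        range Φ = η.leaf ((A.c i).symm z) ∧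
        (∀ t₁ t₂, Φ t₁ = Φ t₂ → ∀ t, Φ (t₁ + t) = Φ (t₂ + t)) ∧
        ∀ (m : ℝ) (s : ι → E n → ℂ), η.IsSection m s → ∀ (t : ℂ) (j : ι),
          Φ t ∈ (A.c j).source →
            ‖s j (A.c j (Φ t))‖ ^ 2 * Real.exp (-(m * η.w j (A.c j (Φ t))))
              = ‖s i z‖ ^ 2 * Real.exp (-(m * η.w i z)) := by
  refine ⟨unit_exists hz, fun a ha => ?_⟩
  obtain ⟨Φ, hΦ, h0, hd⟩ := entire hA η ha
  refine ⟨Φ, hΦ, h0, hd, ?_, ?_, ?_⟩
  · rw [leaf_range hA hΦ, h0]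
  · intro t₁ t₂ h12 t
    exact per hΦ h12 t
  · intro m s hs t j hj
    have hz' : z ∈ (A.c i).target := hz.1
    have h0s : Φ 0 ∈ (A.c i).source := by
      rw [h0]; exact (A.c i).map_target hz'
    have h0z : A.c i (Φ 0) = z := by
      rw [h0]; exact (A.c i).right_inv hz'
    have hc := sec_const hΦ hs hj h0s
    rw [h0z] at hc
    exact hc

end Pool.Agent.CYE
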