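import Pool.Agent.CYF.Comm

/-!
CYE module Lap (size 4): the Laplacian of a function along a holomorphic curve is four times its Levi form.
PROOF. `levi_hess`: unfold `levi`: `d10 (fun y => d01 (cx g) y a) z a` with `fderiv_d01` (CYF/Comm.lean): `= (D²(a, a) + I D²(a, I a) - I (D²(I a, a) + I D²(I a, I a))) / 4` (`D² = fderiv ℝ (fderiv ℝ (cx g)) z`), symmetric (`symm2`), so
`= (D²(a, a) + D²(I a, I a)) / 4`, and `D²` of `cx g` is the cast of that of `g` (`Complex.ofRealCLM`).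
`lap_comp`: near `t` the curve `c` is holomorphic, so real smooth, `fderiv ℝ (g ∘ c) s v = fderiv ℝ g (c s) (v • c' s)`, `c' = deriv c` is holomorphic (`DifferentiableOn.deriv`). Differentiate in the direction `v`:
`fderiv ℝ (fderiv ℝ (g ∘ c)) t v v = fderiv ℝ (fderiv ℝ g) (c t) (v • c') (v • c') + fderiv ℝ g (c t) (v² • c'')`; the sum for `v = 1` and `v = I` is `D²g (c', c') + D²g (I c', I c')` (`1² + I² = 0`).
-/

open scoped ContDiff ComplexConjugate Topology
open Complex Set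

namespace Pool.Agent.CYE

open Pool.Agent.CYF

variable {n : ℕ}

private theorem Lap_two : (2 : WithTop ℕ∞) ≤ ∞ := WithTop.coe_le_coe.2 le_top

private theorem Lap_cx {g : E n → ℝ} {z : E n} (hg : ContDiffAt ℝ ∞ g z) (v w : E n) :
    fderiv ℝ (fderiv ℝ (cx g)) z v w = ((fderiv ℝ (fderiv ℝ g) z v w : ℝ) : ℂ) := by
  have h1 : ∀ᶠ y in 𝓝 z, ContDiffAt ℝ 2 g y :=
    (hg.of_le Lap_two).eventually (by simp)
  have h2 : fderiv ℝ (cx g) =ᶠ[𝓝 z] fun y => Complex.ofRealCLM.comp (fderiv ℝ g y) := by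
    filter_upwards [h1] with y hy
    have h3 : HasFDerivAt g (fderiv ℝ g y) y := (hy.differentiableAt (by norm_num)).hasFDerivAt
    exact (Complex.ofRealCLM.hasFDerivAt.comp y h3).fderiv
  have h4 : DifferentiableAt ℝ (fderiv ℝ g) z :=
    (hg.fderiv_right (m := ∞) (by simp)).differentiableAt (by simp)
  have h5 : HasFDerivAt (fun y => Complex.ofRealCLM.comp (fderiv ℝ g y))
      ((ContinuousLinearMap.compL ℝ (E n) ℝ ℂ Complex.ofRealCLM).comp
        (fderiv ℝ (fderiv ℝ g) z)) z :=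
    (ContinuousLinearMap.compL ℝ (E n) ℝ ℂ Complex.ofRealCLM).hasFDerivAt.comp z h4.hasFDerivAt
  rw [h2.fderiv_eq, h5.fderiv]
  rfl

theorem levi_hess {g : E n → ℝ} {z : E n} (hg : ContDiffAt ℝ ∞ g z) (a : E n) :
    4 * (levi g z a a).re
      = fderiv ℝ (fderiv ℝ g) z a a + fderiv ℝ (fderiv ℝ g) z (I • a) (I • a) := by
  have hc : ContDiffAt ℝ ∞ (cx g) z := contDiffAt_cx hg
  have h1 : levi g z a a = (fderiv ℝ (fun y => d01 (cx g) y a) z a
      - I * fderiv ℝ (fun y => d01 (cx g) y a) z (I • a)) / 2 := rfl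
  rw [fderiv_d01 hc, fderiv_d01 hc, symm2 hc (I • a) a, Lap_cx hg, Lap_cx hg, Lap_cx hg] at h1
  have hI : (I : ℂ) * I = -1 := I_mul_I
  have h2 : levi g z a a = (((fderiv ℝ (fderiv ℝ g) z a a
      + fderiv ℝ (fderiv ℝ g) z (I • a) (I • a)) / 4 : ℝ) : ℂ) := by
    rw [h1]
    push_cast
    linear_combination (-((fderiv ℝ (fderiv ℝ g) z (I • a) (I • a) : ℝ) : ℂ) / 4) * hI
  rw [h2, Complex.ofReal_re]
  ring

private theorem Lap_second {g : E n → ℝ} {c : ℂ → E n} {O : Set ℂ} (hO : IsOpen O)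
    (hc : DifferentiableOn ℂ c O) {t : ℂ} (ht : t ∈ O) (hg : ContDiffAt ℝ ∞ g (c t)) (v : ℂ) :
    fderiv ℝ (fderiv ℝ fun s => g (c s)) t v v
      = fderiv ℝ (fderiv ℝ g) (c t) (v • deriv c t) (v • deriv c t)
        + fderiv ℝ g (c t) (v • (v • deriv (deriv c) t)) := by
  have hd : ∀ s ∈ O, HasFDerivAt c ((ContinuousLinearMap.toSpanSingleton ℂ
      (deriv c s)).restrictScalars ℝ) s := fun s hs =>
    ((hc.differentiableAt (hO.mem_nhds hs)).hasDerivAt.hasFDerivAt.restrictScalars ℝ)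
  have hd' : HasFDerivAt (deriv c) ((ContinuousLinearMap.toSpanSingleton ℂ
      (deriv (deriv c) t)).restrictScalars ℝ) t :=
    (((hc.deriv hO).differentiableAt (hO.mem_nhds ht)).hasDerivAt.hasFDerivAt.restrictScalars ℝ)
  have hcc : ContinuousAt c t := (hd t ht).continuousAt
  have hg2 : ∀ᶠ y in 𝓝 (c t), ContDiffAt ℝ 2 g y :=
    (hg.of_le Lap_two).eventually (by simp)
  have hev : ∀ᶠ s in 𝓝 t, s ∈ O ∧ ContDiffAt ℝ 2 g (c s) :=
    Filter.Eventually.and (hO.mem_nhds ht : ∀ᶠ s in 𝓝 t, s ∈ O) (hcc.eventually hg2)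
  have hcs : ContDiffAt ℝ 2 (fun s => g (c s)) t := by
    have h1 : ContDiffAt ℂ 2 c t := (hc.analyticAt (hO.mem_nhds ht)).contDiffAt
    have h2 : ContDiffAt ℝ 2 c t := h1.restrict_scalars ℝ
    exact (hg.of_le Lap_two).comp t h2
  have hdG : DifferentiableAt ℝ (fderiv ℝ fun s => g (c s)) t :=
    (hcs.fderiv_right (m := 1) (by norm_num)).differentiableAt (by norm_num)
  have e1 : fderiv ℝ (fderiv ℝ fun s => g (c s)) t v v
      = fderiv ℝ (fun s => fderiv ℝ (fun r => g (c r)) s v) t v := by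
    have h1 := hdG.hasFDerivAt.clm_apply (hasFDerivAt_const v t)
    have h2 := h1.fderiv
    rw [h2]
    simp
  have e2 : (fun s => fderiv ℝ (fun r => g (c r)) s v)
      =ᶠ[𝓝 t] fun s => fderiv ℝ g (c s) (v • deriv c s) := by
    filter_upwards [hev] with s hs
    have h1 : HasFDerivAt (fun r => g (c r)) ((fderiv ℝ g (c s)).comp
        ((ContinuousLinearMap.toSpanSingleton ℂ (deriv c s)).restrictScalars ℝ)) s :=
      (hs.2.differentiableAt (by norm_num)).hasFDerivAt.comp s (hd s hs.1)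
    rw [h1.fderiv]
    rfl
  have hdg : DifferentiableAt ℝ (fderiv ℝ g) (c t) :=
    (hg.fderiv_right (m := ∞) (by simp)).differentiableAt (by simp)
  have h3 : HasFDerivAt (fun s => fderiv ℝ g (c s)) ((fderiv ℝ (fderiv ℝ g) (c t)).comp
      ((ContinuousLinearMap.toSpanSingleton ℂ (deriv c t)).restrictScalars ℝ)) t :=
    hdg.hasFDerivAt.comp t (hd t ht)
  have h4 : HasFDerivAt (fun s => v • deriv c s) (v • ((ContinuousLinearMap.toSpanSingleton ℂ
      (deriv (deriv c) t)).restrictScalars ℝ)) t := hd'.const_smul v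
  have h5 := h3.clm_apply h4
  rw [e1, e2.fderiv_eq, h5.fderiv]
  simp only [_root_.add_apply, ContinuousLinearMap.comp_apply,
    ContinuousLinearMap.flip_apply, _root_.smul_apply,
    ContinuousLinearMap.coe_restrictScalars', ContinuousLinearMap.toSpanSingleton_apply]
  ring

theorem lap_comp {g : E n → ℝ} {c : ℂ → E n} {O : Set ℂ} (hO : IsOpen O)
    (hc : DifferentiableOn ℂ c O) {t : ℂ} (ht : t ∈ O) (hg : ContDiffAt ℝ ∞ g (c t)) :
    fderiv ℝ (fderiv ℝ fun s => g (c s)) t 1 1 + fderiv ℝ (fderiv ℝ fun s => g (c s)) t I I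
      = 4 * (levi g (c t) (deriv c t) (deriv c t)).re := by
  rw [Lap_second hO hc ht hg, Lap_second hO hc ht hg, levi_hess hg, smul_smul I I, I_mul_I,
    one_smul, one_smul, neg_smul, one_smul, map_neg]
  ring

end Pool.Agent.CYE
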