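import Pool.Agent.CYE.Odl

/-!
CYE module Od2 (size 4): a holomorphic curve with unit velocity is a solution of the differential equation.
PROOF. Let `g t = deriv z t m`, `u = uu w m`. By `ha` and `adj_rank` (`z'_k conj (z'_l) = ad l k = ρ u_k conj u_l`, `ρ = rho w m (z t) ≠ 0`, `u_m = 1`): `‖g t‖² = (rho w m (z t)).re`, `g t ≠ 0`,
`deriv z t = g t • u (z t)` for `t ∈ O` (as `unit_eq` in CYE/BsA.lean). `z` and `deriv z` are holomorphic on the open set `O` (`DifferentiableOn.deriv`), so `g` is. Differentiate `‖g‖² = rho ∘ z` at `t` along the real lines `q ↦ t + q v`, `v = 1` and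
`v = I` (`rho_curve` with `c q = z (t + q v)`, `b = v g t`): `2 Re (v conj (g) g') = - 2 Re (v g dv) ‖g‖² = 2 Re (v * (- g² dv) * conj g)`, so `conj g * g' = conj g * (- g² dv)` (equal real parts of `x` and of `I x`),
`g' = - g² dv`.
-/

open scoped ContDiff ComplexConjugate Topology ComplexOrder
open Complex Matrix Set

namespace Pool.Agent.CYE

open Pool.Agent.CYF

variable {n : ℕ} {w : E n → ℝ} {U : Set (E n)} {m : Fin n}

theorem odl2 (hU : IsOpen U) (hw : ContDiffOn ℝ ∞ w U)
    (hp : ∀ z ∈ U, (lm w z).PosSemidef) (hd : ∀ z ∈ U, (lm w z).det = 0)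
    (hu : ∀ k, DifferentiableOn ℂ (uu w m k) (Um w m U)) {z : ℂ → E n} {O : Set ℂ}
    (hO : IsOpen O) (hz : DifferentiableOn ℂ z O) (hm : ∀ t ∈ O, z t ∈ Um w m U)
    (ha : ∀ t ∈ O, ∀ k l, (lm w (z t)).adjugate l k = deriv z t k * conj (deriv z t l)) :
    ∀ t ∈ O, HasDerivAt (fun s => (z s, deriv z s m)) (Fv w m (z t, deriv z t m)) t := by
  have hdz : ∀ s ∈ O, HasDerivAt z (deriv z s) s := fun s hs =>
    ((hz s hs).differentiableAt (hO.mem_nhds hs)).hasDerivAt
  have hz2 : DifferentiableOn ℂ (deriv z) O := hz.deriv hO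
  have hnorm : ∀ s ∈ O, ‖deriv z s m‖ ^ 2 = (rho w m (z s)).re := by
    intro s hs
    have h1 : rho w m (z s) = deriv z s m * conj (deriv z s m) := ha s hs m m
    rw [h1, Complex.mul_conj, Complex.normSq_eq_norm_sq]
    simp only [Complex.ofReal_re]
  have hne : ∀ s ∈ O, deriv z s m ≠ 0 := by
    intro s hs h0
    have h1 : rho w m (z s) = deriv z s m * conj (deriv z s m) := ha s hs m m
    rw [h0, zero_mul] at h1
    exact (hm s hs).2 h1
  have hvel : ∀ s ∈ O, deriv z s = deriv z s m • fun k => uu w m k (z s) := by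
    intro s hs
    funext k
    have h1 : ad w (z s) m m = deriv z s m * conj (deriv z s m) := ha s hs m m
    have h2 : ad w (z s) m k = deriv z s k * conj (deriv z s m) := ha s hs k m
    have h3 := hne s hs
    have h4 : conj (deriv z s m) ≠ 0 := fun h => h3 (by simpa using h)
    rw [Pi.smul_apply, smul_eq_mul, uu, h1, h2]
    field_simp
  intro t ht
  have hg : HasDerivAt (fun s => deriv z s m) (deriv (fun s => deriv z s m) t) t := by
    have h1 : DifferentiableAt ℂ (deriv z) t := (hz2 t ht).differentiableAt (hO.mem_nhds ht)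
    have h2 : DifferentiableAt ℂ (fun s => deriv z s m) t := differentiableAt_pi.1 h1 m
    exact h2.hasDerivAt
  have key : ∀ v : ℂ, (v * deriv (fun s => deriv z s m) t * conj (deriv z t m)).re
      = -((v * deriv z t m * dv w m (z t)).re * (rho w m (z t)).re) := by
    intro v
    have hγ0 : t + ((0 : ℝ) : ℂ) * v = t := by simp
    have hγ : HasDerivAt (fun q : ℝ => t + (q : ℂ) * v) v 0 := by
      have h1 : HasDerivAt (fun q : ℝ => (q : ℂ)) 1 (0 : ℝ) := by
        simpa using (hasDerivAt_id (0 : ℝ)).ofReal_comp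
      simpa using (h1.mul_const v).const_add t
    have hc : HasDerivAt (fun q : ℝ => z (t + (q : ℂ) * v))
        ((v * deriv z t m) • fun k => uu w m k (z (t + ((0 : ℝ) : ℂ) * v))) 0 := by
      have h1 : HasDerivAt z (deriv z t) (t + ((0 : ℝ) : ℂ) * v) := by
        rw [hγ0]; exact hdz t ht
      have h2 := HasDerivAt.scomp (0 : ℝ) h1 hγ
      have h3 : v • deriv z t
          = (v * deriv z t m) • fun k => uu w m k (z (t + ((0 : ℝ) : ℂ) * v)) := by
        rw [hγ0, mul_smul, ← hvel t ht]
      rw [← h3]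
      exact h2
    have hs : z (t + ((0 : ℝ) : ℂ) * v) ∈ Um w m U := by
      rw [hγ0]; exact hm t ht
    have h4 := rho_curve hU hw hp hd (c := fun q : ℝ => z (t + (q : ℂ) * v)) hc hs
    simp only [hγ0] at h4
    have h5 : HasDerivAt (fun q : ℝ => deriv z (t + (q : ℂ) * v) m)
        (v * deriv (fun s => deriv z s m) t) 0 := by
      have h1 : HasDerivAt (fun s => deriv z s m) (deriv (fun s => deriv z s m) t)
          (t + ((0 : ℝ) : ℂ) * v) := by
        rw [hγ0]; exact hg
      exact HasDerivAt.scomp (0 : ℝ) h1 hγ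
    have h6 := h5.norm_sq
    simp only [hγ0] at h6
    have h7 : (fun q : ℝ => ‖deriv z (t + (q : ℂ) * v) m‖ ^ 2)
        =ᶠ[𝓝 0] fun q : ℝ => (rho w m (z (t + (q : ℂ) * v))).re := by
      have h8 : ∀ᶠ q : ℝ in 𝓝 (0 : ℝ), t + (q : ℂ) * v ∈ O := by
        have h9 : Filter.Tendsto (fun q : ℝ => t + (q : ℂ) * v) (𝓝 0) (𝓝 t) := by
          have := hγ.continuousAt.tendsto
          rwa [hγ0] at this
        exact h9.eventually (hO.mem_nhds ht)
      filter_upwards [h8] with q hq
      exact hnorm _ hq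
    have h8 := h6.unique (h4.congr_of_eventuallyEq h7)
    rw [Complex.inner] at h8
    linarith
  have k1 := key 1
  have k2 := key I
  have hn2 := hnorm t ht
  have hre : (rho w m (z t)).re = ‖deriv z t m‖ ^ 2 := hn2.symm
  have hmain : deriv (fun s => deriv z s m) t * conj (deriv z t m)
      = -(deriv z t m ^ 2 * dv w m (z t)) * conj (deriv z t m) := by
    have h6 : deriv z t m * conj (deriv z t m) = ((‖deriv z t m‖ ^ 2 : ℝ) : ℂ) := by
      rw [Complex.mul_conj, Complex.normSq_eq_norm_sq]
    have h7 : -(deriv z t m ^ 2 * dv w m (z t)) * conj (deriv z t m)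
        = -(((‖deriv z t m‖ ^ 2 : ℝ) : ℂ) * (deriv z t m * dv w m (z t))) := by
      rw [← h6]; ring
    rw [h7]
    apply Complex.ext
    · rw [Complex.neg_re, Complex.re_ofReal_mul]
      rw [one_mul, one_mul, hre] at k1
      rw [k1]
      ring
    · rw [Complex.neg_im, Complex.im_ofReal_mul]
      rw [mul_assoc I, Complex.I_mul_re, mul_assoc I, Complex.I_mul_re, hre] at k2
      linarith
  have hder : deriv (fun s => deriv z s m) t = -(deriv z t m ^ 2 * dv w m (z t)) := by
    have h4 : conj (deriv z t m) ≠ 0 := fun h => hne t ht (by simpa using h)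
    exact mul_right_cancel₀ h4 hmain
  have hfin := (hdz t ht).prodMk hg
  have hF : Fv w m (z t, deriv z t m) = (deriv z t, deriv (fun s => deriv z s m) t) := by
    rw [hder]
    have h9 := hvel t ht
    simp only [Fv]
    rw [← h9]
  rw [hF]
  exact hfin

end Pool.Agent.CYE
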