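import Pool.Agent.CYE.Lfb
import Pool.Agent.CYE.Od2

/-!
CYE module Los (size 4): leaf maps and solutions of the differential equation.
PROOFS. `leaf_of_sol`: chart `i`, `O = ball t₁ r` for every point: `A.c i ((A.c i).symm (y t).1) = (y t).1` as `(y t).1 ∈ Um ⊆ (A.c i).target`; the first component of `HasDerivAt y` is
`HasDerivAt (fun t => (y t).1) ((y t).2 • u (y t).1) t`, so `deriv = (y t).2 • u`; `odl1` (`psd`, `η.det_eq_zero`, `hol_uu`, `η.smooth`), `unit_of`.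
`sol_of_leaf`: `leaf_chart` at `t₁`, shrink `O` so that `A.c i (Φ s) ∈ Um (η.w i) m (A.c i).target` on it (open, `kf_of`; continuity); `odl2` with `z = A.c i ∘ Φ` (the third component of `Unit`); `unit_eq` at `t₁`.
-/

open scoped ContDiff ComplexConjugate Topology ComplexOrder
open Complex Matrix Set

namespace Pool.Agent.CYE

open Pool.Agent.CYF Pool.Agent.CYN

variable {n : ℕ} {X : Type*} [TopologicalSpace X] {ι κ : Type*} {A : Spc (Fin n) X ι κ}
  {η : Form A}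

theorem leaf_of_sol [CompactSpace X] [T2Space X] {i : ι} {m : Fin n} {y : ℂ → E n × ℂ} {t₁ : ℂ}
    {r : ℝ} (hy : ∀ t ∈ Metric.ball t₁ r, y t ∈ Um (η.w i) m (A.c i).target ×ˢ univ ∧
      HasDerivAt y (Fv (η.w i) m (y t)) t)
    (h0 : ‖(y t₁).2‖ ^ 2 = (rho (η.w i) m (y t₁).1).re) :
    η.IsLeaf (Metric.ball t₁ r) (fun t => (A.c i).symm (y t).1) := by
  have hopen := (A.c i).open_target
  have hn := odl1 hopen (η.smooth i) (fun z hz => psd η hz) (fun z hz => η.det_eq_zero i z hz)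
    (fun k => hol_uu η i m k) hy h0
  have hmem : ∀ t ∈ Metric.ball t₁ r, (y t).1 ∈ (A.c i).target := fun t ht => (hy t ht).1.1.1
  have hrho : ∀ t ∈ Metric.ball t₁ r, rho (η.w i) m (y t).1 ≠ 0 := fun t ht => (hy t ht).1.1.2
  have heq : ∀ t ∈ Metric.ball t₁ r, A.c i ((A.c i).symm (y t).1) = (y t).1 :=
    fun t ht => (A.c i).right_inv (hmem t ht)
  have hd : ∀ t ∈ Metric.ball t₁ r, HasDerivAt (fun s => A.c i ((A.c i).symm (y s).1))
      ((y t).2 • fun k => uu (η.w i) m k (y t).1) t := by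
    intro t ht
    have h1 : HasDerivAt (fun s => (y s).1) ((y t).2 • fun k => uu (η.w i) m k (y t).1) t :=
      (ContinuousLinearMap.fst ℂ (E n) ℂ).hasFDerivAt.comp_hasDerivAt t (hy t ht).2
    refine h1.congr_of_eventuallyEq ?_
    filter_upwards [Metric.isOpen_ball.mem_nhds ht] with s hs
    exact heq s hs
  intro t ht
  refine ⟨i, Metric.ball t₁ r, Metric.isOpen_ball, ht, ?_, ?_, ?_⟩
  · intro s hs
    exact (A.c i).map_target (hmem s hs)
  · intro s hs
    exact (hd s hs).differentiableAt.differentiableWithinAt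
  · intro s hs
    have h1 := (hd s hs).deriv
    show η.Unit i (A.c i ((A.c i).symm (y s).1)) (deriv (fun q => A.c i ((A.c i).symm (y q).1)) s)
    rw [h1, heq s hs]
    exact unit_of (hmem s hs) (hrho s hs) (hn s hs)

theorem sol_of_leaf [CompactSpace X] [T2Space X] {i : ι} {m : Fin n} {W : Set ℂ} {Φ : ℂ → X}
    {t₁ : ℂ} (hW : IsOpen W) (h : η.IsLeaf W Φ) (ht : t₁ ∈ W) (hi : Φ t₁ ∈ (A.c i).source)
    (hm : rho (η.w i) m (A.c i (Φ t₁)) ≠ 0) :
    ‖deriv (fun s => A.c i (Φ s)) t₁ m‖ ^ 2 = (rho (η.w i) m (A.c i (Φ t₁))).re ∧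
    ∀ᶠ t in 𝓝 t₁, Φ t ∈ (A.c i).source ∧
      (A.c i (Φ t), deriv (fun s => A.c i (Φ s)) t m) ∈ Um (η.w i) m (A.c i).target ×ˢ univ ∧
      HasDerivAt (fun s => (A.c i (Φ s), deriv (fun s => A.c i (Φ s)) s m))
        (Fv (η.w i) m (A.c i (Φ t), deriv (fun s => A.c i (Φ s)) t m)) t := by
  obtain ⟨O, hO, htO, hOW, hmaps, hdiff, hunit⟩ := leaf_chart hW h ht hi
  refine ⟨(unit_eq (hunit t₁ htO) hm).2.1, ?_⟩
  have hopen := (A.c i).open_target
  have hUm : IsOpen (Um (η.w i) m (A.c i).target) :=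
    (kf_of hopen (η.smooth i) (fun z hz => psd η hz) (fun z hz => η.det_eq_zero i z hz) m).isOpen
  have hO' : IsOpen (O ∩ (fun s => A.c i (Φ s)) ⁻¹' Um (η.w i) m (A.c i).target) :=
    hdiff.continuousOn.isOpen_inter_preimage hO hUm
  have ht' : t₁ ∈ O ∩ (fun s => A.c i (Φ s)) ⁻¹' Um (η.w i) m (A.c i).target :=
    ⟨htO, (A.c i).map_source hi, hm⟩
  have key := odl2 hopen (η.smooth i) (fun z hz => psd η hz) (fun z hz => η.det_eq_zero i z hz)
    (fun k => hol_uu η i m k) hO' (hdiff.mono Set.inter_subset_left) (fun t ht => ht.2)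
    (fun t ht k l => (hunit t ht.1).2.2 k l)
  filter_upwards [hO'.mem_nhds ht'] with t ht2
  exact ⟨hmaps ht2.1, ⟨ht2.2, Set.mem_univ _⟩, key t ht2⟩

end Pool.Agent.CYE
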