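import Pool.Agent.CYF.Lgk

/-!
CYE module OdF (size 3): the vector field of the leaf flow, `dv w m z = ∑_k ∂_k u_k = tr E` for the kernel field `u = uu w m`, `Fv (z, g) = (g u(z), - g² dv(z))`.
PROOFS. `dv_hol`: `uu w m k` is holomorphic (`hu`) and smooth (`kf_of`) on the open set `Um w m U`, so `pb j (uu w m k) = 0` there (`d01_of_diff`), `pb j (pk k (uu ..)) = pk k (pb j (uu ..)) = 0`
(`pk_pb_comm`, `pk_congr`), `diff_of_pb` (CYF/Comm.lean). `Fv_hol`, `Fv_smooth`: `differentiableOn_pi`, compositions with `Prod.fst`, `Prod.snd`; smooth: `contDiffOn_pk`, `kf_of`.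
-/

open scoped ContDiff ComplexConjugate Topology ComplexOrder
open Complex Matrix Set

namespace Pool.Agent.CYE

open Pool.Agent.CYF

variable {n : ℕ} {w : E n → ℝ} {U : Set (E n)} {m : Fin n}

/-- the divergence of the kernel field -/
noncomputable def dv (w : E n → ℝ) (m : Fin n) (z : E n) : ℂ := (Ex (fun k => uu w m k) z).trace

/-- the vector field of the leaf flow -/
noncomputable def Fv (w : E n → ℝ) (m : Fin n) (p : E n × ℂ) : E n × ℂ :=
  (p.2 • fun k => uu w m k p.1, -(p.2 ^ 2 * dv w m p.1))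

theorem dv_hol (hU : IsOpen U) (hw : ContDiffOn ℝ ∞ w U)
    (hp : ∀ z ∈ U, (lm w z).PosSemidef) (hd : ∀ z ∈ U, (lm w z).det = 0)
    (hu : ∀ k, DifferentiableOn ℂ (uu w m k) (Um w m U)) :
    DifferentiableOn ℂ (dv w m) (Um w m U) := by
  have K := kf_of hU hw hp hd m
  have hO := K.isOpen
  have h1 : ∀ k, DifferentiableOn ℂ (pk k (uu w m k)) (Um w m U) := by
    intro k z hz
    apply DifferentiableAt.differentiableWithinAt
    have hs : ContDiffOn ℝ ∞ (pk k (uu w m k)) (Um w m U) := contDiffOn_pk hO (K.su k) k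
    apply diff_of_pb (diffAt_of hO hs hz)
    intro j
    have hc : ContDiffAt ℝ ∞ (uu w m k) z := (K.su k).contDiffAt (hO.mem_nhds hz)
    rw [← pk_pb_comm hc k j]
    have h0 : pb j (uu w m k) =ᶠ[𝓝 z] fun _ => 0 := by
      filter_upwards [hO.mem_nhds hz] with y hy
      exact d01_of_diff ((hu k).differentiableAt (hO.mem_nhds hy)) _
    rw [pk_congr h0]
    exact d10_const 0
  have h2 : dv w m = fun z => ∑ k, pk k (uu w m k) z := by
    funext z
    simp [dv, Ex, Matrix.trace]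
  rw [h2]
  exact DifferentiableOn.fun_sum fun k _ => h1 k

theorem Fv_hol (hU : IsOpen U) (hw : ContDiffOn ℝ ∞ w U)
    (hp : ∀ z ∈ U, (lm w z).PosSemidef) (hd : ∀ z ∈ U, (lm w z).det = 0)
    (hu : ∀ k, DifferentiableOn ℂ (uu w m k) (Um w m U)) :
    DifferentiableOn ℂ (Fv w m) (Um w m U ×ˢ univ) := by
  have hdv := dv_hol hU hw hp hd hu
  have hm : MapsTo (Prod.fst : E n × ℂ → E n) (Um w m U ×ˢ univ) (Um w m U) := fun p hp => hp.1
  unfold Fv
  refine DifferentiableOn.prodMk ?_ ?_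
  · rw [differentiableOn_pi]
    intro k
    have h3 : DifferentiableOn ℂ (fun p : E n × ℂ => p.2 * uu w m k p.1) (Um w m U ×ˢ univ) :=
      DifferentiableOn.mul differentiableOn_snd ((hu k).comp differentiableOn_fst hm)
    exact h3
  · exact DifferentiableOn.neg (DifferentiableOn.mul (differentiableOn_snd.pow 2)
      (hdv.comp differentiableOn_fst hm))

theorem Fv_smooth (hU : IsOpen U) (hw : ContDiffOn ℝ ∞ w U)
    (hp : ∀ z ∈ U, (lm w z).PosSemidef) (hd : ∀ z ∈ U, (lm w z).det = 0) :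
    ContDiffOn ℝ ∞ (Fv w m) (Um w m U ×ˢ univ) := by
  have K := kf_of hU hw hp hd m
  have hO := K.isOpen
  have hm : MapsTo (Prod.fst : E n × ℂ → E n) (Um w m U ×ˢ univ) (Um w m U) := fun p hp => hp.1
  have h2 : dv w m = fun z => ∑ k, pk k (uu w m k) z := by
    funext z
    simp [dv, Ex, Matrix.trace]
  have hdv : ContDiffOn ℝ ∞ (dv w m) (Um w m U) := by
    rw [h2]
    exact ContDiffOn.sum fun k _ => contDiffOn_pk hO (K.su k) k
  unfold Fv
  refine ContDiffOn.prodMk ?_ ?_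
  · rw [contDiffOn_pi]
    intro k
    have h3 : ContDiffOn ℝ ∞ (fun p : E n × ℂ => p.2 * uu w m k p.1) (Um w m U ×ˢ univ) :=
      ContDiffOn.mul contDiffOn_snd ((K.su k).comp contDiffOn_fst hm)
    exact h3
  · exact ContDiffOn.neg (ContDiffOn.mul (contDiffOn_snd.pow 2)
      (hdv.comp contDiffOn_fst hm))

end Pool.Agent.CYE
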