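import Pool.Agent.CYE.OdF

/-!
CYE module Odl (size 4): unit vectors along a solution of the differential equation.
PROOFS. `rho_curve`: chain rule: `fderiv ℝ (fun y => (rho w m y).re) z v = 2 Re (d10 (rho w m) z v)` because `rho w m` is real on `U` (near `z`) (`adj_diag_real`; `d01 = conj d10` for real functions: write
`rho w m = cx (re rho)` near `z`, `pk_cx`, or unfold `d10`: `fderiv ℝ f v = d10 f v + d01 f v`), `d10 (rho w m) z (b • u) = b * Dd u (rho w m) z = - b * dv w m z * rho w m z` (`d10_eq_sum`, `Dd_rho`).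
`odl1`: for `t ∈ ball t₁ r`, `v = t - t₁`, `h s = (rho w m (z (t₁ + s v))).re - ‖g (t₁ + s v)‖²`, `s ∈ [0, 1]` (`y = (z, g)`). `h' = - 2 Re (v g dv) h` (`rho_curve` with `b = v g`; `(‖g‖²)' = 2 Re (conj g * v * g')
= - 2 Re (v g dv) ‖g‖²`). `|h'| ≤ K |h|` on `[0, 1]` with `K` from compactness (`g`, `z` continuous, `dv` continuous on `Um`), `h 0 = 0`: `eq_zero_of_abs_deriv_le_mul_abs_self_of_eq_zero_right`
(Mathlib/Analysis/ODE/Gronwall.lean).
-/

open scoped ContDiff ComplexConjugate Topology ComplexOrder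
open Complex Matrix Set

namespace Pool.Agent.CYE

open Pool.Agent.CYF

variable {n : ℕ} {w : E n → ℝ} {U : Set (E n)} {m : Fin n}

theorem rho_curve (hU : IsOpen U) (hw : ContDiffOn ℝ ∞ w U)
    (hp : ∀ z ∈ U, (lm w z).PosSemidef) (hd : ∀ z ∈ U, (lm w z).det = 0) {c : ℝ → E n} {s : ℝ}
    {b : ℂ} (hc : HasDerivAt c (b • fun k => uu w m k (c s)) s) (hs : c s ∈ Um w m U) :
    HasDerivAt (fun q => (rho w m (c q)).re)
      (-(2 * (b * dv w m (c s)).re * (rho w m (c s)).re)) s := by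
  have hK := kf_of hU hw hp hd m
  have hN : Um w m U ∈ 𝓝 (c s) := hK.isOpen.mem_nhds hs
  have hR : DifferentiableAt ℝ (rho w m) (c s) := diffAt_of hU (contDiffOn_ad hU hw m m) hs.1
  have hre : HasFDerivAt (fun y => (rho w m y).re) (Complex.reCLM.comp (fderiv ℝ (rho w m) (c s)))
      (c s) := Complex.reCLM.hasFDerivAt.comp (c s) hR.hasFDerivAt
  have him : HasFDerivAt (fun y => (rho w m y).im) (Complex.imCLM.comp (fderiv ℝ (rho w m) (c s)))
      (c s) := Complex.imCLM.hasFDerivAt.comp (c s) hR.hasFDerivAt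
  have him0 : (Complex.imCLM.comp (fderiv ℝ (rho w m) (c s))) = (0 : E n →L[ℝ] ℝ) := by
    have h1 : (fun y => (rho w m y).im) =ᶠ[𝓝 (c s)] fun _ => (0 : ℝ) := by
      filter_upwards [hN] with y hy
      exact (Lgk_rho hp hy).1
    have h2 : HasFDerivAt (fun _ : E n => (0 : ℝ)) (0 : E n →L[ℝ] ℝ) (c s) :=
      hasFDerivAt_const (0 : ℝ) (c s)
    exact him.unique (h2.congr_of_eventuallyEq h1)
  have hi : ∀ a : E n, (fderiv ℝ (rho w m) (c s) a).im = 0 := fun a => by
    have := congrArg (fun L : E n →L[ℝ] ℝ => L a) him0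
    simpa using this
  have h3 := hre.comp_hasDerivAt s hc
  have h4 : (Complex.reCLM.comp (fderiv ℝ (rho w m) (c s))) (b • fun k => uu w m k (c s))
      = -(2 * (b * dv w m (c s)).re * (rho w m (c s)).re) := by
    have e1 : d10 (rho w m) (c s) (b • fun k => uu w m k (c s))
        = b * (-rho w m (c s) * dv w m (c s)) := by
      rw [d10_smul_vec, ← Dd_eq, Dd_rho hU hw hp hd hs]
      rfl
    have e2 : 2 * (d10 (rho w m) (c s) (b • fun k => uu w m k (c s))).re
        = (fderiv ℝ (rho w m) (c s) (b • fun k => uu w m k (c s))).re := by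
      have i1 := hi (I • (b • fun k => uu w m k (c s)))
      unfold d10
      rw [Complex.div_ofNat_re, Complex.sub_re, Complex.I_mul_re, i1]
      ring
    have e3 : (Complex.reCLM.comp (fderiv ℝ (rho w m) (c s))) (b • fun k => uu w m k (c s))
        = (fderiv ℝ (rho w m) (c s) (b • fun k => uu w m k (c s))).re := rfl
    rw [e3, ← e2, e1]
    have e4 : b * (-rho w m (c s) * dv w m (c s)) = -(rho w m (c s) * (b * dv w m (c s))) := by
      ring
    rw [e4, Complex.neg_re, Complex.mul_re, (Lgk_rho hp hs).1]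
    ring
  rw [← h4]
  exact h3

theorem odl1 (hU : IsOpen U) (hw : ContDiffOn ℝ ∞ w U)
    (hp : ∀ z ∈ U, (lm w z).PosSemidef) (hd : ∀ z ∈ U, (lm w z).det = 0)
    (hu : ∀ k, DifferentiableOn ℂ (uu w m k) (Um w m U)) {y : ℂ → E n × ℂ} {t₁ : ℂ} {r : ℝ}
    (hy : ∀ t ∈ Metric.ball t₁ r, y t ∈ Um w m U ×ˢ univ ∧ HasDerivAt y (Fv w m (y t)) t)
    (h0 : ‖(y t₁).2‖ ^ 2 = (rho w m (y t₁).1).re) :
    ∀ t ∈ Metric.ball t₁ r, ‖(y t).2‖ ^ 2 = (rho w m (y t).1).re := by
  intro t ht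
  set v : ℂ := t - t₁ with hv
  set γ : ℝ → ℂ := fun q => t₁ + (q : ℂ) * v with hγ
  have hγd : ∀ q, HasDerivAt γ v q := by
    intro q
    have h1 : HasDerivAt (fun q : ℝ => (q : ℂ)) 1 q := by
      simpa using (hasDerivAt_id q).ofReal_comp
    have h2 := (h1.mul_const v).const_add t₁
    simpa [hγ] using h2
  have hball : ∀ q ∈ Set.Icc (0 : ℝ) 1, γ q ∈ Metric.ball t₁ r := by
    intro q hq
    rw [Metric.mem_ball, dist_eq_norm] at ht ⊢
    have h1 : γ q - t₁ = (q : ℂ) * v := by simp [hγ]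
    rw [h1, norm_mul, Complex.norm_real, Real.norm_eq_abs, abs_of_nonneg hq.1]
    have h2 : ‖v‖ < r := ht
    have h3 : q * ‖v‖ ≤ 1 * ‖v‖ := mul_le_mul_of_nonneg_right hq.2 (norm_nonneg v)
    linarith
  have hyd : ∀ q ∈ Set.Icc (0 : ℝ) 1, HasDerivAt (fun q => y (γ q)) (v • Fv w m (y (γ q))) q := by
    intro q hq
    exact HasDerivAt.scomp q ((hy _ (hball q hq)).2) (hγd q)
  have hy1 : ∀ q ∈ Set.Icc (0 : ℝ) 1, HasDerivAt (fun q => (y (γ q)).1)
      ((v * (y (γ q)).2) • fun k => uu w m k (y (γ q)).1) q := by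
    intro q hq
    have h1 : HasDerivAt (fun q => (y (γ q)).1) (v • Fv w m (y (γ q))).1 q :=
      (ContinuousLinearMap.fst ℝ (E n) ℂ).hasFDerivAt.comp_hasDerivAt q (hyd q hq)
    have h2 : (v • Fv w m (y (γ q))).1 = (v * (y (γ q)).2) • fun k => uu w m k (y (γ q)).1 := by
      simp [Fv, smul_smul]
    rw [h2] at h1
    exact h1
  have hy2 : ∀ q ∈ Set.Icc (0 : ℝ) 1, HasDerivAt (fun q => (y (γ q)).2)
      (v * -((y (γ q)).2 ^ 2 * dv w m (y (γ q)).1)) q := by
    intro q hq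
    have h1 : HasDerivAt (fun q => (y (γ q)).2) (v • Fv w m (y (γ q))).2 q :=
      (ContinuousLinearMap.snd ℝ (E n) ℂ).hasFDerivAt.comp_hasDerivAt q (hyd q hq)
    have h2 : (v • Fv w m (y (γ q))).2 = v * -((y (γ q)).2 ^ 2 * dv w m (y (γ q)).1) := by
      simp [Fv]
    rw [h2] at h1
    exact h1
  have hUm : ∀ q ∈ Set.Icc (0 : ℝ) 1, (y (γ q)).1 ∈ Um w m U := fun q hq =>
    (hy _ (hball q hq)).1.1
  set κ : ℝ → ℝ := fun q => (v * (y (γ q)).2 * dv w m (y (γ q)).1).re with hκ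
  set h : ℝ → ℝ := fun q => (rho w m (y (γ q)).1).re - ‖(y (γ q)).2‖ ^ 2 with hh
  have hder : ∀ q ∈ Set.Icc (0 : ℝ) 1, HasDerivAt h (-(2 * κ q) * h q) q := by
    intro q hq
    have h1 := rho_curve hU hw hp hd (hy1 q hq) (hUm q hq)
    have h2 := (hy2 q hq).norm_sq
    have h3 := h1.sub h2
    have h4 : (-(2 * (v * (y (γ q)).2 * dv w m (y (γ q)).1).re * (rho w m (y (γ q)).1).re)
        - 2 * inner ℝ (y (γ q)).2 (v * -((y (γ q)).2 ^ 2 * dv w m (y (γ q)).1)))
        = -(2 * κ q) * h q := by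
      rw [Complex.inner]
      have h5 : v * -((y (γ q)).2 ^ 2 * dv w m (y (γ q)).1) * conj (y (γ q)).2
          = -(((‖(y (γ q)).2‖ ^ 2 : ℝ) : ℂ) * (v * (y (γ q)).2 * dv w m (y (γ q)).1)) := by
        have h6 : (y (γ q)).2 * conj (y (γ q)).2 = ((‖(y (γ q)).2‖ ^ 2 : ℝ) : ℂ) := by
          rw [Complex.mul_conj, Complex.normSq_eq_norm_sq]
        rw [← h6]
        ring
      rw [h5, Complex.neg_re, Complex.re_ofReal_mul]
      simp only [hκ, hh]
      ring
    rw [h4] at h3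
    exact h3
  have hcont : ContinuousOn κ (Set.Icc (0 : ℝ) 1) := by
    have c1 : ContinuousOn (fun q => (y (γ q)).1) (Set.Icc (0 : ℝ) 1) := fun q hq =>
      (hy1 q hq).continuousAt.continuousWithinAt
    have c2 : ContinuousOn (fun q => (y (γ q)).2) (Set.Icc (0 : ℝ) 1) := fun q hq =>
      (hy2 q hq).continuousAt.continuousWithinAt
    have c3 : ContinuousOn (fun q => dv w m (y (γ q)).1) (Set.Icc (0 : ℝ) 1) :=
      (dv_hol hU hw hp hd hu).continuousOn.comp c1 hUm
    exact Complex.continuous_re.comp_continuousOn ((continuousOn_const.mul c2).mul c3)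
  obtain ⟨C, hC⟩ := isCompact_Icc.exists_bound_of_continuousOn hcont
  have hz := eq_zero_of_abs_deriv_le_mul_abs_self_of_eq_zero_right (f := h)
    (f' := fun q => -(2 * κ q) * h q) (K := 2 * C) (a := 0) (b := 1)
    (fun q hq => (hder q hq).continuousAt.continuousWithinAt)
    (fun q hq => (hder q ⟨hq.1, hq.2.le⟩).hasDerivWithinAt)
    (by
      have : γ 0 = t₁ := by simp [hγ]
      simp only [hh, this]
      rw [h0]
      ring)
    (fun q hq => by
      rw [norm_mul, norm_neg, norm_mul]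
      have h1 := hC q ⟨hq.1, hq.2.le⟩
      have h2 : ‖(2 : ℝ)‖ = 2 := by norm_num
      rw [h2]
      exact mul_le_mul_of_nonneg_right (by linarith) (norm_nonneg _))
    1 (by simp)
  have h7 : γ 1 = t := by simp [hγ, hv]
  simp only [hh, h7] at hz
  linarith

end Pool.Agent.CYE
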