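import Pool.Agent.CYE.Loe
import Pool.Agent.CYE.Idn

/-!
CYE module Per (size 4): two entire leaf maps that meet, periods.
PROOFS. `two`: take a chart `i` at `x = Φ t₁ = Ψ t₂` and `z = A.c i x`. `a = deriv (A.c i ∘ Φ) t₁` and `b = deriv (A.c i ∘ Ψ) t₂` are unit vectors at `z` (`leaf_chart`), so `b = v • a`, `‖v‖ = 1` (`unit_unit`). `Φ' t = Φ (t₁ + v t)` and
`Ψ' t = Ψ (t₂ + 1 * t)` are leaf maps on `univ` (`leaf_affine`), `Φ' 0 = Ψ' 0`, with the same derivative `v • a = b` in the chart `i` at `0`; `luq`, then `leaf_idn` on `univ`.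
`per`: `two` for `Φ, Φ`: `Φ (t₂ + t) = Φ (t₁ + v t)` for all `t`. If `v = 1` done. If `v ≠ 1` put `t* = (t₂ - t₁) / (v - 1)`, `s* = t₂ + t* = t₁ + v t*`: `Φ (s* + h) = Φ (s* + v h)` for all `h`. In a chart at `Φ s*` the derivatives at
`h = 0` give `b = v • b` with `b ≠ 0` (unit vector), so `v = 1`, a contradiction.
`ran`: from `two`: `Ψ q = Φ (t₁ + v (q - t₂))` and `Φ q = Ψ (t₂ + v⁻¹ (q - t₁))`.
-/

open scoped ContDiff ComplexConjugate Topology ComplexOrder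
open Complex Matrix Set

namespace Pool.Agent.CYE

open Pool.Agent.CYF Pool.Agent.CYN

variable {n : ℕ} {X : Type*} [TopologicalSpace X] {ι κ : Type*} {A : Spc (Fin n) X ι κ}
  {η : Form A} {Φ Ψ : ℂ → X}

private theorem Per_deriv {f : ℂ → E n} {t₁ v : ℂ} (hf : DifferentiableAt ℂ f t₁) :
    HasDerivAt (fun s => f (t₁ + v * s)) (v • deriv f t₁) 0 := by
  have h1 : HasDerivAt (fun s : ℂ => t₁ + v * s) v 0 := by
    simpa using ((hasDerivAt_id (0 : ℂ)).const_mul v).const_add t₁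
  have h2 : HasDerivAt f (deriv f t₁) (t₁ + v * 0) := by
    simpa using hf.hasDerivAt
  exact h2.scomp (0 : ℂ) h1

theorem two [CompactSpace X] [T2Space X] (hΦ : η.IsLeaf univ Φ) (hΨ : η.IsLeaf univ Ψ)
    {t₁ t₂ : ℂ} (h : Φ t₁ = Ψ t₂) :
    ∃ v : ℂ, ‖v‖ = 1 ∧ ∀ t, Ψ (t₂ + t) = Φ (t₁ + v * t) := by
  obtain ⟨i, O₀, -, ht₀, hm₀, -⟩ := hΦ t₁ (mem_univ _)
  have hi : Φ t₁ ∈ (A.c i).source := hm₀ ht₀
  have hi' : Ψ t₂ ∈ (A.c i).source := h ▸ hi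
  obtain ⟨O, hO, htO, -, hmO, hdO, huO⟩ := leaf_chart isOpen_univ hΦ (mem_univ t₁) hi
  obtain ⟨O', hO', htO', -, hmO', hdO', huO'⟩ := leaf_chart isOpen_univ hΨ (mem_univ t₂) hi'
  have hua := huO t₁ htO
  have hub := huO' t₂ htO'
  rw [← h] at hub
  obtain ⟨v, hv, hvb⟩ := unit_unit hua hub
  refine ⟨v, hv, fun t => ?_⟩
  have h1 : η.IsLeaf univ (fun t => Φ (t₁ + v * t)) := by
    have := leaf_affine hΦ t₁ hv
    rwa [preimage_univ] at this
  have h2 : η.IsLeaf univ (fun t => Ψ (t₂ + 1 * t)) := by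
    have := leaf_affine hΨ t₂ (v := 1) (by simp)
    rwa [preimage_univ] at this
  have d1 : HasDerivAt (fun s => A.c i (Φ (t₁ + v * s)))
      (v • deriv (fun r => A.c i (Φ r)) t₁) 0 :=
    Per_deriv (f := fun r => A.c i (Φ r)) (hdO.differentiableAt (hO.mem_nhds htO))
  have d2 : HasDerivAt (fun s => A.c i (Ψ (t₂ + 1 * s)))
      ((1 : ℂ) • deriv (fun r => A.c i (Ψ r)) t₂) 0 :=
    Per_deriv (f := fun r => A.c i (Ψ r)) (hdO'.differentiableAt (hO'.mem_nhds htO'))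
  have he : (fun t => Φ (t₁ + v * t)) =ᶠ[𝓝 0] (fun t => Ψ (t₂ + 1 * t)) := by
    refine luq (i := i) isOpen_univ h1 h2 (mem_univ 0) ?_ ?_ ?_
    · simpa using hi
    · simpa using h
    · rw [d1.deriv, d2.deriv, one_smul, hvb]
  have := leaf_idn isOpen_univ isPreconnected_univ h1 h2 (mem_univ 0) he t (mem_univ t)
  simpa using this.symm

theorem per [CompactSpace X] [T2Space X] (hΦ : η.IsLeaf univ Φ) {t₁ t₂ : ℂ}
    (h : Φ t₁ = Φ t₂) (t : ℂ) : Φ (t₁ + t) = Φ (t₂ + t) := by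
  obtain ⟨v, hv, hvt⟩ := two hΦ hΦ h
  by_cases hv1 : v = 1
  · rw [hvt t, hv1, one_mul]
  exfalso
  have hv0 : v - 1 ≠ 0 := sub_ne_zero.2 hv1
  obtain ⟨s, hs⟩ : ∃ s : ℂ, s = t₁ + v * (s - t₂) := by
    refine ⟨t₂ + (t₂ - t₁) / (v - 1), ?_⟩
    field_simp
    ring
  have hfix : ∀ r, Φ (s + r) = Φ (s + v * r) := by
    intro r
    have h1 := hvt (s - t₂ + r)
    have e1 : t₂ + (s - t₂ + r) = s + r := by ring
    have e2 : t₁ + v * (s - t₂ + r) = s + v * r := by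
      rw [mul_add, ← add_assoc, ← hs]
    rwa [e1, e2] at h1
  obtain ⟨i, O, hO, htO, hmO, hdO, huO⟩ := hΦ s (mem_univ _)
  have hdf : DifferentiableAt ℂ (fun r => A.c i (Φ r)) s := hdO.differentiableAt (hO.mem_nhds htO)
  have d1 : HasDerivAt (fun r => A.c i (Φ (s + v * r)))
      (v • deriv (fun r => A.c i (Φ r)) s) 0 := Per_deriv (f := fun r => A.c i (Φ r)) hdf
  have d2 : HasDerivAt (fun r => A.c i (Φ (s + 1 * r)))
      ((1 : ℂ) • deriv (fun r => A.c i (Φ r)) s) 0 := Per_deriv (f := fun r => A.c i (Φ r)) hdf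
  have hfe : (fun r => A.c i (Φ (s + 1 * r))) = (fun r => A.c i (Φ (s + v * r))) := by
    funext r
    rw [one_mul, hfix r]
  rw [hfe] at d2
  have hd := d1.unique d2
  have hne : deriv (fun r => A.c i (Φ r)) s ≠ 0 := (huO s htO).2.1
  have h0 : (v - 1) • deriv (fun r => A.c i (Φ r)) s = 0 := by
    rw [sub_smul, hd, sub_self]
  rcases smul_eq_zero.1 h0 with h | h
  · exact hv0 h
  · exact hne h

theorem ran [CompactSpace X] [T2Space X] (hΦ : η.IsLeaf univ Φ) (hΨ : η.IsLeaf univ Ψ)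
    {t₁ t₂ : ℂ} (h : Φ t₁ = Ψ t₂) : range Φ = range Ψ := by
  obtain ⟨v, hv, hvt⟩ := two hΦ hΨ h
  have hv0 : v ≠ 0 := by
    rintro rfl
    simp at hv
  apply Subset.antisymm
  · rintro _ ⟨q, rfl⟩
    refine ⟨t₂ + v⁻¹ * (q - t₁), ?_⟩
    rw [hvt, mul_inv_cancel_left₀ hv0]
    congr 1
    ring
  · rintro _ ⟨q, rfl⟩
    refine ⟨t₁ + v * (q - t₂), ?_⟩
    rw [← hvt]
    congr 1
    ring

end Pool.Agent.CYE
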