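import Pool.Agent.CYE.Shl
import Pool.Agent.CYE.Lap
import Pool.Agent.CYE.DefsP
import Pool.Agent.CYE.Lfb

/-!
CYE module Pot (size 3): a potential `f` (`η + i ∂∂̄ f ≥ 0`, `f` bounded above) is constant on the leaves.
PROOF. `F = f ∘ Φ : ℂ → ℝ`. At `t` take the chart `i` and `O` of the definition of `IsLeaf`; on `O`: `F s = g (c s)`, `g y = f ((A.c i).symm y)` smooth on `(A.c i).target`, `c = A.c i ∘ Φ` holomorphic. So `F` is smooth near `t` and, by `lap_comp`
(`Filter.EventuallyEq.fderiv`), its Laplacian at `t` is `4 (levi g (c t) a a).re`, `a = deriv c t`. `levi` is additive in the function (`levi_hess`, or unfold), so `levi g a a = levi (w + g) a a - levi w a a`, `levi (η.w i) (c t) a a = 0`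
(`unit_ker`), so the Laplacian is `≥ 0` (`nonneg`). `F ≤ R` (`bdd`). `shl`.
-/

open scoped ContDiff ComplexConjugate Topology ComplexOrder
open Complex Matrix Set

namespace Pool.Agent.CYE

open Pool.Agent.CYF Pool.Agent.CYN

variable {n : ℕ} {X : Type*} [TopologicalSpace X] {ι κ : Type*} {A : Spc (Fin n) X ι κ}

private theorem Pot_two_le : (2 : WithTop ℕ∞) ≤ ∞ :=
  WithTop.coe_le_coe.2 (le_top : (2 : ℕ∞) ≤ ⊤)

private theorem Pot_fd2_add {f g : E n → ℝ} {z : E n} (hf : ContDiffAt ℝ ∞ f z)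
    (hg : ContDiffAt ℝ ∞ g z) :
    fderiv ℝ (fderiv ℝ fun y => f y + g y) z
      = fderiv ℝ (fderiv ℝ f) z + fderiv ℝ (fderiv ℝ g) z := by
  have hf2 : ContDiffAt ℝ 2 f z := hf.of_le Pot_two_le
  have hg2 : ContDiffAt ℝ 2 g z := hg.of_le Pot_two_le
  have h1 : (fderiv ℝ fun y => f y + g y) =ᶠ[𝓝 z] fun y => fderiv ℝ f y + fderiv ℝ g y := by
    filter_upwards [hf2.eventually (by simp), hg2.eventually (by simp)] with y h1 h2
    exact fderiv_fun_add (h1.differentiableAt (by simp)) (h2.differentiableAt (by simp))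
  rw [h1.fderiv_eq]
  have hf1 : DifferentiableAt ℝ (fderiv ℝ f) z :=
    (hf2.fderiv_right (m := 1) (by norm_num)).differentiableAt (by simp)
  have hg1 : DifferentiableAt ℝ (fderiv ℝ g) z :=
    (hg2.fderiv_right (m := 1) (by norm_num)).differentiableAt (by simp)
  exact fderiv_fun_add hf1 hg1

private theorem Pot_levi_add {f g : E n → ℝ} {z : E n} (hf : ContDiffAt ℝ ∞ f z)
    (hg : ContDiffAt ℝ ∞ g z) (a : E n) :
    (levi (fun y => f y + g y) z a a).re = (levi f z a a).re + (levi g z a a).re := by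
  have h1 := levi_hess (hf.add hg) a
  have h2 := levi_hess hf a
  have h3 := levi_hess hg a
  have h4 := Pot_fd2_add hf hg
  rw [h4] at h1
  simp only [_root_.add_apply] at h1
  linarith

theorem pot_const {η : Form A} {f : X → ℝ} (hf : η.IsPot f) {Φ : ℂ → X}
    (h : η.IsLeaf univ Φ) (t t' : ℂ) : f (Φ t) = f (Φ t') := by
  have key : ∀ t : ℂ, ContDiffAt ℝ 2 (fun s => f (Φ s)) t ∧
      0 ≤ fderiv ℝ (fderiv ℝ fun s => f (Φ s)) t 1 1
        + fderiv ℝ (fderiv ℝ fun s => f (Φ s)) t I I ∧ ∃ i, Φ t ∈ (A.c i).source := by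
    intro t
    obtain ⟨i, O, hO, ht, hm, hd, hu⟩ := h t (mem_univ t)
    have hsrc : Φ t ∈ (A.c i).source := hm ht
    have htar : A.c i (Φ t) ∈ (A.c i).target := (A.c i).map_source hsrc
    set g : E n → ℝ := fun y => f ((A.c i).symm y) with hg
    set c : ℂ → E n := fun s => A.c i (Φ s) with hc
    have heq : (fun s => f (Φ s)) =ᶠ[𝓝 t] fun s => g (c s) := by
      filter_upwards [hO.mem_nhds ht] with s hs
      simp only [hg, hc]
      rw [(A.c i).left_inv (hm hs)]
    have hgs : ContDiffAt ℝ ∞ g (c t) :=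
      (hf.smooth i).contDiffAt ((A.c i).open_target.mem_nhds htar)
    have hws : ContDiffAt ℝ ∞ (η.w i) (c t) :=
      (η.smooth i).contDiffAt ((A.c i).open_target.mem_nhds htar)
    have hcs : ContDiffAt ℝ 2 c t :=
      ((hd.contDiffOn (n := 2) hO).contDiffAt (hO.mem_nhds ht)).restrict_scalars ℝ
    have hgc : ContDiffAt ℝ 2 (fun s => g (c s)) t :=
      (hgs.of_le Pot_two_le).comp t hcs
    refine ⟨hgc.congr_of_eventuallyEq heq, ?_, i, hsrc⟩
    have h1 : fderiv ℝ (fderiv ℝ fun s => f (Φ s)) t = fderiv ℝ (fderiv ℝ fun s => g (c s)) t :=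
      heq.fderiv.fderiv_eq
    rw [h1, lap_comp hO hd ht hgs]
    have h2 := unit_ker (hu t ht) (deriv c t)
    have h3 := Pot_levi_add hws hgs (deriv c t)
    have h4 := hf.nonneg i (c t) htar (deriv c t)
    rw [h3] at h4
    have h5 : levi (η.w i) (c t) (deriv c t) (deriv c t) = 0 := h2
    rw [h5] at h4
    simp only [Complex.zero_re, zero_add] at h4
    linarith
  obtain ⟨R, hR⟩ := hf.bdd
  refine shl (f := fun s => f (Φ s)) (contDiff_iff_contDiffAt.2 fun t => (key t).1) (R := R)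
    (fun z => ?_) (fun z => (key z).2.1) t t'
  obtain ⟨i, hi⟩ := (key z).2.2
  exact hR i _ hi

end Pool.Agent.CYE
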