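import Mathlib

/-!
CYE module Shl (size 5): a `C^2` subharmonic function on `ℂ` that is bounded above is constant.
PROOF. (1) Weak maximum principle: let `0 < δ < ρ`, `p : ℂ`, `g` continuous on the compact annulus `K = {z | δ ≤ ‖z - p‖ ≤ ρ}`, `C²` near its points, Laplacian `≥ 0`, `g ≤ 0` on `‖z - p‖ = δ` and on `‖z - p‖ = ρ`. Then `g ≤ 0` on `K`:
for `ε > 0` the function `g_ε z = g z + ε ‖z‖²` has a maximum over `K` at some `q` (compactness). If `δ < ‖q - p‖ < ρ` it is a local maximum, so the second derivatives along the real lines `s ↦ q + s`, `s ↦ q + s I` are `≤ 0` at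
`s = 0` (second derivative test in one variable; e.g. if the second derivative is `> 0` then `isLocalMin_of_deriv_deriv_pos` makes it a strict.. or Taylor; or: a `C²` function with a local maximum at `0` has `φ'(0) = 0` and, if
`φ''(0) > 0`, then `φ' > 0` on `(0, η)`, so `φ` is strictly increasing there, a contradiction); but their sum is `≥ 4 ε > 0`. So `q` is on the boundary and `g z ≤ g_ε q ≤ ε (‖p‖ + ρ)²`; `ε → 0`.
(2) Let `p : ℂ`, `δ > 0`, `m` an upper bound of `f` on the circle `‖z - p‖ = δ`, `f ≤ R` on `ℂ`. For `ε > 0` and `ρ` large the function `g z = f z - m - ε log (‖z - p‖ / δ)` satisfies the hypotheses of (1): `log ‖z - p‖` is harmonic off `p`: the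
second derivatives of `u(x, y) = (1/2) log (x² + y²)` add up to `0` (or, without computing: `log ‖·‖` is harmonic, `Mathlib/Analysis/Complex/Harmonic/..`: `AnalyticAt.harmonicAt_log_norm`, and the Laplacian is
`InnerProductSpace.laplacian_eq_iteratedFDeriv_complexPlane`). On `‖z - p‖ = δ` `g ≤ 0`, on `‖z - p‖ = ρ` `g ≤ R - m - ε log (ρ / δ) ≤ 0` for large `ρ`. So `f z ≤ m + ε log (‖z - p‖/δ)` for all `‖z - p‖ ≥ δ`; `ε → 0`: `f z ≤ m`.
(3) `δ → 0`: by continuity of `f` at `p`, `f z ≤ f p` for all `z ≠ p`. This holds for all `p`: `f` is constant.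
-/

open scoped Topology
open Set Metric

namespace Pool.Agent.CYE

private theorem Shl_A {φ φ1 : ℝ → ℝ} {φ2 : ℝ} (h1 : ∀ᶠ s in 𝓝 (0 : ℝ), HasDerivAt φ (φ1 s) s)
    (h2 : HasDerivAt φ1 φ2 0) (hm : IsLocalMax φ 0) : φ2 ≤ 0 := by
  by_contra hlt
  push Not at hlt
  have h0 : φ1 0 = 0 := hm.hasDerivAt_eq_zero h1.self_of_nhds
  have hs : ∀ᶠ s in 𝓝[≠] (0 : ℝ), 0 < slope φ1 0 s :=
    (hasDerivAt_iff_tendsto_slope.1 h2).eventually (lt_mem_nhds hlt)
  have hs' : ∀ᶠ s in 𝓝 (0 : ℝ), s ≠ 0 → 0 < slope φ1 0 s :=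
    eventually_nhdsWithin_iff.1 hs
  obtain ⟨η, hη, hb⟩ := Metric.eventually_nhds_iff_ball.1 ((h1.and hs').and hm)
  have hin : ∀ s ∈ Set.Icc (0 : ℝ) (η / 2), s ∈ Metric.ball (0 : ℝ) η := by
    intro s hs
    rw [Metric.mem_ball, Real.dist_eq, sub_zero, abs_of_nonneg hs.1]
    linarith [hs.2]
  have hmono : StrictMonoOn φ (Set.Icc 0 (η / 2)) := by
    refine strictMonoOn_of_deriv_pos (convex_Icc _ _) ?_ ?_
    · intro s hs
      exact ((hb s (hin s hs)).1.1).continuousAt.continuousWithinAt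
    · intro s hs
      rw [interior_Icc] at hs
      have h3 := hb s (hin s ⟨hs.1.le, hs.2.le⟩)
      rw [h3.1.1.deriv]
      have h4 := h3.1.2 hs.1.ne'
      rw [slope_def_field, h0, sub_zero, sub_zero] at h4
      have h5 : φ1 s = φ1 s / s * s := by
        field_simp [hs.1.ne']
      rw [h5]
      exact mul_pos h4 hs.1
  have h6 := hmono (Set.left_mem_Icc.2 (by linarith)) (Set.right_mem_Icc.2 (by linarith))
    (by linarith : (0 : ℝ) < η / 2)
  have h7 := (hb (η / 2) (hin _ (Set.right_mem_Icc.2 (by linarith)))).2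
  linarith

private theorem Shl_log {a b : ℝ} (h : a ^ 2 + b ^ 2 ≠ 0) :
    (∀ᶠ s in 𝓝 (0 : ℝ), HasDerivAt (fun s => 1 / 2 * Real.log ((a + s) ^ 2 + b ^ 2))
      ((a + s) / ((a + s) ^ 2 + b ^ 2)) s) ∧
    HasDerivAt (fun s => (a + s) / ((a + s) ^ 2 + b ^ 2))
      ((b ^ 2 - a ^ 2) / (a ^ 2 + b ^ 2) ^ 2) 0 := by
  have hp : ∀ s : ℝ, HasDerivAt (fun s => (a + s) ^ 2 + b ^ 2) (2 * (a + s)) s := by
    intro s
    have h1 : HasDerivAt (fun s => a + s) 1 s := by
      simpa using (hasDerivAt_id s).const_add a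
    have h2 := (h1.pow 2).add_const (b ^ 2)
    refine h2.congr_deriv ?_
    ring
  constructor
  · have hc : ContinuousAt (fun s : ℝ => (a + s) ^ 2 + b ^ 2) 0 := by fun_prop
    have hne : ∀ᶠ s in 𝓝 (0 : ℝ), (a + s) ^ 2 + b ^ 2 ≠ 0 := by
      refine hc.eventually_ne ?_
      simpa using h
    filter_upwards [hne] with s hs
    have h3 := ((hp s).log hs).const_mul (1 / 2 : ℝ)
    refine h3.congr_deriv ?_
    field_simp
  · have h1 : HasDerivAt (fun s => a + s) 1 (0 : ℝ) := by
      simpa using (hasDerivAt_id (0 : ℝ)).const_add a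
    have h2 := h1.div (hp 0) (by simpa using h)
    refine h2.congr_deriv ?_
    simp only [add_zero]
    congr 1
    ring

private theorem Shl_line {f : ℂ → ℝ} (hf : ContDiff ℝ 2 f) (q v : ℂ) :
    (∀ s : ℝ, HasDerivAt (fun s : ℝ => f (q + s • v)) (fderiv ℝ f (q + s • v) v) s) ∧
    HasDerivAt (fun s : ℝ => fderiv ℝ f (q + s • v) v) (fderiv ℝ (fderiv ℝ f) q v v) 0 := by
  have hl : ∀ s : ℝ, HasDerivAt (fun s : ℝ => q + s • v) v s := by
    intro s
    have h := ((hasDerivAt_id s).smul_const v).const_add q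
    simpa using h
  constructor
  · intro s
    have h1 : HasFDerivAt f (fderiv ℝ f (q + s • v)) (q + s • v) :=
      ((hf.differentiable (by norm_num)).differentiableAt).hasFDerivAt
    exact h1.comp_hasDerivAt s (hl s)
  · have hf1 : ContDiff ℝ 1 (fderiv ℝ f) := hf.fderiv_right (by norm_num)
    have h1 : HasFDerivAt (fderiv ℝ f) (fderiv ℝ (fderiv ℝ f) q) (q + (0 : ℝ) • v) := by
      rw [zero_smul, add_zero]
      exact ((hf1.differentiable (by norm_num)).differentiableAt).hasFDerivAt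
    have h2 := h1.comp_hasDerivAt (0 : ℝ) (hl 0)
    have h3 := h2.clm_apply (hasDerivAt_const (0 : ℝ) v)
    refine h3.congr_deriv ?_
    simp

private theorem Shl_nomax {f : ℂ → ℝ} (hf : ContDiff ℝ 2 f)
    (hL : ∀ z, 0 ≤ fderiv ℝ (fderiv ℝ f) z 1 1
      + fderiv ℝ (fderiv ℝ f) z Complex.I Complex.I) {p q : ℂ} (hpq : q ≠ p) (ε : ℝ) {ε' : ℝ}
    (hε' : 0 < ε') :
    ¬ IsLocalMax (fun z => f z - ε * (1 / 2 * Real.log (Complex.normSq (z - p)))
      + ε' * Complex.normSq z) q := by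
  intro hmax
  set a := (q - p).re with ha
  set b := (q - p).im with hb
  have hab : a ^ 2 + b ^ 2 ≠ 0 := by
    intro h0
    apply hpq
    have h1 : Complex.normSq (q - p) = 0 := by
      rw [Complex.normSq_apply, ← ha, ← hb]; nlinarith
    exact sub_eq_zero.1 (Complex.normSq_eq_zero.1 h1)
  have hcomp : ∀ v : ℂ, IsLocalMax (fun s : ℝ => (fun z => f z - ε * (1 / 2 *
      Real.log (Complex.normSq (z - p))) + ε' * Complex.normSq z) (q + s • v)) 0 := by
    intro v
    have hc : ContinuousAt (fun s : ℝ => q + s • v) 0 := by fun_prop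
    have h1 : Filter.Tendsto (fun s : ℝ => q + s • v) (𝓝 0) (𝓝 q) := by
      have := hc.tendsto
      simpa using this
    have h2 := h1.eventually hmax
    filter_upwards [h2] with s hs
    simpa using hs
  have hquad : ∀ x y : ℝ, ∀ s : ℝ, HasDerivAt (fun s => (x + s) ^ 2 + y ^ 2) (2 * (x + s)) s := by
    intro x y s
    have h1 : HasDerivAt (fun s => x + s) 1 s := by
      simpa using (hasDerivAt_id s).const_add x
    have h2 := (h1.pow 2).add_const (y ^ 2)
    refine h2.congr_deriv ?_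
    ring
  have hquad2 : ∀ x : ℝ, HasDerivAt (fun s => 2 * (x + s)) 2 (0 : ℝ) := by
    intro x
    have h1 : HasDerivAt (fun s => x + s) 1 (0 : ℝ) := by
      simpa using (hasDerivAt_id (0 : ℝ)).const_add x
    simpa using h1.const_mul 2
  -- direction 1
  have e1 : fderiv ℝ (fderiv ℝ f) q 1 1 - ε * ((b ^ 2 - a ^ 2) / (a ^ 2 + b ^ 2) ^ 2)
      + ε' * 2 ≤ 0 := by
    obtain ⟨l1, l2⟩ := Shl_log hab
    obtain ⟨f1, f2⟩ := Shl_line hf q 1
    refine Shl_A (φ := fun s : ℝ => f (q + s • (1 : ℂ))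
      - ε * (1 / 2 * Real.log ((a + s) ^ 2 + b ^ 2)) + ε' * ((q.re + s) ^ 2 + q.im ^ 2))
      (φ1 := fun s => fderiv ℝ f (q + s • (1 : ℂ)) 1 - ε * ((a + s) / ((a + s) ^ 2 + b ^ 2))
        + ε' * (2 * (q.re + s))) ?_ ?_ ?_
    · filter_upwards [l1] with s hs
      exact ((f1 s).sub (hs.const_mul ε)).add ((hquad q.re q.im s).const_mul ε')
    · exact (f2.sub (l2.const_mul ε)).add ((hquad2 q.re).const_mul ε')
    · have h := hcomp 1
      refine h.congr ?_
      refine Filter.Eventually.of_forall fun s => ?_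
      have i1 : Complex.normSq (q + s • (1 : ℂ) - p) = (a + s) ^ 2 + b ^ 2 := by
        rw [Complex.normSq_apply, ha, hb]
        simp
        ring
      have i2 : Complex.normSq (q + s • (1 : ℂ)) = (q.re + s) ^ 2 + q.im ^ 2 := by
        rw [Complex.normSq_apply]
        simp
        ring
      simp only [i1, i2]
  -- direction I
  have hba : b ^ 2 + a ^ 2 ≠ 0 := by rwa [add_comm]
  have e2 : fderiv ℝ (fderiv ℝ f) q Complex.I Complex.I
      - ε * ((a ^ 2 - b ^ 2) / (b ^ 2 + a ^ 2) ^ 2) + ε' * 2 ≤ 0 := by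
    obtain ⟨l1, l2⟩ := Shl_log hba
    obtain ⟨f1, f2⟩ := Shl_line hf q Complex.I
    refine Shl_A (φ := fun s : ℝ => f (q + s • Complex.I)
      - ε * (1 / 2 * Real.log ((b + s) ^ 2 + a ^ 2)) + ε' * ((q.im + s) ^ 2 + q.re ^ 2))
      (φ1 := fun s => fderiv ℝ f (q + s • Complex.I) Complex.I
        - ε * ((b + s) / ((b + s) ^ 2 + a ^ 2)) + ε' * (2 * (q.im + s))) ?_ ?_ ?_
    · filter_upwards [l1] with s hs
      exact ((f1 s).sub (hs.const_mul ε)).add ((hquad q.im q.re s).const_mul ε')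
    · exact (f2.sub (l2.const_mul ε)).add ((hquad2 q.im).const_mul ε')
    · have h := hcomp Complex.I
      refine h.congr ?_
      refine Filter.Eventually.of_forall fun s => ?_
      have i1 : Complex.normSq (q + s • Complex.I - p) = (b + s) ^ 2 + a ^ 2 := by
        rw [Complex.normSq_apply, ha, hb]
        simp
        ring
      have i2 : Complex.normSq (q + s • Complex.I) = (q.im + s) ^ 2 + q.re ^ 2 := by
        rw [Complex.normSq_apply]
        simp
        ring
      simp only [i1, i2]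
  have h3 := hL q
  have h4 : (b ^ 2 - a ^ 2) / (a ^ 2 + b ^ 2) ^ 2 = -((a ^ 2 - b ^ 2) / (b ^ 2 + a ^ 2) ^ 2) := by
    rw [add_comm (b ^ 2) (a ^ 2), ← neg_div]
    congr 1
    ring
  rw [h4] at e1
  linarith

private theorem Shl_ann {f : ℂ → ℝ} (hf : ContDiff ℝ 2 f) {R : ℝ} (hR : ∀ z, f z ≤ R)
    (hL : ∀ z, 0 ≤ fderiv ℝ (fderiv ℝ f) z 1 1
      + fderiv ℝ (fderiv ℝ f) z Complex.I Complex.I) {p : ℂ} {δ m : ℝ} (hδ : 0 < δ)
    (hm : ∀ z, ‖z - p‖ = δ → f z ≤ m) {z₀ : ℂ} (hz : δ ≤ ‖z₀ - p‖) : f z₀ ≤ m := by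
  -- the logarithm is nonnegative outside the disc
  set ℓ : ℂ → ℝ := fun z => 1 / 2 * Real.log (Complex.normSq (z - p)) with hℓ
  have hℓn : ∀ z, ℓ z = Real.log ‖z - p‖ := by
    intro z
    rw [hℓ]
    simp only
    rw [Complex.normSq_eq_norm_sq, Real.log_pow]
    push_cast
    ring
  have hz₀ : 0 ≤ ℓ z₀ - Real.log δ := by
    rw [hℓn]
    exact sub_nonneg.2 (Real.log_le_log hδ hz)
  have key : ∀ ε : ℝ, 0 < ε → f z₀ ≤ m + ε * (ℓ z₀ - Real.log δ) := by
    intro ε hε
    -- the outer radius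
    obtain ⟨ρ, hρ1, hρ2⟩ : ∃ ρ : ℝ, ‖z₀ - p‖ < ρ ∧ R - ε * (Real.log ρ - Real.log δ) ≤ m := by
      have h1 : Filter.Tendsto (fun ρ : ℝ => R - ε * (Real.log ρ - Real.log δ))
          Filter.atTop Filter.atBot := by
        have h2 : Filter.Tendsto (fun ρ : ℝ => Real.log ρ - Real.log δ) Filter.atTop
            Filter.atTop := by
          simpa [sub_eq_add_neg] using
            Filter.tendsto_atTop_add_const_right _ (-Real.log δ) Real.tendsto_log_atTop
        have h3 := h2.const_mul_atTop hε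
        have h4 := Filter.tendsto_neg_atTop_atBot.comp h3
        have h5 := Filter.tendsto_atBot_add_const_left _ R h4
        refine h5.congr fun x => ?_
        simp [sub_eq_add_neg]
      obtain ⟨ρ, h6, h7⟩ := ((h1.eventually (Filter.eventually_le_atBot m)).and
        (Filter.eventually_gt_atTop ‖z₀ - p‖)).exists
      exact ⟨ρ, h7, h6⟩
    have hρδ : δ < ρ := lt_of_le_of_lt hz hρ1
    have hρ0 : 0 < ρ := hδ.trans hρδ
    refine le_of_forall_pos_le_add fun θ hθ => ?_
    -- the small quadratic term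
    set c : ℝ := (‖p‖ + ρ) ^ 2 with hc
    have hc0 : 0 < c := by positivity
    set ε' : ℝ := θ / c with hε'
    have hε'0 : 0 < ε' := div_pos hθ hc0
    set K : Set ℂ := Metric.closedBall p ρ ∩ {z | δ ≤ ‖z - p‖} with hK
    have hKc : IsCompact K := by
      refine (isCompact_closedBall p ρ).inter_right ?_
      exact isClosed_le continuous_const (by fun_prop)
    have hz₀K : z₀ ∈ K := ⟨by rw [Metric.mem_closedBall, dist_eq_norm]; exact hρ1.le, hz⟩
    have hcont : ContinuousOn (fun z => f z - ε * ℓ z + ε' * Complex.normSq z) K := by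
      refine ContinuousOn.add (hf.continuous.continuousOn.sub (ContinuousOn.mul
        continuousOn_const ?_)) (by fun_prop)
      refine ContinuousOn.mul continuousOn_const ?_
      refine ContinuousOn.log (by fun_prop) fun z hz => ?_
      have h8 : 0 < ‖z - p‖ := lt_of_lt_of_le hδ hz.2
      exact (Complex.normSq_pos.2 (norm_pos_iff.1 h8)).ne'
    obtain ⟨q, hqK, hq⟩ := hKc.exists_isMaxOn ⟨z₀, hz₀K⟩ hcont
    have hqp : q ≠ p := by
      rintro rfl
      have := hqK.2
      simp only [Set.mem_ofPred_eq, sub_self, norm_zero] at this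
      linarith
    have hqn : ‖q - p‖ ≤ ρ := by
      have := hqK.1
      rwa [Metric.mem_closedBall, dist_eq_norm] at this
    have hnq : Complex.normSq q ≤ c := by
      rw [Complex.normSq_eq_norm_sq, hc]
      have h9 : ‖q‖ ≤ ‖p‖ + ρ := by
        have := norm_add_le p (q - p)
        rw [add_sub_cancel] at this
        linarith
      exact pow_le_pow_left₀ (norm_nonneg _) h9 2
    have hq0 : ε' * Complex.normSq q ≤ θ := by
      have : ε' * c = θ := by rw [hε']; field_simp
      nlinarith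
    have hval : f q - ε * (ℓ q - Real.log δ) ≤ m := by
      by_cases h1 : ‖q - p‖ = δ
      · rw [hℓn, h1, sub_self, mul_zero, sub_zero]
        exact hm q h1
      by_cases h2 : ‖q - p‖ = ρ
      · rw [hℓn, h2]
        linarith [hR q]
      exfalso
      have h3 : δ < ‖q - p‖ := lt_of_le_of_ne hqK.2 (Ne.symm h1)
      have h4 : ‖q - p‖ < ρ := lt_of_le_of_ne hqn h2
      have hKn : K ∈ 𝓝 q := by
        have h5 : {z : ℂ | δ < ‖z - p‖ ∧ ‖z - p‖ < ρ} ∈ 𝓝 q := by
          refine IsOpen.mem_nhds ?_ ⟨h3, h4⟩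
          have hcn : Continuous fun z : ℂ => ‖z - p‖ := by fun_prop
          exact (isOpen_lt continuous_const hcn).inter (isOpen_lt hcn continuous_const)
        filter_upwards [h5] with z hz
        exact ⟨by rw [Metric.mem_closedBall, dist_eq_norm]; exact hz.2.le, hz.1.le⟩
      exact Shl_nomax hf hL hqp ε hε'0 (hq.isLocalMax hKn)
    have h5 := hq hz₀K
    simp only [Set.mem_ofPred_eq] at h5
    have h6 : 0 ≤ ε' * Complex.normSq z₀ := mul_nonneg hε'0.le (Complex.normSq_nonneg _)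
    nlinarith
  refine le_of_forall_pos_le_add fun θ hθ => ?_
  have h := key (θ / (ℓ z₀ - Real.log δ + 1)) (by positivity)
  refine h.trans ?_
  have h2 : θ / (ℓ z₀ - Real.log δ + 1) * (ℓ z₀ - Real.log δ) ≤ θ := by
    rw [div_mul_eq_mul_div, div_le_iff₀ (by positivity)]
    nlinarith
  linarith

theorem shl {f : ℂ → ℝ} (hf : ContDiff ℝ 2 f) {R : ℝ} (hR : ∀ z, f z ≤ R)
    (hL : ∀ z, 0 ≤ fderiv ℝ (fderiv ℝ f) z 1 1
      + fderiv ℝ (fderiv ℝ f) z Complex.I Complex.I) (z z' : ℂ) : f z = f z' := by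
  have key : ∀ p z₀ : ℂ, f z₀ ≤ f p := by
    intro p z₀
    rcases eq_or_ne z₀ p with rfl | hne
    · exact le_rfl
    refine le_of_forall_pos_le_add fun η hη => ?_
    have h0 : 0 < ‖z₀ - p‖ := norm_pos_iff.2 (sub_ne_zero.2 hne)
    have hc : ∀ᶠ y in 𝓝 p, f y < f p + η :=
      hf.continuous.continuousAt.eventually (gt_mem_nhds (by linarith))
    obtain ⟨r, hr, hball⟩ := Metric.eventually_nhds_iff_ball.1 hc
    refine Shl_ann hf hR hL (δ := min (r / 2) ‖z₀ - p‖) (lt_min (by linarith) h0) ?_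
      (min_le_right _ _)
    intro y hy
    refine (hball y ?_).le
    rw [Metric.mem_ball, dist_eq_norm, hy]
    exact lt_of_le_of_lt (min_le_left _ _) (by linarith)
  exact le_antisymm (key z' z) (key z z')

end Pool.Agent.CYE
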