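import Pool.Agent.CYE.Amc
import Pool.Agent.CYE.Lfb

/-!
CYE module Spd (size 4): the derivatives of `λ_k` and of the distance function along a leaf map.
PROOFS. `spd_lam`: `C` from `amc`. Let `t = t₁ + s v`, `x = Φ t ∈ Q ⊆ V k`. Definition of `IsLeaf` at `t`: chart `i`, `O`, `z = A.c i ∘ Φ` holomorphic on `O`, `a = deriv z t` a unit vector. `Φ` is continuous at `t` (`leaf_cont`),
so for `r` near `t`: `Φ r ∈ V k ∩ (A.c i).source` and `LX η k (Φ r) = lam (η.w i) (A.Z k i) (z r)` (`LX_eq`), `z t ∈ A.D k i`. `lam (η.w i) (A.Z k i)` is smooth on the open set `A.D k i` (`contDiffOn_lam`, `emb_of`).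
Chain rule: the derivative of `q ↦ z (t₁ + q v)` at `s` is `v • a`, so `D = fderiv ℝ (lam ..) (z t) (v • a)`. If `v = 0` trivial, otherwise apply `amc` to `v / ‖v‖`: `|D| ≤ ‖v‖ C lam`.
`spd_nn`: the same for `nn c (A.ζ k (Φ r)) = ∑_p ‖(A.Z k i (z r)) p - c p‖²`: `D = 2 Re ∑_p conj (y_p - c_p) b_p`, `y = A.ζ k x`, `b = fderiv ℂ (A.Z k i) (z t) (v • a)`; Cauchy-Schwarz:
`D² ≤ 4 (∑ ‖y_p - c_p‖²) (∑ ‖b_p‖²) = 4 nn ‖v‖² LX` (`unit_lam` in CYE/AmB.lean, `LX_eq`).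
-/

open scoped ContDiff ComplexConjugate Topology ComplexOrder
open Complex Matrix Set

namespace Pool.Agent.CYE

open Pool.Agent.CYF Pool.Agent.CYN

variable {n : ℕ} {X : Type*} [TopologicalSpace X] {ι κ : Type*} {A : Spc (Fin n) X ι κ}

private theorem Spd_base (η : Form A) {W : Set ℂ} {Φ : ℂ → X} (h : η.IsLeaf W Φ)
    {t₁ v : ℂ} {s : ℝ} (ht : t₁ + s * v ∈ W) :
    ∃ (i : ι) (a : E n), Φ (t₁ + s * v) ∈ (A.c i).source ∧
      η.Unit i (A.c i (Φ (t₁ + s * v))) a ∧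
      HasDerivAt (fun q : ℝ => A.c i (Φ (t₁ + q * v))) (v • a) s ∧
      ∀ᶠ q : ℝ in 𝓝 s, Φ (t₁ + q * v) ∈ (A.c i).source := by
  obtain ⟨i, O, hO, htO, hm, hd, hu⟩ := h _ ht
  have h1 : HasDerivAt (fun q : ℝ => t₁ + (q : ℂ) * v) v s := by
    have h2 : HasDerivAt (fun q : ℝ => (q : ℂ)) 1 s := Complex.ofRealCLM.hasDerivAt
    have h3 := (h2.mul_const v).const_add t₁
    simpa using h3
  have h4 : HasDerivAt (fun r => A.c i (Φ r)) (deriv (fun r => A.c i (Φ r)) (t₁ + s * v))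
      (t₁ + s * v) := ((hd _ htO).differentiableAt (hO.mem_nhds htO)).hasDerivAt
  refine ⟨i, deriv (fun r => A.c i (Φ r)) (t₁ + s * v), hm htO, hu _ htO, ?_, ?_⟩
  · exact HasDerivAt.scomp (𝕜 := ℝ) (h := fun q : ℝ => t₁ + (q : ℂ) * v) s h4 h1
  · have h5 : ∀ᶠ q : ℝ in 𝓝 s, t₁ + (q : ℂ) * v ∈ O := h1.continuousAt (hO.mem_nhds htO)
    filter_upwards [h5] with q hq
    exact hm hq

private theorem Spd_V (η : Form A) (k : κ) {W : Set ℂ} {Φ : ℂ → X} (hW : IsOpen W)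
    (h : η.IsLeaf W Φ) {t₁ v : ℂ} {s : ℝ} (ht : t₁ + s * v ∈ W)
    (hk : Φ (t₁ + s * v) ∈ A.V k) : ∀ᶠ q : ℝ in 𝓝 s, Φ (t₁ + q * v) ∈ A.V k := by
  have h1 : ContinuousAt (fun q : ℝ => t₁ + (q : ℂ) * v) s := by fun_prop
  have h2 : ContinuousAt (fun q : ℝ => Φ (t₁ + (q : ℂ) * v)) s :=
    ContinuousAt.comp (f := fun q : ℝ => t₁ + (q : ℂ) * v) (g := Φ) (leaf_cont hW h ht) h1
  exact h2 ((A.isOpen_V k).mem_nhds hk)

private theorem Spd_D {x : X} {i : ι} {k : κ} (hi : x ∈ (A.c i).source) (hk : x ∈ A.V k) :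
    A.c i x ∈ A.D k i := by
  refine ⟨(A.c i).map_source hi, ?_⟩
  rw [Set.mem_preimage, (A.c i).left_inv hi]
  exact hk

theorem spd_lam [T2Space X] (hA : A.Index1) (η : Form A) (k : κ) {Q : Set X} (hQ : IsCompact Q)
    (hQV : Q ⊆ A.V k) :
    ∃ C : ℝ, 0 ≤ C ∧ ∀ (W : Set ℂ) (Φ : ℂ → X), IsOpen W → η.IsLeaf W Φ → ∀ (t₁ v : ℂ) (s : ℝ),
      t₁ + s * v ∈ W → Φ (t₁ + s * v) ∈ Q →
      ∃ D : ℝ, HasDerivAt (fun q : ℝ => LX η k (Φ (t₁ + q * v))) D s ∧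
        |D| ≤ C * ‖v‖ * LX η k (Φ (t₁ + s * v)) := by
  obtain ⟨C, hC, hamc⟩ := amc hA η k hQ hQV
  refine ⟨C, hC, ?_⟩
  intro W Φ hW h t₁ v s ht hΦ
  have hk : Φ (t₁ + s * v) ∈ A.V k := hQV hΦ
  obtain ⟨i, a, hi, hu, hd, he⟩ := Spd_base η h ht
  have hD := Spd_D hi hk
  have hdiff : DifferentiableAt ℝ (lam (η.w i) (A.Z k i)) (A.c i (Φ (t₁ + s * v))) :=
    ((contDiffOn_lam (isOpen_D k i) (emb_of η k i).sw (emb_of η k i).hol).contDiffAt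
      ((isOpen_D k i).mem_nhds hD)).differentiableAt (by simp)
  refine ⟨fderiv ℝ (lam (η.w i) (A.Z k i)) (A.c i (Φ (t₁ + s * v))) (v • a), ?_, ?_⟩
  · have h1 := HasFDerivAt.comp_hasDerivAt (f := fun q : ℝ => A.c i (Φ (t₁ + q * v))) s
      hdiff.hasFDerivAt hd
    refine h1.congr_of_eventuallyEq ?_
    filter_upwards [he, Spd_V η k hW h ht hk] with q hq1 hq2
    exact LX_eq η hq1 hq2
  · rw [LX_eq η hi hk]
    by_cases hv : v = 0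
    · rw [hv]
      simp
    · have hv0 : 0 < ‖v‖ := norm_pos_iff.mpr hv
      have hQ' : (A.c i).symm (A.c i (Φ (t₁ + s * v))) ∈ Q := by
        rw [(A.c i).left_inv hi]
        exact hΦ
      have h2 := hamc i _ hD hQ' a hu (v / (‖v‖ : ℂ)) (by
        rw [norm_div, Complex.norm_real, norm_norm, div_self hv0.ne'])
      have h3 : v • a = ‖v‖ • ((v / (‖v‖ : ℂ)) • a) := by
        rw [← Complex.coe_smul, smul_smul]
        congr 1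
        field_simp
      rw [h3, map_smul, smul_eq_mul, abs_mul, abs_of_pos hv0]
      calc ‖v‖ * |fderiv ℝ (lam (η.w i) (A.Z k i)) (A.c i (Φ (t₁ + s * v)))
              ((v / (‖v‖ : ℂ)) • a)|
          ≤ ‖v‖ * (C * lam (η.w i) (A.Z k i) (A.c i (Φ (t₁ + s * v)))) :=
            mul_le_mul_of_nonneg_left h2 hv0.le
        _ = _ := by ring

theorem spd_nn (η : Form A) (k : κ) {W : Set ℂ} {Φ : ℂ → X} (hW : IsOpen W) (h : η.IsLeaf W Φ)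
    {t₁ v : ℂ} {s : ℝ} (ht : t₁ + s * v ∈ W) (hk : Φ (t₁ + s * v) ∈ A.V k) (c : E (A.dim k)) :
    ∃ D : ℝ, HasDerivAt (fun q : ℝ => nn c (A.ζ k (Φ (t₁ + q * v)))) D s ∧
      D ^ 2 ≤ 4 * ‖v‖ ^ 2 * nn c (A.ζ k (Φ (t₁ + s * v))) * LX η k (Φ (t₁ + s * v)) := by
  obtain ⟨i, a, hi, hu, hd, he⟩ := Spd_base η h ht
  have hD := Spd_D hi hk
  set z0 := A.c i (Φ (t₁ + s * v)) with hz0
  have hdZ : DifferentiableAt ℂ (A.Z k i) z0 := diff_of_hol (isOpen_D k i) (emb_of η k i).hol hD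
  set b := fderiv ℂ (A.Z k i) z0 (v • a) with hb
  have h1 : HasDerivAt (fun q : ℝ => A.Z k i (A.c i (Φ (t₁ + q * v)))) b s :=
    HasFDerivAt.comp_hasDerivAt (f := fun q : ℝ => A.c i (Φ (t₁ + q * v))) s
      (hdZ.hasFDerivAt.restrictScalars ℝ) hd
  have hZ : ∀ x, x ∈ (A.c i).source → A.Z k i (A.c i x) = A.ζ k x := by
    intro x hx
    show A.ζ k ((A.c i).symm (A.c i x)) = _
    rw [(A.c i).left_inv hx]
  have h2 : ∀ p, HasDerivAt (fun q : ℝ => A.Z k i (A.c i (Φ (t₁ + q * v))) p - c p) (b p) s := by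
    intro p
    exact ((hasDerivAt_pi.mp h1) p).sub_const (c p)
  have h3 : HasDerivAt (fun q : ℝ => ∑ p, ‖A.Z k i (A.c i (Φ (t₁ + q * v))) p - c p‖ ^ 2)
      (∑ p, 2 * inner ℝ (A.Z k i z0 p - c p) (b p)) s := by
    exact HasDerivAt.fun_sum fun p _ => (h2 p).norm_sq
  refine ⟨∑ p, 2 * inner ℝ (A.Z k i z0 p - c p) (b p), ?_, ?_⟩
  · refine h3.congr_of_eventuallyEq ?_
    filter_upwards [he] with q hq
    unfold nn
    rw [hZ _ hq]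
  · rw [LX_eq η hi hk, unit_lam hu.2.2]
    have h4 : nn c (A.ζ k (Φ (t₁ + s * v))) = ∑ p, ‖A.Z k i z0 p - c p‖ ^ 2 := by
      unfold nn
      rw [hz0, hZ _ hi]
    rw [h4]
    have h5 : ∀ p, ‖b p‖ = ‖v‖ * ‖fderiv ℂ (A.Z k i) z0 a p‖ := by
      intro p
      rw [hb, map_smul, Pi.smul_apply, norm_smul]
    have h6 : |∑ p, 2 * inner ℝ (A.Z k i z0 p - c p) (b p)|
        ≤ 2 * ∑ p, ‖A.Z k i z0 p - c p‖ * ‖b p‖ := by
      rw [Finset.mul_sum]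
      refine (Finset.abs_sum_le_sum_abs _ _).trans (Finset.sum_le_sum fun p _ => ?_)
      rw [abs_mul, abs_of_pos (by norm_num : (0 : ℝ) < 2)]
      exact mul_le_mul_of_nonneg_left (abs_real_inner_le_norm _ _) (by norm_num)
    have h7 : (∑ p, ‖A.Z k i z0 p - c p‖ * ‖b p‖) ^ 2
        ≤ (∑ p, ‖A.Z k i z0 p - c p‖ ^ 2) * ∑ p, ‖b p‖ ^ 2 := Finset.sum_mul_sq_le_sq_mul_sq _ _ _
    have h8 : ∑ p, ‖b p‖ ^ 2 = ‖v‖ ^ 2 * ∑ p, ‖fderiv ℂ (A.Z k i) z0 a p‖ ^ 2 := by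
      rw [Finset.mul_sum]
      refine Finset.sum_congr rfl fun p _ => ?_
      rw [h5 p, mul_pow]
    have h9 : 0 ≤ ∑ p, ‖A.Z k i z0 p - c p‖ * ‖b p‖ :=
      Finset.sum_nonneg fun p _ => mul_nonneg (norm_nonneg _) (norm_nonneg _)
    rw [h8] at h7
    calc (∑ p, 2 * inner ℝ (A.Z k i z0 p - c p) (b p)) ^ 2
        = |∑ p, 2 * inner ℝ (A.Z k i z0 p - c p) (b p)| ^ 2 := (sq_abs _).symm
      _ ≤ (2 * ∑ p, ‖A.Z k i z0 p - c p‖ * ‖b p‖) ^ 2 :=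
          pow_le_pow_left₀ (abs_nonneg _) h6 2
      _ = 4 * (∑ p, ‖A.Z k i z0 p - c p‖ * ‖b p‖) ^ 2 := by ring
      _ ≤ 4 * ((∑ p, ‖A.Z k i z0 p - c p‖ ^ 2)
            * (‖v‖ ^ 2 * ∑ p, ‖fderiv ℂ (A.Z k i) z0 a p‖ ^ 2)) := by linarith
      _ = _ := by ring

end Pool.Agent.CYE
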