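import Pool.Agent.CYE.StL
import Pool.Agent.CYE.Per
import Pool.Agent.CYE.Com

/-!
CYE module StG (size 3): the image of an entire leaf map is the leaf.
PROOFS. `sat`: `S = {s ∈ [0, 1] | γ s ∈ range Φ}` contains `0`. Open in `[0, 1]`: at `s ∈ S` with `γ s = Φ t₀` use `stl` (`IsTan` for `{s}` is the restriction of `hγ`). Closed: let `s ∈ [0, 1]` be in the closure of `S`; by `hγ` at `s` the
point `γ s` is a regular point of a chart `i` (`η.Reg i (A.c i (γ s))`); `unit_exists`, `entire`: an entire leaf map `Ψ` with `Ψ 0 = γ s`; by `stl` `γ q ∈ range Ψ` for `q` near `s`; take `q ∈ S` near `s`: `range Φ` and `range Ψ` meet, `ran`: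
`range Φ = range Ψ ∋ γ s`. `[0, 1]` is connected (`isPreconnected_Icc`, e.g. `IsPreconnected.subset_of_closure_inter_subset` for a suitable open set, or `IsClosed.Icc_subset_of_forall_exists_gt`), so `1 ∈ S`.
`leaf_range`: `⊇`: for `y = Φ t` the curve `γ s = Φ (s t)` is tangent: at `s` take the chart and `O` of the definition of `IsLeaf` at `s t`, `d r = t • deriv (A.c i ∘ Φ) (r t)` (continuous: the derivative of a holomorphic function), `unit_reg`,
`unit_ker` (and `levi_eq_sum` or `c • ker`: `η.Ker` is stable under multiplication by `t`). `⊆`: `sat`.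
-/

open scoped ContDiff ComplexConjugate Topology ComplexOrder
open Complex Matrix Set

namespace Pool.Agent.CYE

open Pool.Agent.CYF Pool.Agent.CYN

variable {n : ℕ} {X : Type*} [TopologicalSpace X] {ι κ : Type*} {A : Spc (Fin n) X ι κ}
  {η : Form A} {Φ : ℂ → X}

private theorem StG_near [CompactSpace X] [T2Space X] (h : η.IsLeaf univ Φ) {γ : ℝ → X} {s : ℝ}
    (hγ : η.IsTan (Icc 0 1) γ) (hs : s ∈ Icc (0 : ℝ) 1) {t : ℂ} (ht : γ s = Φ t) :
    ∀ᶠ q in 𝓝 s, γ q ∈ range Φ := by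
  have h1 : η.IsTan {s} γ := by
    intro r hr
    rw [mem_singleton_iff] at hr
    subst hr
    exact hγ _ hs
  have h2 := stl isOpen_univ h (mem_univ t) h1 ht
  rwa [image_univ] at h2

private theorem StG_closed [CompactSpace X] [T2Space X] (hA : A.Index1) (h : η.IsLeaf univ Φ)
    {γ : ℝ → X} (hγ : η.IsTan (Icc 0 1) γ) : IsClosed ({s | γ s ∈ range Φ} ∩ Icc (0 : ℝ) 1) := by
  refine isClosed_of_closure_subset fun s hs => ?_
  have hs1 : s ∈ Icc (0 : ℝ) 1 := by
    have := closure_mono (inter_subset_right (s := {s | γ s ∈ range Φ}) (t := Icc (0 : ℝ) 1)) hs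
    rwa [isClosed_Icc.closure_eq] at this
  refine ⟨?_, hs1⟩
  obtain ⟨i, O, d, hO, hsO, hm, hd, hr⟩ := hγ s hs1
  obtain ⟨a, ha⟩ := unit_exists (hr s hsO).2.1
  obtain ⟨Ψ, hΨ, hΨ0, -⟩ := entire hA η ha
  have h0 : γ s = Ψ 0 := by
    rw [hΨ0, (A.c i).left_inv (hm hsO)]
  have h2 := StG_near hΨ hγ hs1 h0
  obtain ⟨q, hq1, hq2⟩ := ((mem_closure_iff_frequently.1 hs).and_eventually h2).exists
  obtain ⟨t₁, ht₁⟩ := hq1.1
  obtain ⟨t₂, ht₂⟩ := hq2
  have h3 : range Φ = range Ψ := ran h hΨ (ht₁.trans ht₂.symm)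
  show γ s ∈ range Φ
  rw [h3, h0]
  exact mem_range_self 0

theorem sat [CompactSpace X] [T2Space X] (hA : A.Index1) (h : η.IsLeaf univ Φ) {γ : ℝ → X}
    (hγ : η.IsTan (Icc 0 1) γ) (h0 : γ 0 ∈ range Φ) : γ 1 ∈ range Φ := by
  have hsub : Icc (0 : ℝ) 1 ⊆ {s | γ s ∈ range Φ} := by
    refine (StG_closed hA h hγ).Icc_subset_of_forall_exists_gt h0 ?_
    rintro x ⟨hx, hx1⟩ y hy
    obtain ⟨t, ht⟩ := hx
    have h2 := StG_near h hγ (Ico_subset_Icc_self hx1) ht.symm
    have h3 : ∀ᶠ q in 𝓝[>] x, q ∈ Ioc x y := Ioc_mem_nhdsGT hy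
    obtain ⟨q, hq1, hq2⟩ := ((h2.filter_mono nhdsWithin_le_nhds).and h3).exists
    exact ⟨q, hq1, hq2⟩
  exact hsub (right_mem_Icc.2 zero_le_one)

theorem leaf_range [CompactSpace X] [T2Space X] (hA : A.Index1) (h : η.IsLeaf univ Φ) :
    range Φ = η.leaf (Φ 0) := by
  refine Subset.antisymm ?_ ?_
  · rintro y ⟨t, rfl⟩
    refine ⟨fun s => Φ ((s : ℂ) * t), by simp, by simp, ?_⟩
    intro s _
    obtain ⟨i, O, hO, hsO, hm, hd, hu⟩ := h ((s : ℂ) * t) (mem_univ _)
    have hc : Continuous fun r : ℝ => (r : ℂ) * t := by fun_prop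
    refine ⟨i, (fun r : ℝ => (r : ℂ) * t) ⁻¹' O,
      fun r => t • deriv (fun q => A.c i (Φ q)) ((r : ℂ) * t), hO.preimage hc, hsO,
      fun r hr => hm hr, ?_, ?_⟩
    · have h1 : ContinuousOn (deriv (fun q => A.c i (Φ q))) O := (hd.deriv hO).continuousOn
      have h2 : ContinuousOn (fun r : ℝ => deriv (fun q => A.c i (Φ q)) ((r : ℂ) * t))
          ((fun r : ℝ => (r : ℂ) * t) ⁻¹' O) := h1.comp hc.continuousOn fun r hr => hr
      exact h2.const_smul t
    · intro r hr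
      refine ⟨?_, (unit_reg (hu _ hr)).1, ?_⟩
      · have h1 : HasDerivAt (fun q => A.c i (Φ q))
            (deriv (fun q => A.c i (Φ q)) ((r : ℂ) * t)) ((r : ℂ) * t) :=
          (hd.differentiableAt (hO.mem_nhds hr)).hasDerivAt
        have h2 : HasDerivAt (fun q : ℝ => (q : ℂ) * t) t r := by
          simpa using (Complex.ofRealCLM.hasDerivAt (x := r)).mul_const t
        exact h1.scomp r h2
      · intro b
        have h1 := unit_ker (hu _ hr) b
        unfold levi at h1 ⊢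
        rw [d10_smul_vec, h1, mul_zero]
  · rintro y ⟨γ, h0, h1, hγ⟩
    rw [← h1]
    exact sat hA h hγ (h0 ▸ mem_range_self 0)

end Pool.Agent.CYE
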