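import Pool.Agent.CYE.Lfb

/-!
CYE module StL (size 5): a curve tangent to the kernel stays locally in the image of a leaf map.
PROOF. `hγ` at `s₀`: chart `i`, open `O ∋ s₀`, `d`; `c q = A.c i (γ q)`, `c' = d`, `d` continuous on `O`, `d` in the kernel, `c` regular. `Φ t₀ = γ s₀ ∈ (A.c i).source`: `leaf_chart` gives `O'`, `z = A.c i ∘ Φ` holomorphic on `O' ⊆ W`,
`z t₀ = c s₀`. Choose `m` with `rho (η.w i) m (c s₀) ≠ 0` (`unit_reg`), `V = Um (η.w i) m (A.c i).target` (open: `kf_of`), `u = uu (η.w i) m` smooth on `V`. Near `s₀`: `c q ∈ V` and `d q = (d q m) • u (c q)` (kernel vector: `adj_ker`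
in CYF/Adj.lean, as `ker_eq` in CYF/Fin.lean, or `ker_unit` and `unit_eq`, `unit_of`); near `t₀`: `z' t = (z' t m) • u (z t)`, `z' t m ≠ 0` (`unit_eq`).
The function `z_m : ℂ → ℂ` is analytic near `t₀` with `z_m' (t₀) ≠ 0`: local inverse `g` (`HasStrictDerivAt.localInverse`, `HasStrictDerivAt.to_localInverse`, or `ContDiffAt.to_localInverse`), `g (z_m t₀) = t₀`, `z_m (g x) = x` near
`z_m t₀`, `g` continuous and differentiable near `z_m t₀` with `g' x = 1 / z_m' (g x)` (`HasDerivAt.of_local_left_inverse`). Put `h q = g (c q m)`, near `s₀`: `h s₀ = t₀`, `h` continuous, `h' = d q m / z_m' (h q)`. The curve `e q = z (h q)`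
has `e' = h' • z' (h q) = (d q m) • u (e q)`, `e s₀ = c s₀`. So `c` and `e` solve `y' = (d q m) • u y` near `s₀`; `u` is Lipschitz near `c s₀` (`ContDiffAt.exists_lipschitzOnWith`), `d · m` is bounded near `s₀`:
`ODE_solution_unique_of_mem_Ioo` (Mathlib/Analysis/ODE), so `c q = z (h q)` near `s₀`, i.e. `γ q = (A.c i).symm (c q) = Φ (h q)`, `h q ∈ O' ⊆ W`.
-/

open scoped ContDiff ComplexConjugate Topology ComplexOrder
open Complex Matrix Set

namespace Pool.Agent.CYE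

open Pool.Agent.CYF Pool.Agent.CYN

section aux

variable {n : ℕ}

/-- a local holomorphic inverse of `f`, with its derivative -/
private theorem StL_inv {f : ℂ → ℂ} {O : Set ℂ} (hO : IsOpen O) (hf : DifferentiableOn ℂ f O)
    {t₀ : ℂ} (ht : t₀ ∈ O) (h0 : ∀ t ∈ O, deriv f t ≠ 0) :
    ∃ g : ℂ → ℂ, g (f t₀) = t₀ ∧ ∀ᶠ x in 𝓝 (f t₀), g x ∈ O ∧
      HasDerivAt g (deriv f (g x))⁻¹ x := by
  have han : AnalyticAt ℂ f t₀ := hf.analyticAt (hO.mem_nhds ht)
  have hs : HasStrictDerivAt f (deriv f t₀) t₀ := han.hasStrictDerivAt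
  have h0' := h0 t₀ ht
  have hF := hs.hasStrictFDerivAt_equiv h0'
  set e := hF.toOpenPartialHomeomorph f with he
  have hts : t₀ ∈ e.source := hF.mem_toOpenPartialHomeomorph_source
  have htt : f t₀ ∈ e.target := hF.image_mem_toOpenPartialHomeomorph_target
  have hef : ∀ x, e x = f x := fun x => rfl
  have hg0 : e.symm (f t₀) = t₀ := by
    have := e.left_inv hts
    rwa [hef] at this
  refine ⟨e.symm, hg0, ?_⟩
  have h1 : ∀ᶠ x in 𝓝 (f t₀), x ∈ e.target := e.open_target.mem_nhds htt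
  have h2 : ∀ᶠ x in 𝓝 (f t₀), e.symm x ∈ O := by
    have hc : ContinuousAt e.symm (f t₀) := e.continuousAt_symm htt
    exact hc.eventually (by rw [hg0]; exact hO.mem_nhds ht)
  filter_upwards [h1, h2] with x hx hxO
  refine ⟨hxO, ?_⟩
  have hd : HasDerivAt f (deriv f (e.symm x)) (e.symm x) :=
    ((hf _ hxO).differentiableAt (hO.mem_nhds hxO)).hasDerivAt
  refine HasDerivAt.of_local_left_inverse (e.continuousAt_symm hx) hd (h0 _ hxO) ?_
  filter_upwards [e.open_target.mem_nhds hx] with y hy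
  rw [← hef]
  exact e.right_inv hy

private theorem StL_curve {V : Set (E n)} (hV : IsOpen V) {u : E n → E n}
    (hu : ContDiffOn ℝ ∞ u V) {m : Fin n} {c : ℝ → E n} {a : ℝ → ℂ} {s₀ : ℝ}
    (ha : ContinuousAt a s₀) (hc : ∀ᶠ q in 𝓝 s₀, HasDerivAt c (a q • u (c q)) q)
    (hcm : ∀ᶠ q in 𝓝 s₀, HasDerivAt (fun q => c q m) (a q) q)
    (hcV : c s₀ ∈ V) {z : ℂ → E n} {O : Set ℂ} (hO : IsOpen O) (hz : DifferentiableOn ℂ z O)
    (hz' : ∀ t ∈ O, deriv z t m ≠ 0 ∧ (z t ∈ V → deriv z t = deriv z t m • u (z t)))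
    {t₀ : ℂ} (ht : t₀ ∈ O) (h0 : z t₀ = c s₀) : ∀ᶠ q in 𝓝 s₀, ∃ t ∈ O, c q = z t := by
  have hdm : ∀ t ∈ O, HasDerivAt (fun t => z t m) (deriv z t m) t := fun t ht =>
    hasDerivAt_pi.1 ((hz t ht).differentiableAt (hO.mem_nhds ht)).hasDerivAt m
  obtain ⟨g, hg0, hg⟩ := StL_inv (f := fun t => z t m) hO
    (fun t ht => (hdm t ht).differentiableAt.differentiableWithinAt) ht
    (fun t ht => by rw [(hdm t ht).deriv]; exact (hz' t ht).1)
  have hcs : HasDerivAt c (a s₀ • u (c s₀)) s₀ := hc.self_of_nhds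
  have hcc : ContinuousAt c s₀ := hcs.continuousAt
  have hcmc : ContinuousAt (fun q => c q m) s₀ := hcm.self_of_nhds.continuousAt
  have h0m : c s₀ m = z t₀ m := by rw [h0]
  have hgm : g (c s₀ m) = t₀ := by rw [h0m]; exact hg0
  have hgc : ContinuousAt g (c s₀ m) := by
    rw [h0m]; exact hg.self_of_nhds.2.continuousAt
  set h : ℝ → ℂ := fun q => g (c q m) with hh
  have hs0 : h s₀ = t₀ := hgm
  have hg' : ∀ᶠ q in 𝓝 s₀, h q ∈ O ∧ HasDerivAt g (deriv z (h q) m)⁻¹ (c q m) := by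
    have h1 : ∀ᶠ x in 𝓝 (c s₀ m), g x ∈ O ∧ HasDerivAt g (deriv (fun t => z t m) (g x))⁻¹ x := by
      rw [h0m]; exact hg
    have h2 := hcmc.eventually h1
    filter_upwards [h2] with q hq
    refine ⟨hq.1, ?_⟩
    have h3 := hq.2
    rwa [(hdm _ hq.1).deriv] at h3
  have hh' : ∀ᶠ q in 𝓝 s₀, HasDerivAt h (a q • (deriv z (h q) m)⁻¹) q := by
    filter_upwards [hg', hcm] with q hq hq2
    exact HasDerivAt.scomp q hq.2 hq2
  have hhc : ContinuousAt h s₀ := hh'.self_of_nhds.continuousAt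
  have he' : ∀ᶠ q in 𝓝 s₀, HasDerivAt (fun q => z (h q))
      ((a q • (deriv z (h q) m)⁻¹) • deriv z (h q)) q := by
    filter_upwards [hg', hh'] with q hq hq2
    exact HasDerivAt.scomp q
      ((hz _ hq.1).differentiableAt (hO.mem_nhds hq.1)).hasDerivAt hq2
  have hec : ContinuousAt (fun q => z (h q)) s₀ := he'.self_of_nhds.continuousAt
  have hes : z (h s₀) = c s₀ := by rw [hs0, h0]
  obtain ⟨K, t, htn, hK⟩ := ((hu.contDiffAt (hV.mem_nhds hcV)).of_le
    (by exact_mod_cast le_top : (1 : WithTop ℕ∞) ≤ ∞)).exists_lipschitzOnWith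
  have hab : ∀ᶠ q in 𝓝 s₀, ‖a q‖₊ ≤ ‖a s₀‖₊ + 1 := by
    have h1 : ContinuousAt (fun q => ‖a q‖₊) s₀ := ha.nnnorm
    have h2 : ‖a s₀‖₊ < ‖a s₀‖₊ + 1 := lt_add_of_pos_right _ one_pos
    filter_upwards [h1.eventually (gt_mem_nhds h2)] with q hq
    exact hq.le
  have key : c =ᶠ[𝓝 s₀] fun q => z (h q) := by
    refine ODE_solution_unique_of_eventually (v := fun q y => a q • u y) (s := fun _ => t ∩ V)
      (K := (‖a s₀‖₊ + 1) * K) ?_ ?_ ?_ hes.symm
    · filter_upwards [hab] with q hq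
      intro x hx y hy
      have h1 := hK hx.1 hy.1
      change edist (a q • u x) (a q • u y) ≤ _
      rw [edist_smul₀]
      rw [ENNReal.smul_def, smul_eq_mul, ENNReal.coe_mul, mul_assoc]
      exact mul_le_mul' (by exact_mod_cast hq) h1
    · filter_upwards [hc, hcc.eventually htn, hcc.eventually (hV.mem_nhds hcV)] with q h1 h2 h3
      exact ⟨h1, h2, h3⟩
    · have hec2 : ∀ᶠ q in 𝓝 s₀, z (h q) ∈ t := hec.eventually
        (by show t ∈ 𝓝 (z (h s₀)); rw [hes]; exact htn)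
      have hec3 : ∀ᶠ q in 𝓝 s₀, z (h q) ∈ V := hec.eventually
        (by show V ∈ 𝓝 (z (h s₀)); rw [hes]; exact hV.mem_nhds hcV)
      filter_upwards [he', hec2, hec3, hg'] with q h1 h2 h3 h4
      refine ⟨?_, h2, h3⟩
      have h5 := hz' _ h4.1
      have h6 : (a q • (deriv z (h q) m)⁻¹) • deriv z (h q) = a q • u (z (h q)) := by
        calc (a q • (deriv z (h q) m)⁻¹) • deriv z (h q)
            = (a q • (deriv z (h q) m)⁻¹) • (deriv z (h q) m • u (z (h q))) :=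
              congrArg (fun v => (a q • (deriv z (h q) m)⁻¹) • v) (h5.2 h3)
          _ = a q • u (z (h q)) := by
              rw [smul_eq_mul, smul_smul, mul_assoc, inv_mul_cancel₀ h5.1, mul_one]
      rwa [h6] at h1
  filter_upwards [key, hg'] with q h1 h2
  exact ⟨h q, h2.1, h1⟩

end aux

variable {n : ℕ} {X : Type*} [TopologicalSpace X] {ι κ : Type*} {A : Spc (Fin n) X ι κ}
  {η : Form A} {W : Set ℂ} {Φ : ℂ → X}

theorem stl (hW : IsOpen W) (h : η.IsLeaf W Φ) {t₀ : ℂ} (ht : t₀ ∈ W) {γ : ℝ → X} {s₀ : ℝ}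
    (hγ : η.IsTan {s₀} γ) (h0 : γ s₀ = Φ t₀) : ∀ᶠ q in 𝓝 s₀, γ q ∈ Φ '' W := by
  obtain ⟨i, O, d, hO, hsO, hmO, hdc, hd⟩ := hγ s₀ rfl
  have hj : Φ t₀ ∈ (A.c i).source := by rw [← h0]; exact hmO hsO
  obtain ⟨O', hO', htO', hO'W, hmO', hz, hu⟩ := leaf_chart hW h ht hj
  obtain ⟨hreg, m, hm⟩ := unit_reg (hu t₀ htO')
  have hkf : KF (η.w i) m (Um (η.w i) m (A.c i).target) (fun k => uu (η.w i) m k) :=
    kf_of (A.c i).open_target (η.smooth i) (fun _ hz => psd η hz)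
      (fun z hz => η.det_eq_zero i z hz) m
  have hV : IsOpen (Um (η.w i) m (A.c i).target) := hkf.isOpen
  have hV0 : A.c i (Φ t₀) ∈ Um (η.w i) m (A.c i).target := ⟨hreg.1, hm⟩
  have hc0 : A.c i (γ s₀) = A.c i (Φ t₀) := by rw [h0]
  have hO2 : IsOpen (O' ∩ (fun s => A.c i (Φ s)) ⁻¹' Um (η.w i) m (A.c i).target) :=
    hz.continuousOn.isOpen_inter_preimage hO' hV
  have hcc : ContinuousAt (fun q => A.c i (γ q)) s₀ := (hd s₀ hsO).1.continuousAt
  have hcV : ∀ᶠ q in 𝓝 s₀, A.c i (γ q) ∈ Um (η.w i) m (A.c i).target := hcc.eventually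
    (by show Um (η.w i) m (A.c i).target ∈ 𝓝 (A.c i (γ s₀)); rw [hc0]; exact hV.mem_nhds hV0)
  have key := StL_curve (V := Um (η.w i) m (A.c i).target) hV
    (u := fun y k => uu (η.w i) m k y) (contDiffOn_pi.2 fun k => hkf.su k) (m := m)
    (c := fun q => A.c i (γ q)) (a := fun q => d q m) (s₀ := s₀)
    ((continuousAt_apply m (d s₀)).comp (hdc.continuousAt (hO.mem_nhds hsO))) ?_ ?_
    (by show A.c i (γ s₀) ∈ _; rw [hc0]; exact hV0) hO2 (hz.mono inter_subset_left)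
    ?_ ⟨htO', hV0⟩ hc0.symm
  · filter_upwards [key, hO.mem_nhds hsO] with q hq hqO
    obtain ⟨t, htO, hqt⟩ := hq
    exact ⟨t, hO'W htO.1, ((A.c i).injOn (hmO hqO) (hmO' htO.1) hqt).symm⟩
  · filter_upwards [hcV, hO.mem_nhds hsO] with q hq hqO
    obtain ⟨h1, h2, h3⟩ := hd q hqO
    have h4 : d q = d q m • fun k => uu (η.w i) m k (A.c i (γ q)) := by
      obtain ⟨a, ha⟩ := unit_exists h2
      obtain ⟨c, hc⟩ := ker_unit ha h3
      obtain ⟨h5, -, h6⟩ := unit_eq ha hq.2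
      rw [hc]
      conv_lhs => rw [h6]
      rw [smul_smul]
      rfl
    rw [h4] at h1
    have h5 : (d q m • fun k => uu (η.w i) m k (A.c i (γ q))) m = d q m := by
      simp only [Pi.smul_apply, smul_eq_mul]
      rw [hkf.one _ hq, mul_one]
    exact h1
  · filter_upwards [hO.mem_nhds hsO] with q hqO
    exact hasDerivAt_pi.1 (hd q hqO).1 m
  · intro t ht
    obtain ⟨h5, -, h6⟩ := unit_eq (hu t ht.1) ht.2.2
    exact ⟨h5, fun _ => h6⟩

end Pool.Agent.CYE
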