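import Pool.Agent.CYE.Spd
import Pool.Agent.CYN.Pat

/-!
CYE module Stp (size 5): one step of the a priori estimate: for a short time a leaf map stays in a patch, and `λ` does not decrease much.
PROOF. `M ≥ 0` with `LX η b.k ≤ M` on the compact set `b.Q` (`LX_cont`), `C` from `spd_lam` for `b.Q`, `r = b.r`. `τ = r / (4 (M + 1))` (then `16 r² M τ² ≤ r⁴`), `c₀ = exp (- C τ)`.
Let `v = t₂ - t₁`, `‖v‖ ≤ τ`, `γ s = Φ (t₁ + s v)`, `f s = nn b.cen (A.ζ b.k (γ s))`, `s ∈ [0, 1]` (`t₁ + s v ∈ W` by convexity). Let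
`T = {s ∈ [0, 1] | ∀ s' ∈ [0, s], γ s' ∈ b.Q ∧ f s' ≤ r²/4 + s' r²/2}`. Show `T = [0, 1]` with `IsClosed.Icc_subset_of_forall_exists_gt` (Mathlib/Topology/Order/IntermediateValue.lean) or with `sSup`:
`0 ∈ T` by hypothesis; `T` is closed (`γ` is continuous (`leaf_cont`), `b.Q` is closed, `f` is continuous on `γ⁻¹ (b.Q)` since `A.ζ b.k` is continuous on `V k`); if `s ∈ T`, `s < 1`: `f s ≤ 3 r²/4 < r²`, so `γ s ∈ interior b.Q`
(`b.int`) and on `[s, s + ε]` `γ ∈ b.Q`, `f < r²`; there `|f'|² ≤ 4 τ² r² M ≤ r⁴ / 4` (`spd_nn`), so `|f'| ≤ r²/2` and `f s' ≤ f s + (s' - s) r²/2` (mean value inequality, e.g. `image_le_of_deriv_right_le_deriv_boundary` or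
`Convex.norm_image_sub_le_of_norm_hasDerivWithin_le`), so `s + ε ∈ T`.
On `[0, 1]`: `g s = LX η b.k (γ s)` satisfies `|g'| ≤ C ‖v‖ g` (`spd_lam`), so `g s * exp (C ‖v‖ s)` has a nonnegative derivative and is monotone (`monotoneOn_of_deriv_nonneg` or
`antitoneOn..`): `g 1 ≥ exp (- C ‖v‖) g 0 ≥ c₀ g 0` (`LX_nonneg`). `γ 1 = Φ t₂`.
-/

open scoped ContDiff ComplexConjugate Topology ComplexOrder
open Complex Matrix Set

namespace Pool.Agent.CYE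

open Pool.Agent.CYF Pool.Agent.CYN

variable {n : ℕ} {X : Type*} [TopologicalSpace X] {ι κ : Type*} {A : Spc (Fin n) X ι κ}

private theorem stp_bound {M r τ : ℝ} (hM : 0 ≤ M) (hr : 0 < r) (hτ : τ = r / (4 * (M + 1)))
    {v N L D : ℝ} (hv0 : 0 ≤ v) (hv : v ≤ τ) (hN0 : 0 ≤ N) (hN : N ≤ r ^ 2) (hL0 : 0 ≤ L)
    (hL : L ≤ M) (hD : D ^ 2 ≤ 4 * v ^ 2 * N * L) : |D| ≤ r ^ 2 / 2 := by
  have hM1 : 0 < M + 1 := by linarith
  have hτ0 : 0 < τ := by rw [hτ]; positivity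
  have h1 : v ^ 2 ≤ τ ^ 2 := pow_le_pow_left₀ hv0 hv 2
  have h2 : 4 * v ^ 2 * N * L ≤ 4 * τ ^ 2 * r ^ 2 * M := by
    have a1 : 4 * v ^ 2 * N ≤ 4 * τ ^ 2 * r ^ 2 := by
      have : v ^ 2 * N ≤ τ ^ 2 * r ^ 2 := mul_le_mul h1 hN hN0 (by positivity)
      linarith
    exact mul_le_mul a1 hL hL0 (by positivity)
  have h3 : τ * (4 * (M + 1)) = r := by
    rw [hτ]; field_simp
  have h4 : 4 * τ ^ 2 * r ^ 2 * M ≤ (r ^ 2 / 2) ^ 2 := by
    have a1 : M ≤ 4 * (M + 1) ^ 2 := by nlinarith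
    have a2 : 4 * τ ^ 2 * r ^ 2 * M ≤ 4 * τ ^ 2 * r ^ 2 * (4 * (M + 1) ^ 2) := by
      apply mul_le_mul_of_nonneg_left a1
      positivity
    have a3 : 4 * τ ^ 2 * r ^ 2 * (4 * (M + 1) ^ 2) = r ^ 2 * (τ * (4 * (M + 1))) ^ 2 := by ring
    rw [a3, h3] at a2
    have a4 : τ ^ 2 * r ^ 2 * (4 * (M + 1)) ^ 2 = r ^ 4 := by
      have : τ ^ 2 * r ^ 2 * (4 * (M + 1)) ^ 2 = r ^ 2 * (τ * (4 * (M + 1))) ^ 2 := by ring
      rw [this, h3]; ring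
    have a5 : 16 * (τ ^ 2 * r ^ 2 * M) ≤ τ ^ 2 * r ^ 2 * (4 * (M + 1)) ^ 2 := by
      have b1 : 16 * M ≤ (4 * (M + 1)) ^ 2 := by nlinarith
      have b2 : τ ^ 2 * r ^ 2 * (16 * M) ≤ τ ^ 2 * r ^ 2 * (4 * (M + 1)) ^ 2 :=
        mul_le_mul_of_nonneg_left b1 (by positivity)
      linarith
    rw [a4] at a5
    nlinarith
  apply abs_le_of_sq_le_sq (hD.trans (h2.trans h4)) (by positivity)

private theorem stp_nn_nonneg {m : ℕ} (c z : E m) : 0 ≤ nn c z := by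
  unfold nn
  positivity

private theorem stp_nn_cont {m : ℕ} (c : E m) : Continuous (nn c) := by
  unfold nn
  fun_prop

private theorem stp_mem {W : Set ℂ} (hW : Convex ℝ W) {t₁ t₂ : ℂ} (h₁ : t₁ ∈ W) (h₂ : t₂ ∈ W)
    {s : ℝ} (h0 : 0 ≤ s) (h1 : s ≤ 1) : t₁ + (s : ℂ) * (t₂ - t₁) ∈ W := by
  have h := hW h₁ h₂ (sub_nonneg.2 h1) h0 (by ring)
  have e : (1 - s) • t₁ + s • t₂ = t₁ + (s : ℂ) * (t₂ - t₁) := by
    simp only [Complex.real_smul]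
    push_cast
    ring
  rwa [e] at h

private theorem stp_pc {W : Set ℂ} {Φ : ℂ → X} {η : Form A} (hWo : IsOpen W)
    (hl : η.IsLeaf W Φ) {t₁ v : ℂ} {s : ℝ} (hs : t₁ + (s : ℂ) * v ∈ W) :
    ContinuousAt (fun q : ℝ => Φ (t₁ + (q : ℂ) * v)) s := by
  have h1 : ContinuousAt Φ (t₁ + (s : ℂ) * v) := leaf_cont hWo hl hs
  have h2 : Continuous (fun q : ℝ => t₁ + (q : ℂ) * v) := by fun_prop
  exact ContinuousAt.comp (f := fun q : ℝ => t₁ + (q : ℂ) * v) h1 h2.continuousAt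

theorem stp [CompactSpace X] [T2Space X] (hA : A.Index1) (η : Form A) (b : Pt A) :
    ∃ τ > 0, ∃ c₀ > 0, ∀ (W : Set ℂ) (Φ : ℂ → X), IsOpen W → Convex ℝ W → η.IsLeaf W Φ →
      ∀ t₁ ∈ W, ∀ t₂ ∈ W, ‖t₂ - t₁‖ ≤ τ → Φ t₁ ∈ b.Q →
        nn b.cen (A.ζ b.k (Φ t₁)) < (b.r / 2) ^ 2 →
        Φ t₂ ∈ b.Q ∧ c₀ * LX η b.k (Φ t₁) ≤ LX η b.k (Φ t₂) := by
  obtain ⟨C, hC0, hC⟩ := spd_lam hA η b.k b.comp b.sub
  obtain ⟨M, hM0, hM⟩ : ∃ M : ℝ, 0 ≤ M ∧ ∀ x ∈ b.Q, LX η b.k x ≤ M := by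
    have h1 : ContinuousOn (LX η b.k) b.Q := (LX_cont η b.k).mono b.sub
    obtain ⟨M, hM⟩ := b.comp.bddAbove_image h1
    exact ⟨max M 0, le_max_right _ _, fun x hx => (hM ⟨x, hx, rfl⟩).trans (le_max_left _ _)⟩
  have hr := b.pos
  have hM1 : 0 < M + 1 := by linarith
  obtain ⟨τ, hτ⟩ : ∃ τ : ℝ, τ = b.r / (4 * (M + 1)) := ⟨_, rfl⟩
  have hτ0 : 0 < τ := by rw [hτ]; positivity
  refine ⟨τ, hτ0, Real.exp (-(C * τ)), Real.exp_pos _, ?_⟩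
  intro W Φ hWo hWc hl t₁ ht₁ t₂ ht₂ hd hQ hn
  obtain ⟨v, hv⟩ : ∃ v : ℂ, v = t₂ - t₁ := ⟨_, rfl⟩
  rw [← hv] at hd
  obtain ⟨γ, hγ⟩ : ∃ γ : ℝ → X, γ = fun q : ℝ => Φ (t₁ + (q : ℂ) * v) := ⟨_, rfl⟩
  have hmem : ∀ s ∈ Icc (0 : ℝ) 1, t₁ + (s : ℂ) * v ∈ W := by
    intro s hs
    rw [hv]
    exact stp_mem hWc ht₁ ht₂ hs.1 hs.2
  have hγc : ∀ s ∈ Icc (0 : ℝ) 1, ContinuousAt γ s := by
    intro s hs
    rw [hγ]
    exact stp_pc hWo hl (hmem s hs)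
  have hγ0 : γ 0 = Φ t₁ := by rw [hγ]; simp
  have hγ1 : γ 1 = Φ t₂ := by rw [hγ, hv]; simp
  obtain ⟨f, hf⟩ : ∃ f : ℝ → ℝ, f = fun s => nn b.cen (A.ζ b.k (γ s)) := ⟨_, rfl⟩
  have hQcl : IsClosed b.Q := b.comp.isClosed
  have hder : ∀ s : ℝ, t₁ + (s : ℂ) * v ∈ W → γ s ∈ b.Q → f s ≤ b.r ^ 2 →
      DifferentiableAt ℝ f s ∧ |deriv f s| ≤ b.r ^ 2 / 2 := by
    intro s hs hsQ hfs
    have hk : Φ (t₁ + (s : ℂ) * v) ∈ A.V b.k := by
      have := b.sub hsQ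
      rw [hγ] at this
      exact this
    obtain ⟨D, hD, hD2⟩ := spd_nn η b.k hWo hl hs hk b.cen
    have hD' : HasDerivAt f D s := by
      rw [hf, hγ]
      exact hD
    refine ⟨hD'.differentiableAt, ?_⟩
    rw [hD'.deriv]
    have e1 : Φ (t₁ + (s : ℂ) * v) = γ s := by rw [hγ]
    rw [e1] at hD2
    have hfs' : nn b.cen (A.ζ b.k (γ s)) ≤ b.r ^ 2 := by
      rw [hf] at hfs
      exact hfs
    exact stp_bound hM0 hr hτ (norm_nonneg v) hd (stp_nn_nonneg _ _) hfs' (LX_nonneg η b.k _)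
      (hM _ hsQ) hD2
  have key : Icc (0 : ℝ) 1 ⊆ {s | γ s ∈ b.Q ∧ f s ≤ b.r ^ 2 / 4 + s * (b.r ^ 2 / 2)} := by
    apply IsClosed.Icc_subset_of_forall_exists_gt
    · have hc1 : ContinuousOn γ (Icc 0 1) := fun s hs => (hγc s hs).continuousWithinAt
      have hcl1 : IsClosed (Icc (0 : ℝ) 1 ∩ γ ⁻¹' b.Q) :=
        hc1.preimage_isClosed_of_isClosed isClosed_Icc hQcl
      have hc2 : ContinuousOn (fun s => f s - s * (b.r ^ 2 / 2)) (Icc (0 : ℝ) 1 ∩ γ ⁻¹' b.Q) := by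
        have h1 : ContinuousOn (fun s => A.ζ b.k (γ s)) (Icc (0 : ℝ) 1 ∩ γ ⁻¹' b.Q) :=
          ((A.cont b.k).mono b.sub).comp (hc1.mono inter_subset_left) (fun s hs => hs.2)
        have h2 : ContinuousOn f (Icc (0 : ℝ) 1 ∩ γ ⁻¹' b.Q) := by
          rw [hf]
          exact (stp_nn_cont b.cen).comp_continuousOn h1
        exact h2.sub (by fun_prop)
      have hcl2 := hc2.preimage_isClosed_of_isClosed hcl1 (isClosed_Iic (a := b.r ^ 2 / 4))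
      convert hcl2 using 1
      ext s
      simp only [mem_inter_iff, mem_ofPred_eq, mem_preimage, mem_Iic, sub_le_iff_le_add]
      tauto
    · refine ⟨by rw [hγ0]; exact hQ, ?_⟩
      have h1 : f 0 = nn b.cen (A.ζ b.k (Φ t₁)) := by rw [hf]; simp only [hγ0]
      rw [h1]
      nlinarith
    · rintro x ⟨⟨hxQ, hxf⟩, hx0, hx1⟩ y hy
      have hxm : x ∈ Icc (0 : ℝ) 1 := ⟨hx0, hx1.le⟩
      have hr2 : 0 < b.r ^ 2 := by positivity
      have hfx : f x < b.r ^ 2 := by nlinarith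
      have hxi : γ x ∈ interior b.Q := b.int _ hxQ (by rw [hf] at hfx; exact hfx)
      have e1 : ∀ᶠ s in 𝓝 x, γ s ∈ interior b.Q :=
        (hγc x hxm).eventually (isOpen_interior.mem_nhds hxi)
      have hfc : ContinuousAt f x :=
        (hder x (hmem x hxm) hxQ hfx.le).1.continuousAt
      have e2 : ∀ᶠ s in 𝓝 x, f s < b.r ^ 2 := hfc.eventually (gt_mem_nhds hfx)
      obtain ⟨δ, hδ, hball⟩ := Metric.eventually_nhds_iff.1 (e1.and e2)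
      obtain ⟨z, hz⟩ : ∃ z : ℝ, z = min (x + δ / 2) (min y 1) := ⟨_, rfl⟩
      have hxz : x < z := by
        rw [hz]
        exact lt_min (by linarith) (lt_min hy hx1)
      have hz1 : z ≤ x + δ / 2 := by rw [hz]; exact min_le_left _ _
      have hz2 : z ≤ y := by rw [hz]; exact (min_le_right _ _).trans (min_le_left _ _)
      have hz3 : z ≤ 1 := by rw [hz]; exact (min_le_right _ _).trans (min_le_right _ _)
      have hin : ∀ s ∈ Icc x z, γ s ∈ interior b.Q ∧ f s < b.r ^ 2 := by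
        intro s hs
        apply hball
        rw [Real.dist_eq, abs_of_nonneg (by linarith [hs.1])]
        linarith [hs.2]
      have hmv := Convex.norm_image_sub_le_of_norm_deriv_le (𝕜 := ℝ) (f := f) (C := b.r ^ 2 / 2)
        (s := Icc x z) (x := x) (y := z)
        (fun s hs => (hder s (hmem s ⟨hx0.trans hs.1, hs.2.trans hz3⟩)
          (interior_subset (hin s hs).1) (hin s hs).2.le).1)
        (fun s hs => (hder s (hmem s ⟨hx0.trans hs.1, hs.2.trans hz3⟩)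
          (interior_subset (hin s hs).1) (hin s hs).2.le).2)
        (convex_Icc x z) ⟨le_rfl, hxz.le⟩ ⟨hxz.le, le_rfl⟩
      refine ⟨z, ⟨interior_subset (hin z ⟨hxz.le, le_rfl⟩).1, ?_⟩, hxz, hz2⟩
      rw [Real.norm_eq_abs, Real.norm_eq_abs, abs_of_pos (sub_pos.2 hxz)] at hmv
      have := le_abs_self (f z - f x)
      nlinarith
  refine ⟨by rw [← hγ1]; exact (key ⟨zero_le_one, le_rfl⟩).1, ?_⟩
  obtain ⟨g, hg⟩ : ∃ g : ℝ → ℝ, g = fun s => LX η b.k (γ s) := ⟨_, rfl⟩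
  have hgd : ∀ s ∈ Icc (0 : ℝ) 1, ∃ D : ℝ, HasDerivAt g D s ∧ |D| ≤ C * ‖v‖ * g s := by
    intro s hs
    have hsQ : Φ (t₁ + (s : ℂ) * v) ∈ b.Q := by
      have := (key hs).1
      rw [hγ] at this
      exact this
    obtain ⟨D, hD, hD2⟩ := hC W Φ hWo hl t₁ v s (hmem s hs) hsQ
    refine ⟨D, ?_, ?_⟩
    · rw [hg, hγ]
      exact hD
    · rw [hg, hγ]
      exact hD2
  obtain ⟨h, hh⟩ : ∃ h : ℝ → ℝ, h = fun s => g s * Real.exp (C * ‖v‖ * s) := ⟨_, rfl⟩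
  have hhd : ∀ s ∈ Icc (0 : ℝ) 1, ∃ D : ℝ, HasDerivAt h D s ∧ 0 ≤ D := by
    intro s hs
    obtain ⟨D, hD, hD2⟩ := hgd s hs
    have h1 : HasDerivAt (fun s : ℝ => Real.exp (C * ‖v‖ * s))
        (Real.exp (C * ‖v‖ * s) * (C * ‖v‖)) s := by
      have h2 : HasDerivAt (fun s : ℝ => C * ‖v‖ * s) (C * ‖v‖) s := by
        simpa using (hasDerivAt_id s).const_mul (C * ‖v‖)
      exact h2.exp
    refine ⟨D * Real.exp (C * ‖v‖ * s) + g s * (Real.exp (C * ‖v‖ * s) * (C * ‖v‖)), ?_, ?_⟩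
    · rw [hh]
      exact hD.mul h1
    · have h3 : 0 ≤ D + C * ‖v‖ * g s := by linarith [neg_abs_le D]
      have h4 : D * Real.exp (C * ‖v‖ * s) + g s * (Real.exp (C * ‖v‖ * s) * (C * ‖v‖))
          = (D + C * ‖v‖ * g s) * Real.exp (C * ‖v‖ * s) := by ring
      rw [h4]
      exact mul_nonneg h3 (Real.exp_pos _).le
  have hmono : MonotoneOn h (Icc 0 1) := by
    apply monotoneOn_of_deriv_nonneg (convex_Icc 0 1)
    · intro s hs
      obtain ⟨D, hD, -⟩ := hhd s hs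
      exact hD.continuousAt.continuousWithinAt
    · intro s hs
      obtain ⟨D, hD, -⟩ := hhd s (interior_subset hs)
      exact hD.differentiableAt.differentiableWithinAt
    · intro s hs
      obtain ⟨D, hD, hD0⟩ := hhd s (interior_subset hs)
      rw [hD.deriv]
      exact hD0
  have hfin := hmono (left_mem_Icc.2 zero_le_one) (right_mem_Icc.2 zero_le_one) zero_le_one
  have hg0 : g 0 = LX η b.k (Φ t₁) := by rw [hg]; simp only [hγ0]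
  have hg1 : g 1 = LX η b.k (Φ t₂) := by rw [hg]; simp only [hγ1]
  rw [hh] at hfin
  simp only [mul_zero, Real.exp_zero, mul_one] at hfin
  rw [← hg0, ← hg1]
  have hg00 : 0 ≤ g 0 := by rw [hg0]; exact LX_nonneg η b.k _
  have h5 : Real.exp (-(C * τ)) ≤ Real.exp (-(C * ‖v‖)) := by
    apply Real.exp_le_exp.2
    have := mul_le_mul_of_nonneg_left hd hC0
    linarith
  calc Real.exp (-(C * τ)) * g 0 ≤ Real.exp (-(C * ‖v‖)) * g 0 :=
        mul_le_mul_of_nonneg_right h5 hg00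
    _ ≤ Real.exp (-(C * ‖v‖)) * (g 1 * Real.exp (C * ‖v‖)) :=
        mul_le_mul_of_nonneg_left hfin (Real.exp_pos _).le
    _ = g 1 * (Real.exp (-(C * ‖v‖)) * Real.exp (C * ‖v‖)) := by ring
    _ = g 1 := by rw [← Real.exp_add, neg_add_cancel, Real.exp_zero, mul_one]

end Pool.Agent.CYE
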