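import Pool.Agent.CYF.Loc

/-!
CYE module Tps (size 3): positivity of the kernel `∑_j δ_(I j, K j) ∏_(l ≠ j) L (I l) (K l)`.
PROOF. It is enough to treat one `j`. `L = Gᴴ G` (`hL`: see `pos_factor` / `Adj_fact` in CYF: `CStarAlgebra` or `Matrix.posSemidef_iff_eq_conjTranspose_mul_self`), i.e. `L p q = ∑_r conj (G r p) * G r q`,
and `1 p q = ∑_r conj (1 r p) 1 r q`. With `H l = G` for `l ≠ j`, `H j = 1`:
`(if I j = K j then 1 else 0) * ∏_{l ≠ j} L (I l) (K l) = ∏_l ∑_r conj (H l r (I l)) * H l r (K l) = ∑_{R : Fin n → Fin M} (∏_l conj (H l (R l) (I l))) * (∏_l H l (R l) (K l))`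
(`Finset.prod_univ_sum`, `Fintype.piFinset_univ`). So the double sum over `I, K` is `∑_R ‖∑_I c I ∏_l conj (H l (R l) (I l))‖²`.
-/

open scoped ComplexConjugate ComplexOrder
open Matrix Finset

namespace Pool.Agent.CYE

private theorem Tps_one {n M : ℕ} (H : Fin n → Matrix (Fin M) (Fin M) ℂ)
    (c : (Fin n → Fin M) → ℂ) :
    0 ≤ (∑ I : Fin n → Fin M, ∑ K : Fin n → Fin M, (c I * conj (c K)) *
        ∏ l, ∑ r, conj (H l r (I l)) * H l r (K l)).re := by
  have h1 : ∀ I K : Fin n → Fin M, ∏ l, ∑ r, conj (H l r (I l)) * H l r (K l)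
      = ∑ R : Fin n → Fin M, (∏ l, conj (H l (R l) (I l))) * (∏ l, H l (R l) (K l)) := by
    intro I K
    rw [Finset.prod_univ_sum, Fintype.piFinset_univ]
    refine Finset.sum_congr rfl fun R _ => ?_
    rw [Finset.prod_mul_distrib]
  have h2 : (∑ I : Fin n → Fin M, ∑ K : Fin n → Fin M, (c I * conj (c K)) *
        ∏ l, ∑ r, conj (H l r (I l)) * H l r (K l))
      = ∑ R : Fin n → Fin M, (∑ I : Fin n → Fin M, c I * ∏ l, conj (H l (R l) (I l))) *
          conj (∑ I : Fin n → Fin M, c I * ∏ l, conj (H l (R l) (I l))) := by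
    simp only [h1]
    have h3 : ∀ R : Fin n → Fin M, (∑ I : Fin n → Fin M, c I * ∏ l, conj (H l (R l) (I l))) *
          conj (∑ I : Fin n → Fin M, c I * ∏ l, conj (H l (R l) (I l)))
        = ∑ I : Fin n → Fin M, ∑ K : Fin n → Fin M, (c I * conj (c K)) *
          ((∏ l, conj (H l (R l) (I l))) * (∏ l, H l (R l) (K l))) := by
      intro R
      rw [map_sum, Finset.sum_mul_sum]
      refine Finset.sum_congr rfl fun I _ => Finset.sum_congr rfl fun K _ => ?_
      rw [map_mul, map_prod]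
      simp only [Complex.conj_conj]
      ring
    simp only [h3, Finset.mul_sum]
    rw [Finset.sum_comm]
    rw [Finset.sum_comm]
    refine Eq.trans ?_ (Finset.sum_comm)
    refine Finset.sum_congr rfl fun I _ => ?_
    rw [Finset.sum_comm]
  rw [h2, Complex.re_sum]
  refine Finset.sum_nonneg fun R _ => ?_
  rw [Complex.mul_conj]
  simp [Complex.normSq_nonneg]

private theorem Tps_fact {n : ℕ} {F : Matrix (Fin n) (Fin n) ℂ} (hF : F.PosSemidef) :
    ∃ B : Matrix (Fin n) (Fin n) ℂ, F = star B * B := by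
  open scoped MatrixOrder in
  have h := CStarAlgebra.nonneg_iff_eq_star_mul_self.mp (Matrix.nonneg_iff_posSemidef.2 hF)
  exact h

theorem tps {n M : ℕ} {L : Matrix (Fin M) (Fin M) ℂ} (hL : L.PosSemidef)
    (c : (Fin n → Fin M) → ℂ) :
    0 ≤ (∑ I : Fin n → Fin M, ∑ K : Fin n → Fin M, (c I * conj (c K)) *
        ∑ j, (if I j = K j then (1 : ℂ) else 0) * ∏ l ∈ univ.erase j, L (I l) (K l)).re := by
  obtain ⟨G, hG⟩ : ∃ G : Matrix (Fin M) (Fin M) ℂ, ∀ p q, L p q = ∑ r, conj (G r p) * G r q := by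
    obtain ⟨G, hG⟩ := Tps_fact hL
    refine ⟨G, fun p q => ?_⟩
    rw [hG, Matrix.mul_apply]
    rfl
  have h0 : (∑ I : Fin n → Fin M, ∑ K : Fin n → Fin M, (c I * conj (c K)) *
        ∑ j, (if I j = K j then (1 : ℂ) else 0) * ∏ l ∈ univ.erase j, L (I l) (K l))
      = ∑ j, ∑ I : Fin n → Fin M, ∑ K : Fin n → Fin M, (c I * conj (c K)) *
        ((if I j = K j then (1 : ℂ) else 0) * ∏ l ∈ univ.erase j, L (I l) (K l)) := by
    simp only [Finset.mul_sum]
    symm
    rw [Finset.sum_comm]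
    refine Finset.sum_congr rfl fun I _ => ?_
    rw [Finset.sum_comm]
  rw [h0, Complex.re_sum]
  refine Finset.sum_nonneg fun j _ => ?_
  have h := Tps_one (fun l => if l = j then (1 : Matrix (Fin M) (Fin M) ℂ) else G) c
  have h4 : ∀ I K : Fin n → Fin M, (if I j = K j then (1 : ℂ) else 0) *
      ∏ l ∈ univ.erase j, L (I l) (K l)
      = ∏ l, ∑ r, conj ((if l = j then (1 : Matrix (Fin M) (Fin M) ℂ) else G) r (I l)) *
          (if l = j then (1 : Matrix (Fin M) (Fin M) ℂ) else G) r (K l) := by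
    intro I K
    rw [← Finset.mul_prod_erase univ _ (Finset.mem_univ j)]
    congr 1
    · simp [Matrix.one_apply, eq_comm]
    · refine Finset.prod_congr rfl fun l hl => ?_
      rw [hG]
      simp [Finset.ne_of_mem_erase hl]
  simp only [h4]
  exact h

end Pool.Agent.CYE
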